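import Mathlib

/-!
# Translation-invariant binary codes: killing a bounded number of elements of the group algebra
-/

namespace Run7.h505.TI

open Finset Module

/-- The field with two elements. -/
abbrev K := ZMod 2

theorem K_cases (x : K) : x = 0 ∨ x = 1 := by
  revert x; decide

theorem K_ne {x : K} (h : x ≠ 0) : x = 1 := (K_cases x).resolve_left h

/-- A bounded number of functions on a large space becomes trivial in a quotient. -/
theorem lemR {W : Type*} [AddCommGroup W] [Module K W] [Fintype W] {I : Type*} [Fintype I]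
    (a : I → W → K) (t : ℕ) (ht : Fintype.card I * 2 ^ t + t ≤ finrank K W) :
    ∃ p : W →ₗ[K] (Fin t → K), Function.Surjective p ∧
      ∀ i (h : (Fin t → K) → K), ∑ w, a i w * h (p w) = (∑ w, a i w) * h 0 := by
  classical
  induction t with
  | zero =>
    refine ⟨0, fun y => ⟨0, Subsingleton.elim _ _⟩, ?_⟩
    intro i h
    rw [Finset.sum_mul]
    refine Finset.sum_congr rfl fun w _ => ?_
    rw [Subsingleton.elim ((0 : W →ₗ[K] (Fin 0 → K)) w) 0]
  | succ t ih =>
    obtain ⟨p, hp, hpa⟩ := ih (by
      have : Fintype.card I * 2 ^ t ≤ Fintype.card I * 2 ^ (t + 1) :=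
        Nat.mul_le_mul_left _ (Nat.pow_le_pow_right (by norm_num) (by omega))
      omega)
    -- the obstruction space
    let B : (I → (Fin t → K) → K) →ₗ[K] W :=
      { toFun := fun g => ∑ i, ∑ w, (a i w * g i (p w)) • w
        map_add' := by
          intro g g'
          simp only [Pi.add_apply, mul_add, add_smul, Finset.sum_add_distrib]
        map_smul' := by
          intro c g
          simp only [Pi.smul_apply, smul_eq_mul, RingHom.id_apply, Finset.smul_sum, smul_smul]
          refine Finset.sum_congr rfl fun i _ => Finset.sum_congr rfl fun w _ => ?_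
          congr 1; ring }
    have hB : finrank K (LinearMap.range B) ≤ Fintype.card I * 2 ^ t := by
      refine (LinearMap.finrank_range_le B).trans ?_
      rw [Module.finrank_pi_fintype]
      simp [Module.finrank_fintype_fun_eq_card]
    have hker : finrank K (LinearMap.ker p) + t = finrank K W := by
      have h1 := LinearMap.finrank_range_add_finrank_ker p
      rw [LinearMap.range_eq_top.2 hp, finrank_top] at h1
      simp at h1
      omega
    have hnot : ¬ LinearMap.ker p ≤ LinearMap.range B := by
      intro hle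
      have h1 := Submodule.finrank_mono hle
      have h2 : Fintype.card I * 2 ^ t ≤ Fintype.card I * 2 ^ (t + 1) :=
        Nat.mul_le_mul_left _ (Nat.pow_le_pow_right (by norm_num) (by omega))
      omega
    obtain ⟨w₀, hw₀, hw₀'⟩ := Set.not_subset.1 hnot
    obtain ⟨l, hl, hle⟩ := Submodule.exists_le_ker_of_notMem hw₀'
    have hl1 : l w₀ = 1 := K_ne hl
    have hp0 : p w₀ = 0 := hw₀
    let p' : W →ₗ[K] (Fin (t + 1) → K) :=
      LinearMap.pi (Fin.cons l fun i => (LinearMap.proj i).comp p)
    have hp' : ∀ w, p' w = Fin.cons (l w) (p w) := by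
      intro w
      funext i
      refine Fin.cases ?_ (fun i => ?_) i
      · simp [p']
      · simp [p']
    refine ⟨p', ?_, ?_⟩
    · intro y
      obtain ⟨w₁, hw₁⟩ := hp (Fin.tail y)
      refine ⟨w₁ + (y 0 - l w₁) • w₀, ?_⟩
      rw [hp']
      rw [map_add, map_add, map_smul, map_smul, hl1, hp0, hw₁]
      simp
    · intro i h
      have hdec : ∀ (ε : K) (y : Fin t → K), h (Fin.cons ε y) =
          h (Fin.cons 0 y) + ε * (h (Fin.cons 1 y) - h (Fin.cons 0 y)) := by
        intro ε y
        rcases K_cases ε with rfl | rfl <;> ring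
      have h1 := hpa i (fun y => h (Fin.cons 0 y))
      have h2 : ∑ w, a i w * (l w * (h (Fin.cons 1 (p w)) - h (Fin.cons 0 (p w)))) = 0 := by
        have h3 : B (Pi.single i fun y => h (Fin.cons 1 y) - h (Fin.cons 0 y)) ∈
            LinearMap.range B := ⟨_, rfl⟩
        have h4 : l (B (Pi.single i fun y => h (Fin.cons 1 y) - h (Fin.cons 0 y))) = 0 := hle h3
        change l (∑ j, ∑ w, (a j w *
          (Pi.single i fun y => h (Fin.cons 1 y) - h (Fin.cons 0 y) :
            I → (Fin t → K) → K) j (p w)) • w) = 0 at h4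
        rw [Finset.sum_eq_single i] at h4
        · rw [map_sum] at h4
          refine Eq.trans ?_ h4
          refine Finset.sum_congr rfl fun w _ => ?_
          rw [map_smul, Pi.single_eq_same, smul_eq_mul]
          ring
        · intro j _ hj
          rw [Pi.single_eq_of_ne hj]
          simp
        · intro h5; exact absurd (Finset.mem_univ _) h5
      have h0 : (Fin.cons 0 0 : Fin (t + 1) → K) = 0 := by
        funext j
        refine Fin.cases ?_ (fun j => ?_) j <;> simp
      calc ∑ w, a i w * h (p' w)
          = ∑ w, (a i w * h (Fin.cons 0 (p w)) +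
              a i w * (l w * (h (Fin.cons 1 (p w)) - h (Fin.cons 0 (p w))))) := by
            refine Finset.sum_congr rfl fun w _ => ?_
            rw [hp' w, hdec, mul_add]
        _ = (∑ w, a i w) * h (Fin.cons 0 0) := by
            rw [Finset.sum_add_distrib, h1, h2, add_zero]
        _ = (∑ w, a i w) * h 0 := by rw [h0]

/-- Translation-invariance. -/
def Inv {W Z : Type*} [AddGroup W] (C : Submodule K (W × Z → K)) : Prop :=
  ∀ c ∈ C, ∀ w : W, (fun q : W × Z => c (q.1 + w, q.2)) ∈ C

/-- pull-back of functions -/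
def pb {W W' : Type*} (Z : Type*) (f : W → W') : (W' × Z → K) →ₗ[K] (W × Z → K) :=
  LinearMap.funLeft K K (Prod.map f id)

@[simp] theorem pb_apply {W W' Z : Type*} (f : W → W') (c : W' × Z → K) (q : W × Z) :
    pb Z f c q = c (f q.1, q.2) := rfl

/-- Slices of the invariant words of a quotient are constant words. -/
theorem lemA {W Z : Type*} [AddCommGroup W] [Module K W] [Fintype W] [Fintype Z]
    [DecidableEq Z] (C : Submodule K (W × Z → K)) (hC : Inv C) (t : ℕ)
    (ht : Fintype.card ((Z → K) × Z) * 2 ^ t + t ≤ finrank K W) :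
    ∃ p : W →ₗ[K] (Fin t → K), Function.Surjective p ∧
      ∀ c' : (Fin t → K) × Z → K, pb Z p c' ∈ C →
        ∀ x', (fun q : W × Z => c' (x', q.2)) ∈ C := by
  classical
  let Good : (Z → K) → (W × Z → K) → Prop := fun lam d =>
    (∀ c ∈ C, ∑ q, d q * c q = 0) ∧ ∀ z, ∑ w, d (w, z) = lam z
  let d : (Z → K) → (W × Z → K) := fun lam =>
    if h : ∃ d, Good lam d then Classical.choose h else 0
  obtain ⟨p, hp, hpa⟩ := lemR (fun (i : (Z → K) × Z) w => d i.1 (w, i.2)) t ht
  refine ⟨p, hp, ?_⟩
  intro c' hc' x'
  by_contra hne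
  obtain ⟨f, hf, hle⟩ := Submodule.exists_le_ker_of_notMem hne
  let d₀ : W × Z → K := fun q => f (Pi.single q 1)
  have hf' : ∀ c, f c = ∑ q, d₀ q * c q := by
    intro c
    rw [LinearMap.pi_apply_eq_sum_univ f c]
    refine Finset.sum_congr rfl fun q _ => ?_
    rw [smul_eq_mul, mul_comm]
    congr 2
    funext q'
    by_cases h : q = q'
    · subst h; simp
    · rw [Pi.single_eq_of_ne (Ne.symm h)]; simp [h]
  let lam : Z → K := fun z => ∑ w, d₀ (w, z)
  have hgood : ∃ d, Good lam d := ⟨d₀, fun c hc => by rw [← hf']; exact hle hc, fun z => rfl⟩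
  have hd : Good lam (d lam) := by
    simp only [d, dif_pos hgood]
    exact Classical.choose_spec hgood
  obtain ⟨x, hx⟩ := hp x'
  have h1 := hd.1 _ (hC _ hc' x)
  simp only [pb_apply] at h1
  rw [Fintype.sum_prod_type_right] at h1
  have h2 : ∀ z, ∑ w, d lam (w, z) * c' (p (w + x), z) = lam z * c' (x', z) := by
    intro z
    have h3 := hpa (lam, z) (fun y => c' (y + x', z))
    simp only [zero_add] at h3
    rw [hd.2 z] at h3
    rw [← h3]
    refine Finset.sum_congr rfl fun w _ => ?_
    rw [map_add, hx]
  simp only [h2] at h1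
  apply hf
  rw [hf', Fintype.sum_prod_type_right, ← h1]
  refine Finset.sum_congr rfl fun z _ => ?_
  change ∑ w, d₀ (w, z) * c' (x', z) = (∑ w, d₀ (w, z)) * c' (x', z)
  rw [Finset.sum_mul]

end Run7.h505.TI
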