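import Pool.Agent.Run7.h505.TI.A

/-!
# Actions of 2-groups, and the flag argument
-/

namespace Run7.h505.TI

open Finset Module

theorem natCard_M (M : Type*) [AddCommGroup M] [Module K M] [Finite M] :
    Nat.card M = 2 ^ finrank K M := by
  rw [Module.natCard_eq_pow_finrank (K := K)]
  simp

/-- A 2-group acting on a nonzero finite `F₂`-space has a nonzero fixed vector. -/
theorem exists_fixed {G M : Type*} [Group G] [Finite G] (hG : IsPGroup 2 G) [AddCommGroup M]
    [Module K M] [Finite M] [Nontrivial M] (ρ : Representation K G M) :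
    ∃ v : M, v ≠ 0 ∧ ∀ g, ρ g v = v := by
  let _ : MulAction G M :=
    { smul := fun g v => ρ g v
      one_smul := fun v => by
        change ρ 1 v = v
        rw [map_one]; rfl
      mul_smul := fun g h v => by
        change ρ (g * h) v = ρ g (ρ h v)
        rw [map_mul]; rfl }
  have h2 : 2 ∣ Nat.card M := by
    rw [natCard_M M]
    exact dvd_pow_self 2 (Module.finrank_pos (R := K) (M := M)).ne'
  have : Fact (Nat.Prime 2) := ⟨Nat.prime_two⟩
  have h0 : (0 : M) ∈ MulAction.fixedPoints G M := fun g => map_zero (ρ g)
  obtain ⟨v, hv, hv0⟩ := hG.exists_fixed_point_of_prime_dvd_card_of_fixed_point M h2 h0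
  exact ⟨v, hv0.symm, fun g => hv g⟩

/-- The dimension of a module of a 2-group is at most the order of the group times the dimension
of the space of fixed vectors. -/
theorem finrank_le_fixed {G M : Type*} [Group G] [Finite G] (hG : IsPGroup 2 G) [AddCommGroup M]
    [Module K M] [Finite M] (ρ : Representation K G M) :
    finrank K M ≤ Nat.card G * finrank K ρ.invariants := by
  classical
  obtain ⟨μ, hμ⟩ := LinearMap.exists_leftInverse_of_injective ρ.invariants.subtype
    (by rw [Submodule.ker_subtype])
  have hμ' : ∀ v : ρ.invariants, μ v.1 = v := fun v => LinearMap.congr_fun hμ v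
  let Ψ : M →ₗ[K] (G → ρ.invariants) := LinearMap.pi fun g => μ.comp (ρ g)
  have hker : LinearMap.ker Ψ = ⊥ := by
    by_contra hne
    have hinv : ∀ g, LinearMap.ker Ψ ≤ (LinearMap.ker Ψ).comap (ρ g) := by
      intro g s hs
      rw [Submodule.mem_comap, LinearMap.mem_ker]
      funext h
      have h1 : Ψ s (h * g) = 0 := by rw [LinearMap.mem_ker.1 hs]; rfl
      change μ (ρ (h * g) s) = 0 at h1
      change μ (ρ h (ρ g s)) = 0
      rw [map_mul] at h1
      exact h1
    have : Nontrivial (LinearMap.ker Ψ) := (Submodule.nontrivial_iff_ne_bot).2 hne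
    obtain ⟨v, hv0, hv⟩ := exists_fixed hG (ρ.subrepresentation (LinearMap.ker Ψ) hinv)
    have hvi : v.1 ∈ ρ.invariants := fun g => congrArg Subtype.val (hv g)
    have h1 : Ψ v.1 1 = 0 := by rw [LinearMap.mem_ker.1 v.2]; rfl
    change μ (ρ 1 v.1) = 0 at h1
    rw [map_one] at h1
    have h2 := hμ' ⟨v.1, hvi⟩
    change μ v.1 = _ at h2
    rw [Module.End.one_apply, h2] at h1
    have h3 : v.1 = 0 := congrArg Subtype.val h1
    exact hv0 (Subtype.ext h3)
  have hinj : Function.Injective Ψ := LinearMap.ker_eq_bot.1 hker
  have := Fintype.ofFinite G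
  have h1 := LinearMap.finrank_le_finrank_of_injective hinj
  rw [Module.finrank_pi_fintype, Finset.sum_const, Finset.card_univ, smul_eq_mul,
    ← Nat.card_eq_fintype_card] at h1
  exact h1

section
variable {U X : Type*} [AddCommGroup U] [Module K U] [Fintype U] [Fintype X]

theorem isP (U : Type*) [AddCommGroup U] [Module K U] [Finite U] :
    IsPGroup 2 (Multiplicative U) := by
  apply IsPGroup.of_card (n := finrank K U)
  exact natCard_M U

/-- translation -/
def tr (X : Type*) (u : U) : (U × X → K) →ₗ[K] (U × X → K) :=
  LinearMap.funLeft K K fun q => (q.1 + u, q.2)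

@[simp] theorem tr_apply (u : U) (f : U × X → K) (q : U × X) :
    tr X u f q = f (q.1 + u, q.2) := rfl

/-- the representation by translations -/
def trRep (U X : Type*) [AddCommGroup U] [Module K U] :
    Representation K (Multiplicative U) (U × X → K) where
  toFun u := tr X u.toAdd
  map_one' := by
    ext f q
    simp [tr]
  map_mul' u v := by
    apply LinearMap.ext
    intro f
    funext q
    simp only [tr_apply, toAdd_mul, Module.End.mul_apply]
    rw [add_assoc]

/-- translation-invariance of a space -/
def Stab (F : Submodule K (U × X → K)) : Prop := ∀ f ∈ F, ∀ u, tr X u f ∈ F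

theorem exists_functional (F : Submodule K (U × X → K)) (hF : Stab F) (hne : F ≠ ⊥) :
    ∃ l : (U × X → K) →ₗ[K] K, (∃ f ∈ F, l f = 1) ∧ ∀ f ∈ F, ∀ u, l (tr X u f) = l f := by
  classical
  have hle : ∀ g, F ≤ F.comap (trRep U X g) := fun g f hf => hF f hf g.toAdd
  let ρ := ((trRep U X).subrepresentation F hle).dual
  have : Nontrivial F := (Submodule.nontrivial_iff_ne_bot).2 hne
  have : Finite (Dual K F) := Module.finite_of_finite K
  have : Nontrivial (Dual K F) := by
    obtain ⟨f, hf⟩ := exists_ne (0 : F)
    obtain ⟨l, hl, _⟩ := Submodule.exists_le_ker_of_notMem (p := (⊥ : Submodule K F)) (v := f)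
      (by simpa using hf)
    exact ⟨l, 0, fun h => hl (by rw [h]; rfl)⟩
  obtain ⟨l, hl0, hl⟩ := exists_fixed (isP U) ρ
  obtain ⟨l', hl'⟩ := LinearMap.exists_extend l
  have hll : ∀ f : F, l' f.1 = l f := fun f => LinearMap.congr_fun hl' f
  refine ⟨l', ?_, ?_⟩
  · by_contra hno
    push Not at hno
    apply hl0
    ext f
    rw [← hll f]
    rcases K_cases (l' f.1) with h | h
    · exact h
    · exact absurd h (hno f.1 f.2)
  · intro f hf u
    have h1 := LinearMap.congr_fun (hl (Multiplicative.ofAdd (-u))) ⟨f, hf⟩
    have h2 := hll ⟨tr X u f, hF f hf u⟩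
    have h3 := hll ⟨f, hf⟩
    change l' (tr X u f) = _ at h2
    change l' f = _ at h3
    have h4 : (ρ (Multiplicative.ofAdd (-u)) l) ⟨f, hf⟩ = l ⟨tr X u f, hF f hf u⟩ := by
      have h5 : ((trRep U X).subrepresentation F hle) (Multiplicative.ofAdd (-u))⁻¹ ⟨f, hf⟩ =
          ⟨tr X u f, hF f hf u⟩ := by
        apply Subtype.ext
        change tr X (-(-u)) f = tr X u f
        rw [neg_neg]
      rw [← h5]
      rfl
    rw [h2, h3, ← h4, h1]

/-- convolution by `b` -/
def conv (X : Type*) (b : U → K) : (U × X → K) →ₗ[K] (U × X → K) where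
  toFun f q := ∑ u, b u * f (q.1 + u, q.2)
  map_add' f g := by
    funext q
    simp [mul_add, Finset.sum_add_distrib]
  map_smul' c f := by
    funext q
    simp only [Pi.smul_apply, smul_eq_mul, RingHom.id_apply, Finset.mul_sum]
    refine Finset.sum_congr rfl fun u _ => by ring

theorem conv_apply (b : U → K) (f : U × X → K) (q : U × X) :
    conv X b f q = ∑ u, b u * f (q.1 + u, q.2) := rfl

theorem conv_tr (b : U → K) (f : U × X → K) (u : U) :
    conv X b (tr X u f) = tr X u (conv X b f) := by
  funext q
  simp only [conv_apply, tr_apply]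
  refine Finset.sum_congr rfl fun v _ => ?_
  rw [add_right_comm]

/-- the annihilator of a space -/
def Ann (F : Submodule K (U × X → K)) : Submodule K (U → K) where
  carrier := {b | ∀ f ∈ F, conv X b f = 0}
  zero_mem' := by
    intro f _
    funext q
    simp [conv_apply]
  add_mem' := by
    intro b b' hb hb' f hf
    have h1 := congrFun (hb f hf)
    have h2 := congrFun (hb' f hf)
    funext q
    have h1' := h1 q
    have h2' := h2 q
    simp only [conv_apply, Pi.add_apply, add_mul, Finset.sum_add_distrib, Pi.zero_apply] at *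
    rw [h1', h2', add_zero]
  smul_mem' := by
    intro c b hb f hf
    funext q
    have h1 := congrFun (hb f hf) q
    simp only [conv_apply, Pi.smul_apply, smul_eq_mul, Pi.zero_apply] at *
    rw [Finset.sum_congr rfl fun u _ => mul_assoc c (b u) _, ← Finset.mul_sum, h1, mul_zero]

theorem mem_Ann {F : Submodule K (U × X → K)} {b : U → K} :
    b ∈ Ann F ↔ ∀ f ∈ F, conv X b f = 0 := Iff.rfl

end

section
variable {A U X : Type*} [Fintype A] [AddCommGroup U] [Module K U] [Fintype U] [Fintype X]

/-- the words of `C'` all of whose slices are in `F` -/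
def CF (C' : Submodule K (A × (U × X) → K)) (F : Submodule K (U × X → K)) :
    Submodule K (A × (U × X) → K) where
  carrier := {c | c ∈ C' ∧ ∀ a, (fun q => c (a, q)) ∈ F}
  zero_mem' := ⟨C'.zero_mem, fun _ => F.zero_mem⟩
  add_mem' := fun h1 h2 => ⟨C'.add_mem h1.1 h2.1, fun a => F.add_mem (h1.2 a) (h2.2 a)⟩
  smul_mem' := fun k _ h => ⟨C'.smul_mem k h.1, fun a => F.smul_mem k (h.2 a)⟩

/-- the functions `g` with `g ⊗ 1 ⊗ v` in `C'` -/
def Cv (C' : Submodule K (A × (U × X) → K)) (v : X → K) : Submodule K (A → K) where
  carrier := {g | (fun q : A × (U × X) => g q.1 * v q.2.2) ∈ C'}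
  zero_mem' := by
    have : (fun q : A × (U × X) => (0 : A → K) q.1 * v q.2.2) = 0 := by funext q; simp
    rw [Set.mem_ofPred_eq, this]
    exact C'.zero_mem
  add_mem' := by
    intro g g' h h'
    have : (fun q : A × (U × X) => (g + g') q.1 * v q.2.2) =
        (fun q : A × (U × X) => g q.1 * v q.2.2) + fun q : A × (U × X) => g' q.1 * v q.2.2 := by
      funext q; simp [add_mul]
    rw [Set.mem_ofPred_eq, this]
    exact C'.add_mem h h'
  smul_mem' := by
    intro k g h
    have : (fun q : A × (U × X) => (k • g) q.1 * v q.2.2) =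
        k • (fun q : A × (U × X) => g q.1 * v q.2.2) := by
      funext q; simp [mul_assoc]
    rw [Set.mem_ofPred_eq, this]
    exact C'.smul_mem k h

theorem mem_Cv {C' : Submodule K (A × (U × X) → K)} {v : X → K} {g : A → K} :
    g ∈ Cv C' v ↔ (fun q : A × (U × X) => g q.1 * v q.2.2) ∈ C' := Iff.rfl

theorem flag (C' : Submodule K (A × (U × X) → K))
    (hC' : ∀ c ∈ C', ∀ u, (fun q : A × (U × X) => c (q.1, (q.2.1 + u, q.2.2))) ∈ C')
    (κ : ℕ) (hκ : κ ≤ Fintype.card A)
    (hv : ∀ v : X → K, v ≠ 0 → finrank K (Cv C' v) ≤ κ) (n : ℕ) :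
    ∀ F : Submodule K (U × X → K), Stab F → finrank K F = n →
      ∃ j : ℕ, finrank K (CF C' F) + j * (Fintype.card A - κ) ≤ n * Fintype.card A ∧
        Fintype.card U ≤ finrank K (Ann F) + Fintype.card X * j := by
  classical
  induction n with
  | zero =>
    intro F hF hn
    have hbot : F = ⊥ := Submodule.finrank_eq_zero.1 hn
    refine ⟨0, ?_, ?_⟩
    · have : CF C' F = ⊥ := by
        rw [eq_bot_iff]
        rintro c ⟨_, hc⟩
        rw [Submodule.mem_bot]
        funext q
        have h1 := hc q.1
        rw [hbot, Submodule.mem_bot] at h1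
        exact congrFun h1 q.2
      rw [this]
      simp
    · have : Ann F = ⊤ := by
        rw [eq_top_iff]
        intro b _ f hf
        rw [hbot, Submodule.mem_bot] at hf
        rw [hf, map_zero]
      rw [this]
      simp [Module.finrank_fintype_fun_eq_card]
  | succ n ih =>
    intro F hF hn
    have hne : F ≠ ⊥ := by
      intro h
      rw [h] at hn
      simp at hn
    obtain ⟨l, ⟨f₀, hf₀, hlf₀⟩, hl⟩ := exists_functional F hF hne
    let F₁ := F ⊓ LinearMap.ker l
    have hF₁ : Stab F₁ := by
      rintro f ⟨h1, h2⟩ u
      refine ⟨hF f h1 u, ?_⟩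
      change l (tr X u f) = 0
      rw [hl f h1 u]
      exact h2
    have hn₁ : finrank K F₁ = n := by
      have h1 := LinearMap.finrank_range_add_finrank_ker (l.domRestrict F)
      have h2 : LinearMap.range (l.domRestrict F) = ⊤ := by
        rw [LinearMap.range_eq_top]
        intro k
        refine ⟨k • ⟨f₀, hf₀⟩, ?_⟩
        rw [map_smul]
        change k • l f₀ = k
        rw [hlf₀]; simp
      have h3 : finrank K (LinearMap.ker (l.domRestrict F)) = finrank K F₁ := by
        have h4 : F₁ = (LinearMap.ker (l.domRestrict F)).map F.subtype := by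
          ext f
          constructor
          · rintro ⟨h5, h6⟩
            exact ⟨⟨f, h5⟩, h6, rfl⟩
          · rintro ⟨⟨f', h5⟩, h6, rfl⟩
            exact ⟨h5, h6⟩
        rw [h4]
        exact (Submodule.finrank_map_subtype_eq _ _).symm
      rw [h2, finrank_top, h3, hn] at h1
      simp at h1
      omega
    obtain ⟨j, hj1, hj2⟩ := ih F₁ hF₁ hn₁
    -- the map taking a word to the values of `l` on its slices
    let Λ : (A × (U × X) → K) →ₗ[K] (A → K) :=
      LinearMap.pi fun a => l.comp (LinearMap.funLeft K K fun q => (a, q))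
    have hΛ : ∀ c a, Λ c a = l (fun q => c (a, q)) := fun c a => rfl
    have hCF : finrank K (CF C' F) ≤ finrank K (CF C' F₁) +
        finrank K ((CF C' F).map Λ) := by
      have h1 := LinearMap.finrank_range_add_finrank_ker (Λ.domRestrict (CF C' F))
      have h2 : LinearMap.range (Λ.domRestrict (CF C' F)) = (CF C' F).map Λ := by
        rw [LinearMap.domRestrict, LinearMap.range_comp, Submodule.range_subtype]
      have h3 : finrank K (LinearMap.ker (Λ.domRestrict (CF C' F))) = finrank K (CF C' F₁) := by
        have h4 : CF C' F₁ = (LinearMap.ker (Λ.domRestrict (CF C' F))).map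
            (CF C' F).subtype := by
          ext c
          constructor
          · rintro ⟨h5, h6⟩
            refine ⟨⟨c, h5, fun a => (h6 a).1⟩, ?_, rfl⟩
            change Λ c = 0
            funext a
            exact (h6 a).2
          · rintro ⟨⟨c', h5, h7⟩, h6, rfl⟩
            exact ⟨h5, fun a => ⟨h7 a, congrFun h6 a⟩⟩
        rw [h4]
        exact (Submodule.finrank_map_subtype_eq _ _).symm
      rw [h2, h3] at h1
      omega
    by_cases hAnn : Ann F₁ ≤ Ann F
    · refine ⟨j, ?_, ?_⟩
      · have h1 : finrank K ((CF C' F).map Λ) ≤ Fintype.card A := by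
          refine (Submodule.finrank_le _).trans ?_
          simp [Module.finrank_fintype_fun_eq_card]
        have h2 : (n + 1) * Fintype.card A = n * Fintype.card A + Fintype.card A := by ring
        omega
      · exact hj2.trans (Nat.add_le_add_right (Submodule.finrank_mono hAnn) _)
    · obtain ⟨b, hb1, hb2⟩ := Set.not_subset.1 hAnn
      have hdiff : ∀ f ∈ F, f - l f • f₀ ∈ F₁ := by
        intro f hf
        refine ⟨F.sub_mem hf (F.smul_mem _ hf₀), ?_⟩
        change l (f - l f • f₀) = 0
        rw [map_sub, map_smul, hlf₀, smul_eq_mul, mul_one, sub_self]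
      have hconv : ∀ b ∈ Ann F₁, ∀ f ∈ F, conv X b f = l f • conv X b f₀ := by
        intro b hb f hf
        have h1 := hb _ (hdiff f hf)
        rw [map_sub, map_smul, sub_eq_zero] at h1
        exact h1
      have hconst : ∀ b ∈ Ann F₁, ∀ q, conv X b f₀ q = conv X b f₀ (0, q.2) := by
        intro b hb q
        have h1 := hconv b hb _ (hF f₀ hf₀ q.1)
        rw [hl f₀ hf₀, hlf₀, one_smul, conv_tr] at h1
        have h2 := congrFun h1 (0, q.2)
        rw [tr_apply, zero_add] at h2
        exact h2
      refine ⟨j + 1, ?_, ?_⟩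
      · have hv0 : (fun x => conv X b f₀ (0, x)) ≠ 0 := by
          intro h0
          apply hb2
          intro f hf
          rw [hconv b hb1 f hf]
          have : conv X b f₀ = 0 := by
            funext q
            rw [hconst b hb1 q]
            exact congrFun h0 q.2
          rw [this, smul_zero]
        have h1 : (CF C' F).map Λ ≤ Cv C' (fun x => conv X b f₀ (0, x)) := by
          rintro _ ⟨c, ⟨hc, hcF⟩, rfl⟩
          rw [mem_Cv]
          have h2 : (fun q : A × (U × X) => Λ c q.1 * conv X b f₀ (0, q.2.2)) =
              ∑ u, b u • fun q : A × (U × X) => c (q.1, (q.2.1 + u, q.2.2)) := by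
            funext q
            have h3 := congrFun (hconv b hb1 _ (hcF q.1)) q.2
            rw [Pi.smul_apply, smul_eq_mul, hconst b hb1 q.2] at h3
            rw [hΛ, ← h3, conv_apply, Finset.sum_apply]
            rfl
          rw [h2]
          exact C'.sum_mem fun u _ => C'.smul_mem _ (hC' c hc u)
        have h2 := (Submodule.finrank_mono h1).trans (hv _ hv0)
        have h3 : (n + 1) * Fintype.card A = n * Fintype.card A + Fintype.card A := by ring
        have h4 : (j + 1) * (Fintype.card A - κ) =
          j * (Fintype.card A - κ) + (Fintype.card A - κ) := by ring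
        omega
      · let β : Ann F₁ →ₗ[K] (X → K) :=
          { toFun := fun b x => conv X b.1 f₀ (0, x)
            map_add' := by
              intro b b'
              funext x
              simp [conv_apply, add_mul, Finset.sum_add_distrib]
            map_smul' := by
              intro k b
              funext x
              simp [conv_apply, mul_assoc, Finset.mul_sum] }
        have h1 := LinearMap.finrank_range_add_finrank_ker β
        have h2 : finrank K (LinearMap.range β) ≤ Fintype.card X := by
          refine (Submodule.finrank_le _).trans ?_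
          simp [Module.finrank_fintype_fun_eq_card]
        have h3 : finrank K (LinearMap.ker β) ≤ finrank K (Ann F) := by
          have h4 : (LinearMap.ker β).map (Ann F₁).subtype ≤ Ann F := by
            rintro _ ⟨⟨b', hb'⟩, h5, rfl⟩
            intro f hf
            change conv X b' f = 0
            rw [hconv b' hb' f hf]
            have : conv X b' f₀ = 0 := by
              funext q
              rw [hconst b' hb' q]
              exact congrFun h5 q.2
            rw [this, smul_zero]
          rw [← Submodule.finrank_map_subtype_eq (Ann F₁) (LinearMap.ker β)]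
          exact Submodule.finrank_mono h4
        have h4 : Fintype.card X * (j + 1) = Fintype.card X * j + Fintype.card X := by ring
        omega

end

end Run7.h505.TI
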