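import Pool.Agent.Run7.h505.TI.B

/-!
# Rates of the quotients of invariant codes
-/

namespace Run7.h505.TI

open Finset Module

theorem orth {U : Type*} [Fintype U] (S T : Submodule K (U → K))
    (h : ∀ s ∈ S, ∀ t ∈ T, ∑ u, s u * t u = 0) : finrank K S + finrank K T ≤ Fintype.card U := by
  classical
  let dot : (U → K) →ₗ[K] Dual K (U → K) :=
    { toFun := fun s =>
        { toFun := fun t => ∑ u, s u * t u
          map_add' := fun t t' => by simp [mul_add, Finset.sum_add_distrib]
          map_smul' := fun k t => by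
            simp only [Pi.smul_apply, smul_eq_mul, RingHom.id_apply, Finset.mul_sum]
            exact Finset.sum_congr rfl fun u _ => by ring }
      map_add' := fun s s' => by
        ext t
        simp [add_mul, Finset.sum_add_distrib]
      map_smul' := fun k s => by
        ext t
        simp [mul_assoc, Finset.mul_sum] }
  have hinj : Function.Injective dot := by
    rw [← LinearMap.ker_eq_bot, eq_bot_iff]
    intro s hs
    rw [Submodule.mem_bot]
    funext u
    have h1 := LinearMap.congr_fun (LinearMap.mem_ker.1 hs) (Pi.single u 1)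
    change ∑ v, s v * (Pi.single u 1 : U → K) v = 0 at h1
    rw [Finset.sum_eq_single u] at h1
    · simpa using h1
    · intro v _ hv
      rw [Pi.single_eq_of_ne hv, mul_zero]
    · intro h2; exact absurd (Finset.mem_univ _) h2
  have h1 : S.map dot ≤ T.dualAnnihilator := by
    rintro _ ⟨s, hs, rfl⟩
    rw [Submodule.mem_dualAnnihilator]
    intro t ht
    exact h s hs t ht
  have h2 := Submodule.finrank_mono h1
  have h3 := Subspace.finrank_add_finrank_dualAnnihilator_eq T
  have h4 : finrank K (S.map dot) = finrank K S :=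
    (Submodule.equivMapOfInjective dot hinj S).finrank_eq.symm
  rw [Module.finrank_fintype_fun_eq_card] at h3
  omega

theorem dims {U X : Type*} [AddCommGroup U] [Module K U] [Fintype U] [Fintype X]
    (E : Submodule K (U × X → K)) :
    finrank K E ≤ Fintype.card X * (Fintype.card U - finrank K (Ann E)) := by
  classical
  let px : X → (U × X → K) →ₗ[K] (U → K) := fun x => LinearMap.funLeft K K fun u => (u, x)
  have h1 : ∀ x, finrank K (E.map (px x)) ≤ Fintype.card U - finrank K (Ann E) := by
    intro x
    have := orth (Ann E) (E.map (px x)) (by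
      rintro b hb _ ⟨f, hf, rfl⟩
      have h2 := congrFun (hb f hf) (0, x)
      rw [conv_apply] at h2
      simp only [zero_add] at h2
      exact h2)
    omega
  let Φ : E →ₗ[K] (∀ x, E.map (px x)) :=
    LinearMap.pi fun x => ((px x).restrict (p := E) (q := E.map (px x))
      fun f hf => Submodule.mem_map_of_mem hf)
  have hΦ : Function.Injective Φ := by
    rw [← LinearMap.ker_eq_bot, eq_bot_iff]
    intro f hf
    rw [Submodule.mem_bot]
    apply Subtype.ext
    funext q
    have h2 := congrFun (LinearMap.mem_ker.1 hf) q.2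
    have h3 := congrFun (congrArg Subtype.val h2) q.1
    exact h3
  have h2 := LinearMap.finrank_le_finrank_of_injective hΦ
  rw [Module.finrank_pi_fintype] at h2
  calc finrank K E ≤ ∑ x, finrank K (E.map (px x)) := h2
    _ ≤ ∑ _x : X, (Fintype.card U - finrank K (Ann E)) := Finset.sum_le_sum fun x _ => h1 x
    _ = _ := by rw [Finset.sum_const, Finset.card_univ, smul_eq_mul]

/-- The key inequality. -/
theorem key {A U X : Type*} [Fintype A] [AddCommGroup U] [Module K U] [Fintype U] [Fintype X]
    (C' : Submodule K (A × (U × X) → K))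
    (hC' : ∀ c ∈ C', ∀ u, (fun q : A × (U × X) => c (q.1, (q.2.1 + u, q.2.2))) ∈ C')
    (E : Submodule K (U × X → K)) (hE : Stab E) (hCE : ∀ c ∈ C', ∀ a, (fun q => c (a, q)) ∈ E)
    (κ : ℕ) (hκ : κ ≤ Fintype.card A)
    (hv : ∀ v : X → K, v ≠ 0 → finrank K (Cv C' v) ≤ κ) :
    (Fintype.card X : ℝ) ^ 2 * finrank K C' +
      finrank K E * ((Fintype.card A : ℝ) - κ) ≤
      (Fintype.card X : ℝ) ^ 2 * (finrank K E * Fintype.card A) := by
  obtain ⟨j, h1, h2⟩ := flag C' hC' κ hκ hv (finrank K E) E hE rfl
  have hCF : CF C' E = C' := by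
    apply le_antisymm
    · intro c hc; exact hc.1
    · intro c hc; exact ⟨hc, hCE c hc⟩
  rw [hCF] at h1
  have h3 := dims E
  have h4 : finrank K E ≤ Fintype.card X * (Fintype.card X * j) :=
    h3.trans (Nat.mul_le_mul_left _ (by omega))
  have h1' : (finrank K C' : ℝ) + j * ((Fintype.card A : ℝ) - κ) ≤
      finrank K E * Fintype.card A := by
    have : ((finrank K C' + j * (Fintype.card A - κ) : ℕ) : ℝ) ≤
        ((finrank K E * Fintype.card A : ℕ) : ℝ) := by exact_mod_cast h1
    rw [Nat.cast_add, Nat.cast_mul, Nat.cast_sub hκ, Nat.cast_mul] at this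
    exact this
  have h4' : (finrank K E : ℝ) ≤ (Fintype.card X : ℝ) ^ 2 * j := by
    have : ((finrank K E : ℕ) : ℝ) ≤ ((Fintype.card X * (Fintype.card X * j) : ℕ) : ℝ) := by
      exact_mod_cast h4
    rw [Nat.cast_mul, Nat.cast_mul] at this
    nlinarith
  have h5 : (0 : ℝ) ≤ (Fintype.card A : ℝ) - κ := by
    have : (κ : ℝ) ≤ Fintype.card A := by exact_mod_cast hκ
    linarith
  have h6 := mul_le_mul_of_nonneg_right h4' h5
  have h7 := mul_le_mul_of_nonneg_left h1' (sq_nonneg (Fintype.card X : ℝ))
  nlinarith

/-- Left invariance under a group. -/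
def LInv {G X : Type*} [Group G] (C : Submodule K (G × X → K)) : Prop :=
  ∀ c ∈ C, ∀ g : G, (fun q : G × X => c (g * q.1, q.2)) ∈ C

/-- Rates do not decrease under quotients by 2-groups. -/
theorem mono_group {G H X : Type*} [Group G] [Group H] [Finite G] [Finite H] [Finite X]
    (φ : G →* H) (hφ : Function.Surjective φ) (hker : IsPGroup 2 φ.ker)
    (C : Submodule K (G × X → K)) (hC : LInv C) :
    finrank K C * Nat.card H ≤ finrank K (C.comap (pb X φ)) * Nat.card G := by
  classical
  let ρ : Representation K φ.ker C :=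
    { toFun := fun n =>
        (LinearMap.funLeft K K fun q : G × X => (n.1⁻¹ * q.1, q.2)).restrict
          (fun c hc => hC c hc n.1⁻¹)
      map_one' := by
        apply LinearMap.ext
        intro c
        apply Subtype.ext
        funext q
        change c.1 ((1 : G)⁻¹ * q.1, q.2) = c.1 q
        simp
      map_mul' := fun n n' => by
        apply LinearMap.ext
        intro c
        apply Subtype.ext
        funext q
        change c.1 ((n.1 * n'.1)⁻¹ * q.1, q.2) = c.1 (n'.1⁻¹ * (n.1⁻¹ * q.1), q.2)
        rw [mul_inv_rev, mul_assoc] }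
  have h1 := finrank_le_fixed hker ρ
  have h2 : finrank K ρ.invariants ≤ finrank K (C.comap (pb X φ)) := by
    have h3 : ρ.invariants.map C.subtype ≤ (C.comap (pb X φ)).map (pb X φ) := by
      rintro _ ⟨c, hc, rfl⟩
      choose s hs using hφ
      have hcs : pb X φ (fun q => c.1 (s q.1, q.2)) = c.1 := by
        funext q
        rw [pb_apply]
        change c.1 (s (φ q.1), q.2) = c.1 q
        have hk : q.1 * (s (φ q.1))⁻¹ ∈ φ.ker := by
          rw [MonoidHom.mem_ker, map_mul, map_inv, hs, mul_inv_cancel]
        have h4 := congrFun (congrArg Subtype.val (hc ⟨_, hk⟩)) q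
        change c.1 ((q.1 * (s (φ q.1))⁻¹)⁻¹ * q.1, q.2) = c.1 q at h4
        rw [← h4]
        congr 2
        group
      refine ⟨fun q => c.1 (s q.1, q.2), ?_, hcs⟩
      change pb X φ (fun q => c.1 (s q.1, q.2)) ∈ C
      rw [hcs]; exact c.2
    have h4 := Submodule.finrank_mono h3
    rw [Submodule.finrank_map_subtype_eq] at h4
    exact h4.trans (Submodule.finrank_map_le _ _)
  have h3 : Nat.card φ.ker * Nat.card H = Nat.card G := by
    rw [← Subgroup.card_mul_index φ.ker, Subgroup.index_ker]
    congr 1
    rw [MonoidHom.range_eq_top.2 hφ]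
    exact (Nat.card_congr (Subgroup.topEquiv (G := H)).toEquiv).symm
  calc finrank K C * Nat.card H ≤ (Nat.card φ.ker * finrank K ρ.invariants) * Nat.card H :=
        Nat.mul_le_mul_right _ h1
    _ = finrank K ρ.invariants * (Nat.card φ.ker * Nat.card H) := by ring
    _ = finrank K ρ.invariants * Nat.card G := by rw [h3]
    _ ≤ _ := Nat.mul_le_mul_right _ h2

/-- Rates do not decrease under linear quotients. -/
theorem mono_lin {V V' X : Type*} [AddCommGroup V] [AddCommGroup V'] [Module K V] [Module K V']
    [Finite V] [Finite V'] [Finite X] (π : V →ₗ[K] V') (hπ : Function.Surjective π)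
    (C : Submodule K (V × X → K)) (hC : Inv C) :
    finrank K C * Nat.card V' ≤ finrank K (C.comap (pb X π)) * Nat.card V := by
  have h1 : LInv (G := Multiplicative V) (X := X) C := by
    intro c hc g
    have h2 := hC c hc g.toAdd
    have h3 : (fun q : V × X => c (g.toAdd + q.1, q.2)) =
        fun q : V × X => c (q.1 + g.toAdd, q.2) := by
      funext q; rw [add_comm]
    change (fun q : V × X => c (g.toAdd + q.1, q.2)) ∈ C
    rw [h3]; exact h2
  exact mono_group (G := Multiplicative V) (H := Multiplicative V') (X := X)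
    (AddMonoidHom.toMultiplicative π.toAddMonoidHom) hπ ((isP V).to_subgroup _) C h1

end Run7.h505.TI
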