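import Pool.Agent.Run7.h505.TI.C

/-!
# The density increment and the main theorem
-/

namespace Run7.h505.TI

open Finset Module

/-- the space `K^m` -/
abbrev Sp (m : ℕ) := Fin m → K

theorem card_Sp (m : ℕ) : Nat.card (Sp m) = 2 ^ m := by
  simp [Sp]

theorem fcard_Sp (m : ℕ) : Fintype.card (Sp m) = 2 ^ m := by
  simp [Sp]

/-- the functions `g` for which `g ⊗ v`, pulled back by `π`, is in `C` -/
def Cw {V V' X : Type*} (C : Submodule K (V × X → K)) (π : V → V') (v : X → K) :
    Submodule K (V' → K) where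
  carrier := {g | (fun q : V × X => g (π q.1) * v q.2) ∈ C}
  zero_mem' := by
    have : (fun q : V × X => (0 : V' → K) (π q.1) * v q.2) = 0 := by funext q; simp
    rw [Set.mem_ofPred_eq, this]
    exact C.zero_mem
  add_mem' := by
    intro g g' h h'
    have : (fun q : V × X => (g + g') (π q.1) * v q.2) =
        (fun q : V × X => g (π q.1) * v q.2) + fun q : V × X => g' (π q.1) * v q.2 := by
      funext q; simp [add_mul]
    rw [Set.mem_ofPred_eq, this]
    exact C.add_mem h h'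
  smul_mem' := by
    intro k g h
    have : (fun q : V × X => (k • g) (π q.1) * v q.2) =
        k • (fun q : V × X => g (π q.1) * v q.2) := by
      funext q; simp [mul_assoc]
    rw [Set.mem_ofPred_eq, this]
    exact C.smul_mem k h

theorem mem_Cw {V V' X : Type*} {C : Submodule K (V × X → K)} {π : V → V'} {v : X → K}
    {g : V' → K} : g ∈ Cw C π v ↔ (fun q : V × X => g (π q.1) * v q.2) ∈ C := Iff.rfl

/-- the rate of a code -/
noncomputable def rt {V X : Type*} (C : Submodule K (V × X → K)) : ℝ :=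
  (finrank K C : ℝ) / (Nat.card V * Nat.card X)

theorem step (X : Type*) [Fintype X] [Nonempty X] (u t : ℕ) : ∃ m₀ : ℕ, ∀ m ≥ m₀,
    ∀ C : Submodule K (Sp m × X → K), Inv C →
      ∃ (πU : Sp m →ₗ[K] Sp u) (πA : Sp m →ₗ[K] Sp t) (v : X → K),
        Function.Surjective πU ∧ Function.Surjective πA ∧ v ≠ 0 ∧
        (Fintype.card X : ℝ) ^ 2 * rt C +
          rt (C.comap (pb X πU)) * (1 - (finrank K (Cw C πA v) : ℝ) / 2 ^ t) ≤
          (Fintype.card X : ℝ) ^ 2 * rt (C.comap (pb X πU)) := by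
  classical
  refine ⟨u + (Fintype.card ((Sp u × X → K) × (Sp u × X)) * 2 ^ t + t), ?_⟩
  intro m hm C hC
  obtain ⟨w, hw⟩ := Nat.exists_eq_add_of_le hm
  obtain ⟨w, hw', hw''⟩ : ∃ w, m = w + u ∧
      Fintype.card ((Sp u × X → K) × (Sp u × X)) * 2 ^ t + t ≤ w :=
    ⟨Fintype.card ((Sp u × X → K) × (Sp u × X)) * 2 ^ t + t + w, by omega, by omega⟩
  have he : finrank K (Sp m) = finrank K (Sp w × Sp u) := by
    rw [Module.finrank_prod, Module.finrank_fintype_fun_eq_card,
      Module.finrank_fintype_fun_eq_card, Module.finrank_fintype_fun_eq_card]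
    simpa using hw'
  let e : Sp m ≃ₗ[K] (Sp w × Sp u) := LinearEquiv.ofFinrankEq _ _ he
  -- the code in product form
  let L : (Sp w × (Sp u × X) → K) →ₗ[K] (Sp m × X → K) :=
    LinearMap.funLeft K K fun q => ((e q.1).1, ((e q.1).2, q.2))
  let C₁ : Submodule K (Sp w × (Sp u × X) → K) := C.comap L
  have hC₁ : ∀ c ∈ C₁, ∀ (x : Sp w) (y : Sp u),
      (fun q : Sp w × (Sp u × X) => c (q.1 + x, (q.2.1 + y, q.2.2))) ∈ C₁ := by
    intro c hc x y
    have h1 := hC _ hc (e.symm (x, y))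
    have h2 : L (fun q : Sp w × (Sp u × X) => c (q.1 + x, (q.2.1 + y, q.2.2))) =
        fun q : Sp m × X => L c (q.1 + e.symm (x, y), q.2) := by
      funext q
      change c ((e q.1).1 + x, ((e q.1).2 + y, q.2)) =
        c ((e (q.1 + e.symm (x, y))).1, ((e (q.1 + e.symm (x, y))).2, q.2))
      rw [map_add, LinearEquiv.apply_symm_apply]
      rfl
    change L _ ∈ C
    rw [h2]; exact h1
  have hC₁' : Inv C₁ := by
    intro c hc x
    have h1 := hC₁ c hc x 0
    simpa using h1
  obtain ⟨p, hp, hslice⟩ := lemA C₁ hC₁' t (by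
    rw [Module.finrank_fintype_fun_eq_card, Fintype.card_fin]; exact hw'')
  let πU : Sp m →ₗ[K] Sp u := (LinearMap.snd K (Sp w) (Sp u)).comp e.toLinearMap
  let πA : Sp m →ₗ[K] Sp t := p.comp ((LinearMap.fst K (Sp w) (Sp u)).comp e.toLinearMap)
  have hπU : Function.Surjective πU := fun y => ⟨e.symm (0, y), by simp [πU]⟩
  have hπA : Function.Surjective πA := by
    intro y
    obtain ⟨x, hx⟩ := hp y
    exact ⟨e.symm (x, 0), by simp [πA, hx]⟩
  let πB : Sp m →ₗ[K] (Sp t × Sp u) := πA.prod πU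
  have hπB : Function.Surjective πB := by
    rintro ⟨y, z⟩
    obtain ⟨x, hx⟩ := hp y
    exact ⟨e.symm (x, z), by simp [πB, πA, πU, hx]⟩
  let C' : Submodule K (Sp t × (Sp u × X) → K) := C₁.comap (pb (Sp u × X) p)
  have hC' : ∀ c ∈ C', ∀ y, (fun q : Sp t × (Sp u × X) => c (q.1, (q.2.1 + y, q.2.2))) ∈ C' := by
    intro c hc y
    have h1 := hC₁ _ hc 0 y
    change pb (Sp u × X) p _ ∈ C₁
    convert h1 using 1
    funext q
    simp
  let E : Submodule K (Sp u × X → K) := C.comap (pb X πU)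
  have hE : Stab E := by
    intro f hf y
    have h1 := hC _ hf (e.symm (0, y))
    change pb X πU _ ∈ C
    convert h1 using 1
    funext q
    simp [πU]
  have hCE : ∀ c ∈ C', ∀ a, (fun q => c (a, q)) ∈ E := by
    intro c hc a
    exact hslice c hc a
  -- choose the best vector
  obtain ⟨v, hv, hmax⟩ : ∃ v : X → K, v ≠ 0 ∧ ∀ v' : X → K, v' ≠ 0 →
      finrank K (Cw C πA v') ≤ finrank K (Cw C πA v) := by
    have hne : (Finset.univ.filter fun v : X → K => v ≠ 0).Nonempty := by
      refine ⟨fun _ => 1, ?_⟩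
      rw [Finset.mem_filter]
      refine ⟨Finset.mem_univ _, fun h => ?_⟩
      have := congrFun h (Classical.arbitrary X)
      exact one_ne_zero this
    obtain ⟨v, hv, hmax⟩ := Finset.exists_max_image _ (fun v => finrank K (Cw C πA v)) hne
    rw [Finset.mem_filter] at hv
    exact ⟨v, hv.2, fun v' hv' => hmax v' (by rw [Finset.mem_filter]; exact ⟨Finset.mem_univ _, hv'⟩)⟩
  refine ⟨πU, πA, v, hπU, hπA, hv, ?_⟩
  have hCv : ∀ v : X → K, Cv C' v = Cw C πA v := by
    intro v
    rfl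
  have hκ : finrank K (Cw C πA v) ≤ Fintype.card (Sp t) := by
    refine (Submodule.finrank_le _).trans ?_
    rw [Module.finrank_fintype_fun_eq_card]
  have hkey := key C' hC' E hE hCE (finrank K (Cw C πA v)) hκ
    (fun v' hv' => by rw [hCv]; exact hmax v' hv')
  have hmono := mono_lin πB hπB C hC
  -- the two forms of `C'`
  have hdim : finrank K (C.comap (pb X πB)) = finrank K C' := by
    let R : ((Sp t × Sp u) × X → K) ≃ₗ[K] (Sp t × (Sp u × X) → K) :=
      LinearEquiv.funCongrLeft K K (Equiv.prodAssoc (Sp t) (Sp u) X).symm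
    have h1 : C' = (C.comap (pb X πB)).map R.toLinearMap := by
      ext c
      constructor
      · intro hc
        refine ⟨R.symm c, ?_, by simp⟩
        exact hc
      · rintro ⟨c', hc', rfl⟩
        exact hc'
    rw [h1]
    exact (LinearEquiv.finrank_map_eq R _).symm
  rw [hdim] at hmono
  have hcB : Nat.card (Sp t × Sp u) = 2 ^ t * 2 ^ u := by
    rw [Nat.card_prod, card_Sp, card_Sp]
  rw [hcB, card_Sp] at hmono
  rw [fcard_Sp] at hkey
  have hmono' : (finrank K C : ℝ) * (2 ^ t * 2 ^ u) ≤ finrank K C' * 2 ^ m := by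
    exact_mod_cast hmono
  have hX : (0 : ℝ) < Fintype.card X := by exact_mod_cast Fintype.card_pos
  have h2t : (0 : ℝ) < 2 ^ t := by positivity
  have h2u : (0 : ℝ) < 2 ^ u := by positivity
  have h2m : (0 : ℝ) < 2 ^ m := by positivity
  unfold rt
  rw [card_Sp, card_Sp, Nat.card_eq_fintype_card]
  push_cast at hkey ⊢
  set l : ℝ := (Fintype.card X : ℝ) with hl
  set a : ℝ := (finrank K C : ℝ) with ha
  set s : ℝ := (finrank K E : ℝ) with hs
  set c : ℝ := (finrank K C' : ℝ) with hc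
  set r : ℝ := (finrank K (Cw C πA v) : ℝ) with hr
  have h1 : a / (2 ^ m * l) ≤ c / (2 ^ t * 2 ^ u * l) := by
    rw [div_le_div_iff₀ (by positivity) (by positivity)]
    nlinarith
  have h2 : l ^ 2 * (c / (2 ^ t * 2 ^ u * l)) + s / (2 ^ u * l) * (1 - r / 2 ^ t) ≤
      l ^ 2 * (s / (2 ^ u * l)) := by
    have h3 : l ^ 2 * (c / (2 ^ t * 2 ^ u * l)) + s / (2 ^ u * l) * (1 - r / 2 ^ t) =
        (l ^ 2 * c + s * (2 ^ t - r)) / (2 ^ t * 2 ^ u * l) := by
      field_simp
    have h4 : l ^ 2 * (s / (2 ^ u * l)) = (l ^ 2 * (s * 2 ^ t)) / (2 ^ t * 2 ^ u * l) := by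
      field_simp
    rw [h3, h4]
    exact div_le_div_of_nonneg_right hkey (by positivity)
  have h5 : l ^ 2 * (a / (2 ^ m * l)) ≤ l ^ 2 * (c / (2 ^ t * 2 ^ u * l)) :=
    mul_le_mul_of_nonneg_left h1 (sq_nonneg _)
  linarith

end Run7.h505.TI
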