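import Pool.Agent.Run7.h505.TI.D

/-!
# Translation-invariant codes of positive rate
-/

namespace Run7.h505.TI

open Finset Module

/-! ### General facts -/

theorem rt_le_one {m : ℕ} {X : Type*} [Fintype X] (C : Submodule K (Sp m × X → K)) : rt C ≤ 1 := by
  classical
  unfold rt
  rw [card_Sp, Nat.card_eq_fintype_card]
  have h1 : finrank K C ≤ 2 ^ m * Fintype.card X := by
    refine (Submodule.finrank_le _).trans ?_
    rw [Module.finrank_fintype_fun_eq_card, Fintype.card_prod, fcard_Sp]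
  apply div_le_one_of_le₀
  · push_cast
    exact_mod_cast h1
  · positivity

theorem rt_nonneg {V X : Type*} (C : Submodule K (V × X → K)) : 0 ≤ rt C := by
  unfold rt; positivity

theorem rt_mono {m t : ℕ} {X : Type*} [Fintype X] [Nonempty X] (π : Sp m →ₗ[K] Sp t)
    (hπ : Function.Surjective π) (C : Submodule K (Sp m × X → K)) (hC : Inv C) :
    rt C ≤ rt (C.comap (pb X π)) := by
  have h1 := mono_lin π hπ C hC
  rw [card_Sp, card_Sp] at h1
  have h1' : (finrank K C : ℝ) * 2 ^ t ≤ finrank K (C.comap (pb X π)) * 2 ^ m := by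
    exact_mod_cast h1
  unfold rt
  rw [card_Sp, card_Sp, Nat.card_eq_fintype_card]
  have hX : (0 : ℝ) < Fintype.card X := by exact_mod_cast Fintype.card_pos
  push_cast
  rw [div_le_div_iff₀ (by positivity) (by positivity)]
  nlinarith

theorem inv_comap {m t : ℕ} {X : Type*} (π : Sp m →ₗ[K] Sp t)
    (hπ : Function.Surjective π) (C : Submodule K (Sp m × X → K)) (hC : Inv C) :
    Inv (C.comap (pb X π)) := by
  intro c hc w
  obtain ⟨x, hx⟩ := hπ w
  have h1 := hC _ hc x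
  change pb X π _ ∈ C
  convert h1 using 1
  funext q
  simp [hx]

theorem exists_proj {m t : ℕ} (h : t ≤ m) : ∃ π : Sp m →ₗ[K] Sp t, Function.Surjective π := by
  refine ⟨LinearMap.funLeft K K (Fin.castLE h), ?_⟩
  exact LinearMap.funLeft_surjective_of_injective K K _ (Fin.castLE_injective h)

theorem pb_comp {V V' V'' X : Type*} (f : V → V') (g : V' → V'') (C : Submodule K (V × X → K)) :
    (C.comap (pb X f)).comap (pb X g) = C.comap (pb X (g ∘ f)) := rfl

/-! ### One orbit -/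

/-- The rate of a translation-invariant space of functions. -/
noncomputable def rj {m : ℕ} (J : Submodule K (Sp m → K)) : ℝ := (finrank K J : ℝ) / 2 ^ m

/-- Translation-invariance for functions on `K^m`. -/
def InvJ {m : ℕ} (J : Submodule K (Sp m → K)) : Prop := ∀ g ∈ J, ∀ w, (fun y => g (y + w)) ∈ J

/-- The quotient of a translation-invariant space. -/
def JP {m t : ℕ} (J : Submodule K (Sp m → K)) (π : Sp m → Sp t) : Submodule K (Sp t → K) :=
  J.comap (LinearMap.funLeft K K π)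

theorem mem_JP {m t : ℕ} {J : Submodule K (Sp m → K)} {π : Sp m → Sp t} {g : Sp t → K} :
    g ∈ JP J π ↔ (fun y => g (π y)) ∈ J := Iff.rfl

/-- the same with one point -/
def J1 {m : ℕ} (J : Submodule K (Sp m → K)) : Submodule K (Sp m × Unit → K) :=
  J.comap (LinearMap.funLeft K K fun y => (y, ()))

theorem finrank_J1 {m : ℕ} (J : Submodule K (Sp m → K)) : finrank K (J1 J) = finrank K J := by
  let R : (Sp m → K) ≃ₗ[K] (Sp m × Unit → K) :=
    LinearEquiv.funCongrLeft K K (Equiv.prodPUnit (Sp m))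
  have h1 : J1 J = J.map R.toLinearMap := by
    ext c
    constructor
    · intro hc
      exact ⟨_, hc, rfl⟩
    · rintro ⟨c', hc', rfl⟩
      exact hc'
  rw [h1]
  exact LinearEquiv.finrank_map_eq R _

theorem rt_J1 {m : ℕ} (J : Submodule K (Sp m → K)) : rt (J1 J) = rj J := by
  unfold rt rj
  rw [finrank_J1, card_Sp]
  simp

theorem inv_J1 {m : ℕ} (J : Submodule K (Sp m → K)) (hJ : InvJ J) : Inv (J1 J) := by
  intro c hc w
  exact hJ _ hc w

theorem rj_le_one {m : ℕ} (J : Submodule K (Sp m → K)) : rj J ≤ 1 := by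
  rw [← rt_J1]; exact rt_le_one _

theorem rj_nonneg {m : ℕ} (J : Submodule K (Sp m → K)) : 0 ≤ rj J := by
  unfold rj; positivity

theorem rj_mono {m t : ℕ} (π : Sp m →ₗ[K] Sp t) (hπ : Function.Surjective π)
    (J : Submodule K (Sp m → K)) (hJ : InvJ J) : rj J ≤ rj (JP J π) := by
  rw [← rt_J1, ← rt_J1 (JP J π)]
  exact rt_mono π hπ (J1 J) (inv_J1 J hJ)

theorem inv_JP {m t : ℕ} (π : Sp m →ₗ[K] Sp t) (hπ : Function.Surjective π)
    (J : Submodule K (Sp m → K)) (hJ : InvJ J) : InvJ (JP J π) := by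
  intro g hg w
  obtain ⟨x, hx⟩ := hπ w
  have h1 := hJ _ hg x
  rw [mem_JP]
  convert h1 using 1
  funext y
  change g (π y + w) = g (π (y + x))
  rw [map_add, hx]

/-- Every large quotient step: the rate is at most the product of the rates of two quotients. -/
theorem stepJ (u t : ℕ) : ∃ m₀ : ℕ, ∀ m ≥ m₀, ∀ J : Submodule K (Sp m → K), InvJ J →
    ∃ (πU : Sp m →ₗ[K] Sp u) (πA : Sp m →ₗ[K] Sp t), Function.Surjective πU ∧
      Function.Surjective πA ∧ rj J ≤ rj (JP J πU) * rj (JP J πA) := by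
  obtain ⟨m₀, h⟩ := step Unit u t
  refine ⟨m₀, fun m hm J hJ => ?_⟩
  obtain ⟨πU, πA, v, h1, h2, h3, h4⟩ := h m hm (J1 J) (inv_J1 J hJ)
  refine ⟨πU, πA, h1, h2, ?_⟩
  have hv : v () = 1 := by
    apply K_ne
    intro h0
    apply h3
    funext x
    exact h0
  have hCw : Cw (J1 J) πA v = JP J πA := by
    ext g
    rw [mem_Cw, mem_JP]
    change (fun y => g (πA y) * v ()) ∈ J ↔ _
    simp only [hv, mul_one]
  have hcomap : (J1 J).comap (pb Unit πU) = J1 (JP J πU) := rfl
  rw [hCw, hcomap, rt_J1, rt_J1] at h4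
  simp only [Fintype.card_unit, Nat.cast_one, one_pow, one_mul] at h4
  have h5 : rj (JP J πA) = (finrank K (JP J πA) : ℝ) / 2 ^ t := rfl
  rw [← h5] at h4
  linarith

/-- Every translation-invariant space of large dimension `m` and rate at least `ρ` has quotients
with rate at least `r`. -/
def PR (ρ r : ℝ) : Prop := ∀ t : ℕ, ∃ m₀ : ℕ, ∀ m ≥ m₀, ∀ J : Submodule K (Sp m → K), InvJ J →
  ρ ≤ rj J → ∃ π : Sp m →ₗ[K] Sp t, Function.Surjective π ∧ r ≤ rj (JP J π)

theorem PR_self (ρ : ℝ) : PR ρ ρ := by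
  intro t
  refine ⟨t, fun m hm J hJ hρ => ?_⟩
  obtain ⟨π, hπ⟩ := exists_proj hm
  exact ⟨π, hπ, hρ.trans (rj_mono π hπ J hJ)⟩

theorem PR_sqrt (ρ : ℝ) (hρ : 0 ≤ ρ) : PR ρ (√ρ) := by
  intro t
  obtain ⟨m₀, h⟩ := stepJ t t
  refine ⟨m₀, fun m hm J hJ hr => ?_⟩
  obtain ⟨πU, πA, h1, h2, h3⟩ := h m hm J hJ
  by_cases h4 : √ρ ≤ rj (JP J πU)
  · exact ⟨πU, h1, h4⟩
  · by_cases h5 : √ρ ≤ rj (JP J πA)
    · exact ⟨πA, h2, h5⟩
    · exfalso
      push Not at h4 h5
      have h6 := Real.mul_self_sqrt hρ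
      have h7 := rj_nonneg (JP J πU)
      have h8 := rj_nonneg (JP J πA)
      nlinarith

theorem PR_trans {ρ r r' : ℝ} (h1 : PR ρ r) (h2 : PR r r') : PR ρ r' := by
  intro t
  obtain ⟨m₁, h3⟩ := h2 t
  obtain ⟨m₀, h4⟩ := h1 m₁
  refine ⟨m₀, fun m hm J hJ hr => ?_⟩
  obtain ⟨π, hπ, h5⟩ := h4 m hm J hJ hr
  obtain ⟨π', hπ', h6⟩ := h3 m₁ le_rfl (JP J π) (inv_JP π hπ J hJ) h5
  exact ⟨π'.comp π, hπ'.comp hπ, h6⟩

theorem PR_pow (ρ : ℝ) (hρ : 0 < ρ) (k : ℕ) : PR ρ (ρ ^ ((1 / 2 : ℝ) ^ k)) := by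
  induction k with
  | zero => simpa using PR_self ρ
  | succ k ih =>
    have h1 := PR_sqrt (ρ ^ ((1 / 2 : ℝ) ^ k)) (Real.rpow_nonneg hρ.le _)
    have h2 : √(ρ ^ ((1 / 2 : ℝ) ^ k)) = ρ ^ ((1 / 2 : ℝ) ^ (k + 1)) := by
      rw [Real.sqrt_eq_rpow, ← Real.rpow_mul hρ.le, pow_succ]
    rw [h2] at h1
    exact PR_trans ih h1

/-- Translation-invariant spaces of positive rate contain all functions of some quotient. -/
theorem main_one (ρ : ℝ) (hρ : 0 < ρ) (t : ℕ) : ∃ m₀ : ℕ, ∀ m ≥ m₀,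
    ∀ J : Submodule K (Sp m → K), InvJ J → ρ ≤ rj J →
      ∃ π : Sp m →ₗ[K] Sp t, Function.Surjective π ∧ ∀ g, g ∈ JP J π := by
  have hlim : Filter.Tendsto (fun k : ℕ => ρ ^ ((1 / 2 : ℝ) ^ k)) Filter.atTop (nhds (ρ ^ (0 : ℝ))) :=
    ((Real.continuous_const_rpow hρ.ne').tendsto 0).comp
      (tendsto_pow_atTop_nhds_zero_of_lt_one (by norm_num) (by norm_num))
  rw [Real.rpow_zero] at hlim
  have h1 : (1 : ℝ) - 1 / 2 ^ t < 1 := by
    have : (0 : ℝ) < 1 / 2 ^ t := by positivity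
    linarith
  obtain ⟨k, hk⟩ := (hlim.eventually (lt_mem_nhds h1)).exists
  obtain ⟨m₀, h2⟩ := PR_pow ρ hρ k t
  refine ⟨m₀, fun m hm J hJ hr => ?_⟩
  obtain ⟨π, hπ, h3⟩ := h2 m hm J hJ hr
  refine ⟨π, hπ, ?_⟩
  have h4 : (1 : ℝ) - 1 / 2 ^ t < (finrank K (JP J π) : ℝ) / 2 ^ t := hk.trans_le h3
  have h5 : (0 : ℝ) < 2 ^ t := by positivity
  rw [lt_div_iff₀ h5, sub_mul, one_div, inv_mul_cancel₀ h5.ne', one_mul] at h4
  have h6 : (2 ^ t : ℝ) < finrank K (JP J π) + 1 := by linarith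
  have h7 : 2 ^ t < finrank K (JP J π) + 1 := by exact_mod_cast h6
  have h8 : finrank K (Sp t → K) = 2 ^ t := by
    rw [Module.finrank_fintype_fun_eq_card, fcard_Sp]
  have h9 : JP J π = ⊤ := by
    apply Submodule.eq_top_of_finrank_eq
    have := Submodule.finrank_le (JP J π)
    omega
  intro g
  rw [h9]
  exact Submodule.mem_top

/-! ### Several orbits -/

theorem main_several (X : Type*) [Fintype X] [Nonempty X] (k : ℕ) : ∀ t : ℕ, ∃ m₀ : ℕ, ∀ m ≥ m₀,
    ∀ C : Submodule K (Sp m × X → K), Inv C →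
      (1 + 1 / (2 * (Fintype.card X : ℝ) ^ 2)) ^ (-(k : ℤ)) ≤ rt C →
      ∃ (π : Sp m →ₗ[K] Sp t) (v : X → K), Function.Surjective π ∧ v ≠ 0 ∧
        ∀ g, g ∈ Cw C π v := by
  classical
  have hX : (0 : ℝ) < Fintype.card X := by exact_mod_cast Fintype.card_pos
  set B : ℝ := 1 + 1 / (2 * (Fintype.card X : ℝ) ^ 2) with hB
  have hB0 : 0 < B := by positivity
  induction k with
  | zero =>
    intro t
    refine ⟨t, fun m hm C hC h => ?_⟩
    obtain ⟨π, hπ⟩ := exists_proj hm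
    refine ⟨π, fun _ => 1, hπ, ?_, ?_⟩
    · intro h0
      exact one_ne_zero (congrFun h0 (Classical.arbitrary X))
    · intro g
      have h1 : C = ⊤ := by
        apply Submodule.eq_top_of_finrank_eq
        apply le_antisymm (Submodule.finrank_le _)
        rw [Module.finrank_fintype_fun_eq_card, Fintype.card_prod, fcard_Sp]
        have h2 : (1 : ℝ) ≤ (finrank K C : ℝ) / (2 ^ m * Fintype.card X) := by
          have h3 := h
          simp only [Nat.cast_zero, neg_zero, zpow_zero] at h3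
          unfold rt at h3
          rw [card_Sp, Nat.card_eq_fintype_card] at h3
          exact_mod_cast h3
        rw [le_div_iff₀ (by positivity), one_mul] at h2
        exact_mod_cast h2
      rw [h1]
      exact Submodule.mem_top
  | succ k ih =>
    intro t
    obtain ⟨t₁, ht₁⟩ := main_one (1 / 2) (by norm_num) t
    obtain ⟨u, hu⟩ := ih t
    obtain ⟨m₀, hm₀⟩ := step X u t₁
    refine ⟨m₀, fun m hm C hC hr => ?_⟩
    obtain ⟨πU, πA, v, h1, h2, h3, h4⟩ := hm₀ m hm C hC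
    have hmono := rt_mono πU h1 C hC
    by_cases h5 : B ^ (-(k : ℤ)) ≤ rt (C.comap (pb X πU))
    · obtain ⟨π, v', h6, h7, h8⟩ := hu u le_rfl _ (inv_comap πU h1 C hC) h5
      exact ⟨π.comp πU, v', h6.comp h1, h7, h8⟩
    · push Not at h5
      have hr' : B ^ (-(k : ℤ)) ≤ rt C * B := by
        have : B ^ (-((k + 1 : ℕ) : ℤ)) * B = B ^ (-(k : ℤ)) := by
          rw [← zpow_add_one₀ hB0.ne']
          congr 1
          push_cast; ring
        rw [← this]
        exact mul_le_mul_of_nonneg_right hr hB0.le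
      have hC0 : 0 < rt C := lt_of_lt_of_le (zpow_pos hB0 _) hr
      -- the rate of the component is at least one half
      have h6 : (1 : ℝ) / 2 ≤ (finrank K (Cw C πA v) : ℝ) / 2 ^ t₁ := by
        set r : ℝ := (finrank K (Cw C πA v) : ℝ) / 2 ^ t₁ with hrdef
        set σ : ℝ := rt (C.comap (pb X πU)) with hσ
        set a : ℝ := rt C with ha
        set l : ℝ := (Fintype.card X : ℝ) with hl
        have h7 : σ < a * B := h5.trans_le hr'
        have h8 : a * B = a + a / (2 * l ^ 2) := by rw [hB]; ring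
        have h9 : l ^ 2 * (a / (2 * l ^ 2)) = a / 2 := by field_simp
        have h10 : l ^ 2 * σ < l ^ 2 * a + a / 2 := by
          have := mul_lt_mul_of_pos_left (h7.trans_eq h8) (by positivity : (0 : ℝ) < l ^ 2)
          rw [mul_add, h9] at this
          exact this
        have h11 : σ * (1 - r) < a / 2 := by linarith
        have h12 : 0 < σ := hC0.trans_le hmono
        by_contra h13
        push Not at h13
        nlinarith
      have hJ : InvJ (Cw C πA v) := by
        intro g hg w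
        obtain ⟨x, hx⟩ := h2 w
        have h7 := hC _ hg x
        rw [mem_Cw]
        convert h7 using 1
        funext q
        simp [hx]
      obtain ⟨π, h7, h8⟩ := ht₁ t₁ le_rfl (Cw C πA v) hJ h6
      refine ⟨π.comp πA, v, h7.comp h2, h3, ?_⟩
      intro g
      exact h8 g

/-- **Main theorem, elementary abelian form.** -/
theorem main_K (l : ℕ) (ρ : ℝ) (hρ : 0 < ρ) (t : ℕ) : ∃ m₀ : ℕ, ∀ m ≥ m₀,
    ∀ (X : Type) [Fintype X] [Nonempty X], Fintype.card X ≤ l →
    ∀ C : Submodule K (Sp m × X → K), Inv C → ρ ≤ rt C →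
      ∃ (π : Sp m →ₗ[K] Sp t) (v : X → K), Function.Surjective π ∧ v ≠ 0 ∧
        ∀ g, g ∈ Cw C π v := by
  classical
  -- it is enough to treat `X = Fin (n + 1)`
  have key : ∀ n : ℕ, ∃ m₀ : ℕ, ∀ m ≥ m₀, ∀ C : Submodule K (Sp m × Fin (n + 1) → K), Inv C →
      ρ ≤ rt C → ∃ (π : Sp m →ₗ[K] Sp t) (v : Fin (n + 1) → K), Function.Surjective π ∧ v ≠ 0 ∧
        ∀ g, g ∈ Cw C π v := by
    intro n
    set B : ℝ := 1 + 1 / (2 * (Fintype.card (Fin (n + 1)) : ℝ) ^ 2) with hB
    have hB1 : 1 < B := by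
      rw [hB]
      have : (0 : ℝ) < 1 / (2 * (Fintype.card (Fin (n + 1)) : ℝ) ^ 2) := by
        rw [Fintype.card_fin]; positivity
      linarith
    obtain ⟨k, hk⟩ := pow_unbounded_of_one_lt (1 / ρ) hB1
    obtain ⟨m₀, hm₀⟩ := main_several (Fin (n + 1)) k t
    refine ⟨m₀, fun m hm C hC hr => hm₀ m hm C hC (le_trans ?_ hr)⟩
    rw [← hB, zpow_neg, zpow_natCast]
    rw [inv_le_comm₀ (by positivity) hρ, ← one_div]
    exact hk.le
  choose m₀ hm₀ using key
  refine ⟨∑ n ∈ Finset.range (l + 1), m₀ n, ?_⟩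
  intro m hm X _ _ hX C hC hr
  obtain ⟨n, hn⟩ : ∃ n, Fintype.card X = n + 1 := ⟨Fintype.card X - 1, by
    have := Fintype.card_pos (α := X); omega⟩
  have hmn : m₀ n ≤ m := by
    refine le_trans ?_ hm
    exact Finset.single_le_sum (f := m₀) (fun _ _ => Nat.zero_le _)
      (Finset.mem_range.2 (by omega))
  let ex : X ≃ Fin (n + 1) := Fintype.equivFinOfCardEq hn
  let R : (Sp m × Fin (n + 1) → K) ≃ₗ[K] (Sp m × X → K) :=
    LinearEquiv.funCongrLeft K K (Equiv.prodCongr (Equiv.refl _) ex)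
  let C₁ : Submodule K (Sp m × Fin (n + 1) → K) := C.comap R.toLinearMap
  have hfr : finrank K C₁ = finrank K C := by
    have h1 : C = C₁.map R.toLinearMap := by
      ext c
      constructor
      · intro hc
        exact ⟨R.symm c, by simpa [C₁] using hc, by simp⟩
      · rintro ⟨c', hc', rfl⟩
        exact hc'
    conv_rhs => rw [h1]
    exact (LinearEquiv.finrank_map_eq R _).symm
  have hrt : rt C₁ = rt C := by
    unfold rt
    rw [hfr, Nat.card_congr ex]
  obtain ⟨π, v, h1, h2, h3⟩ := hm₀ n m hmn C₁ (fun c hc w => hC _ hc w) (hrt ▸ hr)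
  refine ⟨π, fun x => v (ex x), h1, ?_, ?_⟩
  · intro h0
    apply h2
    funext i
    have := congrFun h0 (ex.symm i)
    simpa using this
  · intro g
    exact h3 g

/-- **Main theorem.** Let `C` be a binary linear code whose coordinates are `G × X` for a finite
2-group `G` acting on the first coordinate. If `G` has a quotient `(ℤ/2)^d` with `d` large, then a
code of rate at least `ρ` contains all functions of a quotient `(ℤ/2)^t` times a nonzero
vector. -/
theorem main (l : ℕ) (ρ : ℝ) (hρ : 0 < ρ) (t : ℕ) : ∃ d₀ : ℕ, ∀ d ≥ d₀,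
    ∀ (G : Type) [Group G] [Finite G], IsPGroup 2 G →
    ∀ φ : G →* Multiplicative (Sp d), Function.Surjective φ →
    ∀ (X : Type) [Fintype X] [Nonempty X], Fintype.card X ≤ l →
    ∀ C : Submodule K (G × X → K), LInv C →
      ρ * (Nat.card G * Nat.card X) ≤ finrank K C →
      ∃ (ψ : G →* Multiplicative (Sp t)) (v : X → K), Function.Surjective ψ ∧ v ≠ 0 ∧
        ∀ g : Multiplicative (Sp t) → K, (fun q : G × X => g (ψ q.1) * v q.2) ∈ C := by
  obtain ⟨d₀, hd₀⟩ := main_K l ρ hρ t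
  refine ⟨d₀, ?_⟩
  intro d hd G _ _ hG φ hφ X _ _ hX C hC hr
  have h1 := mono_group φ hφ (hG.to_subgroup _) C hC
  let C₁ : Submodule K (Sp d × X → K) := C.comap (pb X φ)
  have h2 : Inv C₁ := by
    intro c hc w
    obtain ⟨x, hx⟩ := hφ (Multiplicative.ofAdd w)
    have h3 := hC _ hc x
    change pb X φ _ ∈ C
    convert h3 using 1
    funext q
    change c ((φ q.1).toAdd + w, q.2) = c ((φ (x * q.1)).toAdd, q.2)
    rw [map_mul, hx, toAdd_mul, add_comm]
    rfl
  have hG0 : (0 : ℝ) < Nat.card G := by exact_mod_cast Nat.card_pos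
  have hX0 : (0 : ℝ) < Nat.card X := by
    rw [Nat.card_eq_fintype_card]; exact_mod_cast Fintype.card_pos
  have h3 : ρ ≤ rt C₁ := by
    unfold rt
    have h4 : Nat.card (Multiplicative (Sp d)) = Nat.card (Sp d) := rfl
    rw [h4] at h1
    have h1' : (finrank K C : ℝ) * Nat.card (Sp d) ≤ finrank K C₁ * Nat.card G := by
      exact_mod_cast h1
    have h5 : (0 : ℝ) < Nat.card (Sp d) := by rw [card_Sp]; positivity
    rw [le_div_iff₀ (by positivity)]
    have h6 := mul_le_mul_of_nonneg_right hr h5.le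
    have h7 : ρ * (Nat.card (Sp d) * Nat.card X) * Nat.card G ≤ finrank K C₁ * Nat.card G := by
      nlinarith
    exact le_of_mul_le_mul_right h7 hG0
  obtain ⟨π, v, h4, h5, h6⟩ := hd₀ d hd X hX C₁ h2 h3
  refine ⟨(AddMonoidHom.toMultiplicative π.toAddMonoidHom).comp φ, v, ?_, h5, ?_⟩
  · exact Function.Surjective.comp (g := π) h4 hφ
  · intro g
    exact h6 g

end Run7.h505.TI
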