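import Pool.Agent.Run7.h505.TI.E

/-!
# Codes invariant under a regular 2-group with large abelianization
-/

namespace Run7.h505.TI

open Finset Module Polynomial

section
variable (n : ℕ)

/-- the shift on functions on `ℤ/2^k` -/
def sh (k : ℕ) : Module.End K (ZMod (2 ^ k) → K) :=
  LinearMap.funLeft K K fun x => x + 1

@[simp] theorem sh_apply (k : ℕ) (f : ZMod (2 ^ k) → K) (x : ZMod (2 ^ k)) :
    sh k f x = f (x + 1) := rfl

theorem sh_pow (k i : ℕ) (f : ZMod (2 ^ k) → K) (x : ZMod (2 ^ k)) :
    (sh k ^ i) f x = f (x + i) := by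
  induction i generalizing x with
  | zero => simp
  | succ i ih =>
    rw [pow_succ', Module.End.mul_apply, sh_apply, ih]
    congr 1
    push_cast
    ring

theorem D_pow (k j : ℕ) : (sh k - 1) ^ (2 ^ j) = sh k ^ (2 ^ j) - 1 := by
  have h1 : ((X : K[X]) - 1) ^ (2 ^ j) = X ^ (2 ^ j) - 1 := by
    rw [sub_pow_char_pow]
    simp
  have h2 := congrArg (aeval (sh k)) h1
  simpa using h2

theorem ker_D (k j : ℕ) (f : ZMod (2 ^ k) → K) :
    f ∈ LinearMap.ker ((sh k - 1) ^ (2 ^ j)) ↔ ∀ x, f (x + (2 ^ j : ℕ)) = f x := by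
  rw [D_pow, LinearMap.mem_ker, LinearMap.sub_apply, Module.End.one_apply, sub_eq_zero]
  constructor
  · intro h x
    have h1 := congrFun h x
    rw [sh_pow] at h1
    exact h1
  · intro h
    funext x
    rw [sh_pow, h]

theorem D_nil (k : ℕ) : (sh k - 1) ^ (2 ^ k) = 0 := by
  ext f x
  have h1 := (ker_D k k (Pi.single f 1)).2 (by
    intro x
    have : ((2 ^ k : ℕ) : ZMod (2 ^ k)) = 0 := ZMod.natCast_self _
    rw [this, add_zero])
  rw [LinearMap.mem_ker] at h1
  simp only [LinearMap.coe_comp, Function.comp_apply, LinearMap.coe_single]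
  rw [h1]
  simp

theorem finrank_ker_D (k : ℕ) (i : ℕ) : finrank K (LinearMap.ker ((sh k - 1) ^ i)) ≤ i := by
  induction i with
  | zero =>
    rw [pow_zero]
    have : LinearMap.ker (1 : Module.End K (ZMod (2 ^ k) → K)) = ⊥ := by
      rw [LinearMap.ker_eq_bot']
      intro m hm
      exact hm
    rw [this]
    simp
  | succ i ih =>
    -- `D` maps the kernel of `D^(i+1)` to the kernel of `D^i` with kernel of dimension one
    have hres : ∀ f ∈ LinearMap.ker ((sh k - 1) ^ (i + 1)),
        (sh k - 1) f ∈ LinearMap.ker ((sh k - 1) ^ i) := by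
      intro f hf
      rw [LinearMap.mem_ker, ← Module.End.mul_apply, ← pow_succ]
      exact hf
    let φ := (sh k - 1).restrict hres
    have h1 := LinearMap.finrank_range_add_finrank_ker φ
    have h2 : finrank K (LinearMap.range φ) ≤ i := (Submodule.finrank_le _).trans ih
    have h3 : finrank K (LinearMap.ker φ) ≤ 1 := by
      let ev : LinearMap.ker φ →ₗ[K] K :=
        { toFun := fun f => f.1.1 0
          map_add' := fun _ _ => rfl
          map_smul' := fun _ _ => rfl }
      have hev : Function.Injective ev := by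
        rw [← LinearMap.ker_eq_bot, eq_bot_iff]
        intro f hf
        rw [Submodule.mem_bot]
        apply Subtype.ext
        apply Subtype.ext
        have h4 : (sh k - 1) f.1.1 = 0 := congrArg Subtype.val (LinearMap.mem_ker.1 f.2)
        have h5 : ∀ x, f.1.1 (x + 1) = f.1.1 x := by
          intro x
          have := congrFun h4 x
          rw [LinearMap.sub_apply, Pi.sub_apply, sh_apply, Module.End.one_apply, Pi.zero_apply,
            sub_eq_zero] at this
          exact this
        have h6 : ∀ m : ℕ, f.1.1 (m : ZMod (2 ^ k)) = 0 := by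
          intro m
          induction m with
          | zero =>
            rw [Nat.cast_zero]
            exact hf
          | succ m ih => rw [Nat.cast_succ, h5, ih]
        funext x
        have : NeZero (2 ^ k) := ⟨by positivity⟩
        rw [← ZMod.natCast_zmod_val x]
        exact h6 _
      have := LinearMap.finrank_le_finrank_of_injective hev
      simpa using this
    omega

/-- Translation-invariant spaces of functions on `ℤ/2^k`: all functions of small period. -/
theorem cyclic (k j : ℕ) (J : Submodule K (ZMod (2 ^ k) → K))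
    (hJ : ∀ f ∈ J, (fun x => f (x + 1)) ∈ J) (hj : 2 ^ j ≤ finrank K J)
    (f : ZMod (2 ^ k) → K) (hf : ∀ x, f (x + (2 ^ j : ℕ)) = f x) : f ∈ J := by
  have hstab : ∀ f ∈ J, (sh k - 1) f ∈ J := fun f hf => J.sub_mem (hJ f hf) hf
  let φ : Module.End K J := (sh k - 1).restrict hstab
  have hφ : ∀ (i : ℕ) (f : J), ((φ ^ i) f).1 = ((sh k - 1) ^ i) f.1 := by
    intro i
    induction i with
    | zero => intro f; rfl
    | succ i ih =>
      intro f
      rw [pow_succ', pow_succ', Module.End.mul_apply, Module.End.mul_apply, ← ih]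
      rfl
  have hnil : IsNilpotent φ := by
    refine ⟨2 ^ k, ?_⟩
    ext f x
    rw [hφ, D_nil]
    rfl
  have h1 : φ ^ finrank K J = 0 := by
    have h2 := LinearMap.aeval_self_charpoly φ
    rw [hnil.charpoly_eq_X_pow_finrank] at h2
    simpa using h2
  have h2 : J ≤ LinearMap.ker ((sh k - 1) ^ finrank K J) := by
    intro f hf
    rw [LinearMap.mem_ker]
    have h3 := congrArg Subtype.val (LinearMap.congr_fun h1 ⟨f, hf⟩)
    rw [hφ] at h3
    exact h3
  have h3 : J = LinearMap.ker ((sh k - 1) ^ finrank K J) :=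
    Submodule.eq_of_le_of_finrank_le h2 (finrank_ker_D k _)
  rw [h3]
  have h4 := (ker_D k j f).2 hf
  obtain ⟨i, hi⟩ := Nat.exists_eq_add_of_le' hj
  rw [hi, pow_add, LinearMap.mem_ker, Module.End.mul_apply, LinearMap.mem_ker.1 h4, map_zero]

end

/-- A large abelian 2-group maps onto `(ℤ/2)^d` or onto a large cyclic group. -/
theorem abelian_cases (d k : ℕ) (hk : 1 ≤ k) (A : Type) [CommGroup A] [Finite A]
    (hA : IsPGroup 2 A) (hcard : 2 ^ (k * d) ≤ Nat.card A) :
    (∃ φ : A →* Multiplicative (Sp d), Function.Surjective φ) ∨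
      ∃ k' ≥ k, ∃ φ : A →* Multiplicative (ZMod (2 ^ k')), Function.Surjective φ := by
  classical
  obtain ⟨ι, hι, n, hn, ⟨e⟩⟩ := CommGroup.equiv_prod_multiplicative_zmod_of_finite A
  have : Fact (Nat.Prime 2) := ⟨Nat.prime_two⟩
  have hn0 : ∀ i, NeZero (n i) := fun i => ⟨by have := hn i; omega⟩
  have heval : ∀ i, Function.Surjective ((Pi.evalMonoidHom _ i).comp e.toMonoidHom :
      A →* Multiplicative (ZMod (n i))) :=
    fun i => (Function.surjective_eval i).comp e.surjective
  -- all the orders are powers of two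
  have hpow : ∀ i, ∃ a, n i = 2 ^ a := by
    intro i
    have h1 : IsPGroup 2 (Multiplicative (ZMod (n i))) := hA.of_surjective _ (heval i)
    obtain ⟨a, ha⟩ := IsPGroup.iff_card.1 h1
    refine ⟨a, ?_⟩
    rw [← ha]
    have h2 : Nat.card (Multiplicative (ZMod (n i))) = Nat.card (ZMod (n i)) := rfl
    rw [h2, Nat.card_zmod]
  by_cases hd : d ≤ Fintype.card ι
  · left
    obtain ⟨s⟩ : Nonempty (Fin d ↪ ι) :=
      Function.Embedding.nonempty_of_card_le (by simpa using hd)
    have h2 : ∀ i, 2 ∣ n i := by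
      intro i
      obtain ⟨a, ha⟩ := hpow i
      have h3 := hn i
      rw [ha] at h3 ⊢
      have h4 : a ≠ 0 := by rintro rfl; simp at h3
      exact dvd_pow_self 2 h4
    let ψ : ((i : ι) → Multiplicative (ZMod (n i))) →* Multiplicative (Sp d) :=
      { toFun := fun x => Multiplicative.ofAdd fun j =>
          ZMod.castHom (h2 (s j)) (ZMod 2) (x (s j)).toAdd
        map_one' := by
          apply Multiplicative.toAdd.injective
          funext j
          change ZMod.castHom (h2 (s j)) (ZMod 2) 0 = 0
          rw [map_zero]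
        map_mul' := fun x y => by
          apply Multiplicative.toAdd.injective
          funext j
          change ZMod.castHom (h2 (s j)) (ZMod 2) ((x (s j)).toAdd + (y (s j)).toAdd) =
            ZMod.castHom (h2 (s j)) (ZMod 2) (x (s j)).toAdd +
            ZMod.castHom (h2 (s j)) (ZMod 2) (y (s j)).toAdd
          rw [map_add] }
    have hψ : Function.Surjective ψ := by
      intro y
      choose w hw using fun (i : ι) (ε : ZMod 2) => ZMod.castHom_surjective (h2 i) ε
      refine ⟨fun i => if h : ∃ j, s j = i then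
        Multiplicative.ofAdd (w i (y.toAdd h.choose)) else 1, ?_⟩
      apply Multiplicative.toAdd.injective
      funext j
      have hex : ∃ j', s j' = s j := ⟨j, rfl⟩
      have hj : hex.choose = j := s.injective hex.choose_spec
      change ZMod.castHom (h2 (s j)) (ZMod 2) (Multiplicative.toAdd (dite (∃ j', s j' = s j)
        (fun h => Multiplicative.ofAdd (w (s j) (y.toAdd h.choose))) fun _ => 1)) = y.toAdd j
      rw [dif_pos hex, toAdd_ofAdd, hj, hw]
    exact ⟨ψ.comp e.toMonoidHom, hψ.comp e.surjective⟩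
  · right
    push Not at hd
    have hprod : Nat.card A = ∏ i, n i := by
      rw [Nat.card_congr e.toEquiv, Nat.card_pi]
      refine Finset.prod_congr rfl fun i _ => ?_
      have h2 : Nat.card (Multiplicative (ZMod (n i))) = Nat.card (ZMod (n i)) := rfl
      rw [h2, Nat.card_zmod]
    obtain ⟨i, hi⟩ : ∃ i, 2 ^ k ≤ n i := by
      by_contra hno
      push Not at hno
      have h1 : ∏ i, n i ≤ (2 ^ k) ^ Fintype.card ι := by
        refine (Finset.prod_le_pow_card _ _ _ fun i _ => (hno i).le).trans ?_
        rw [Finset.card_univ]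
      have h2 : (2 ^ k) ^ Fintype.card ι < (2 ^ k) ^ d :=
        Nat.pow_lt_pow_right (Nat.one_lt_two_pow (by omega)) hd
      rw [hprod, pow_mul] at hcard
      omega
    obtain ⟨a, ha⟩ := hpow i
    refine ⟨a, ?_, ?_⟩
    · rw [ha] at hi
      exact (Nat.pow_le_pow_iff_right (by norm_num)).1 hi
    · have key : ∀ N, N = 2 ^ a → (∃ φ : A →* Multiplicative (ZMod N), Function.Surjective φ) →
          ∃ φ : A →* Multiplicative (ZMod (2 ^ a)), Function.Surjective φ := by
        rintro _ rfl h; exact h
      exact key _ ha ⟨_, heval i⟩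

/-- one coordinate -/
def U1 {G : Type*} (C : Submodule K (G → K)) : Submodule K (G × Unit → K) :=
  C.comap (LinearMap.funLeft K K fun y => (y, ()))

theorem finrank_U1 {G : Type*} (C : Submodule K (G → K)) : finrank K (U1 C) = finrank K C := by
  let R : (G → K) ≃ₗ[K] (G × Unit → K) := LinearEquiv.funCongrLeft K K (Equiv.prodPUnit G)
  have h1 : U1 C = C.map R.toLinearMap := by
    ext c
    constructor
    · intro hc
      exact ⟨_, hc, rfl⟩
    · rintro ⟨c', hc', rfl⟩
      exact hc'
  rw [h1]
  exact LinearEquiv.finrank_map_eq R _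

/-- Codes invariant under a regular 2-group with large abelianization. -/
theorem main_ab (ρ : ℝ) (hρ : 0 < ρ) (t : ℕ) : ∃ N : ℕ, ∀ (G : Type) [Group G] [Finite G],
    IsPGroup 2 G → N ≤ Nat.card (Abelianization G) →
    ∀ C : Submodule K (G → K), (∀ c ∈ C, ∀ g : G, (fun x => c (g * x)) ∈ C) →
      ρ * Nat.card G ≤ finrank K C →
      ∃ (A : Type) (_ : CommGroup A) (_ : Finite A) (ψ : G →* A), Function.Surjective ψ ∧
        Nat.card A = 2 ^ t ∧ ∀ f : A → K, (fun x => f (ψ x)) ∈ C := by
  obtain ⟨d, hd⟩ := main 1 ρ hρ t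
  obtain ⟨k, hk1, hk⟩ : ∃ k : ℕ, 1 ≤ k ∧ (2 : ℝ) ^ t ≤ ρ * 2 ^ k := by
    obtain ⟨k, hk⟩ := pow_unbounded_of_one_lt (2 ^ t / ρ) (by norm_num : (1 : ℝ) < 2)
    refine ⟨k + 1, by omega, ?_⟩
    rw [div_lt_iff₀ hρ] at hk
    have : (2 : ℝ) ^ k ≤ 2 ^ (k + 1) := pow_le_pow_right₀ (by norm_num) (by omega)
    nlinarith
  refine ⟨2 ^ (k * d), ?_⟩
  intro G _ _ hG hab C hC hr
  have hA : IsPGroup 2 (Abelianization G) := hG.of_surjective Abelianization.of
    (QuotientGroup.mk_surjective)
  have hLInv : LInv (U1 C) := fun c hc g => hC _ hc g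
  rcases abelian_cases d k hk1 (Abelianization G) hA hab with ⟨φ, hφ⟩ | ⟨k', hk', φ, hφ⟩
  · obtain ⟨ψ, v, hψ, hv, hall⟩ := hd d le_rfl G hG (φ.comp Abelianization.of)
      (hφ.comp QuotientGroup.mk_surjective) Unit (by simp) (U1 C) hLInv
      (by rw [finrank_U1]; simpa using hr)
    refine ⟨Multiplicative (Sp t), inferInstance, inferInstance, ψ, hψ, card_Sp t, ?_⟩
    intro f
    have h1 := hall f
    have hv1 : v () = 1 := by
      apply K_ne
      intro h0
      apply hv
      funext x
      exact h0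
    change (fun x => f (ψ x) * v ()) ∈ C at h1
    simpa [hv1] using h1
  · -- the cyclic case
    let φ' : G →* Multiplicative (ZMod (2 ^ k')) := φ.comp Abelianization.of
    have hφ' : Function.Surjective φ' := hφ.comp QuotientGroup.mk_surjective
    have h1 := mono_group φ' hφ' (hG.to_subgroup _) (U1 C) hLInv
    rw [finrank_U1] at h1
    let J : Submodule K (ZMod (2 ^ k') → K) := C.comap (LinearMap.funLeft K K fun x => (φ' x).toAdd)
    have hJU : (U1 C).comap (pb Unit φ') = U1 (G := Multiplicative (ZMod (2 ^ k'))) J := rfl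
    rw [hJU, finrank_U1] at h1
    have hcZ : Nat.card (Multiplicative (ZMod (2 ^ k'))) = 2 ^ k' := Nat.card_zmod _
    rw [hcZ] at h1
    have hG0 : (0 : ℝ) < Nat.card G := by exact_mod_cast Nat.card_pos
    have h2 : 2 ^ t ≤ finrank K J := by
      have h1' : (finrank K C : ℝ) * 2 ^ k' ≤ finrank K J * Nat.card G := by exact_mod_cast h1
      have h3 : (2 : ℝ) ^ k ≤ 2 ^ k' := pow_le_pow_right₀ (by norm_num) hk'
      have h4 : ρ * 2 ^ k' * Nat.card G ≤ finrank K J * Nat.card G := by
        have := mul_le_mul_of_nonneg_right hr (by positivity : (0 : ℝ) ≤ 2 ^ k')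
        nlinarith
      have h5 : ρ * 2 ^ k' ≤ finrank K J := le_of_mul_le_mul_right h4 hG0
      have h6 : (2 : ℝ) ^ t ≤ finrank K J := by
        refine hk.trans (le_trans ?_ h5)
        exact mul_le_mul_of_nonneg_left h3 hρ.le
      exact_mod_cast h6
    have htk : t ≤ k' := by
      have h3 : finrank K J ≤ 2 ^ k' := by
        have : NeZero (2 ^ k') := ⟨by positivity⟩
        refine (Submodule.finrank_le _).trans ?_
        rw [Module.finrank_fintype_fun_eq_card, ZMod.card]
      exact (Nat.pow_le_pow_iff_right (by norm_num)).1 (h2.trans h3)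
    have hJinv : ∀ f ∈ J, (fun x => f (x + 1)) ∈ J := by
      intro f hf
      obtain ⟨g, hg⟩ := hφ' (Multiplicative.ofAdd 1)
      have h3 := hC _ hf g
      change (fun x => f ((φ' x).toAdd + 1)) ∈ C
      convert h3 using 1
      funext x
      change f ((φ' x).toAdd + 1) = f (φ' (g * x)).toAdd
      rw [map_mul, hg, toAdd_mul, toAdd_ofAdd, add_comm]
    have hdvd : 2 ^ t ∣ 2 ^ k' := pow_dvd_pow 2 htk
    have : NeZero (2 ^ t) := ⟨by positivity⟩
    refine ⟨Multiplicative (ZMod (2 ^ t)), inferInstance, inferInstance,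
      (AddMonoidHom.toMultiplicative (ZMod.castHom hdvd (ZMod (2 ^ t))).toAddMonoidHom).comp φ',
      ?_, Nat.card_zmod _, ?_⟩
    · exact Function.Surjective.comp (g := ZMod.castHom hdvd (ZMod (2 ^ t)))
        (ZMod.castHom_surjective hdvd) hφ'
    · intro f
      have h3 := cyclic k' t J hJinv h2
        (fun x => f (Multiplicative.ofAdd (ZMod.castHom hdvd (ZMod (2 ^ t)) x))) (by
          intro x
          rw [map_add, map_natCast, ZMod.natCast_self, add_zero])
      exact h3

end Run7.h505.TI
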