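import Pool.Agent.Run7.h505.TI.F

/-!
# Convolution of binary functions on `ℤ/2^k` and dihedral codes
-/

namespace Run7.h505.TI

open Finset Module

/-! ### Convolution on a finite abelian group -/

section

variable {A : Type*} [AddCommGroup A] [Fintype A]

/-- the convolution -/
def cv (a g : A → K) : A → K := fun x => ∑ y, a y * g (x - y)

/-- reflection -/
def rf (a : A → K) : A → K := fun x => a (-x)

omit [Fintype A] in
@[simp] theorem rf_rf (a : A → K) : rf (rf a) = a := by
  funext x; simp [rf]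

omit [Fintype A] in
theorem rf_add (a b : A → K) : rf (a + b) = rf a + rf b := rfl

theorem cv_comm (a g : A → K) : cv a g = cv g a := by
  funext x
  unfold cv
  refine Finset.sum_bij' (fun y _ => x - y) (fun y _ => x - y) ?_ ?_ ?_ ?_ ?_
  all_goals simp [mul_comm]

theorem cv_assoc (a g h : A → K) : cv (cv a g) h = cv a (cv g h) := by
  funext x
  unfold cv
  simp_rw [Finset.sum_mul, Finset.mul_sum]
  rw [Finset.sum_comm]
  refine Finset.sum_congr rfl fun y _ => ?_
  refine Finset.sum_bij' (fun z _ => z - y) (fun z _ => z + y) ?_ ?_ ?_ ?_ ?_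
  · simp
  · simp
  · simp
  · simp
  · intro z _
    rw [mul_assoc]
    congr 3
    abel

theorem cv_add_left (a b g : A → K) : cv (a + b) g = cv a g + cv b g := by
  funext x
  simp [cv, add_mul, Finset.sum_add_distrib]

theorem cv_add_right (a g h : A → K) : cv a (g + h) = cv a g + cv a h := by
  funext x
  simp [cv, mul_add, Finset.sum_add_distrib]

theorem cv_smul_left (r : K) (a g : A → K) : cv (r • a) g = r • cv a g := by
  funext x
  simp [cv, Finset.mul_sum, mul_assoc]

@[simp] theorem cv_zero_left (g : A → K) : cv 0 g = 0 := by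
  funext x
  simp [cv]

@[simp] theorem cv_zero_right (g : A → K) : cv g 0 = 0 := by
  funext x
  simp [cv]

theorem rf_cv (a g : A → K) : rf (cv a g) = cv (rf a) (rf g) := by
  funext x
  unfold rf cv
  refine Finset.sum_bij' (fun y _ => -y) (fun y _ => -y) ?_ ?_ ?_ ?_ ?_
  · simp
  · simp
  · simp
  · simp
  · intro y _
    simp only [neg_neg]
    congr 2
    abel

theorem cv_shift (a g : A → K) (t : A) :
    cv (fun x => a (x + t)) g = fun x => cv a g (x + t) := by
  funext x
  unfold cv
  refine Finset.sum_bij' (fun y _ => y + t) (fun y _ => y - t) ?_ ?_ ?_ ?_ ?_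
  · simp
  · simp
  · simp
  · simp
  · intro y _
    congr 2
    abel

theorem sub_eq_add_fun {X : Type*} (a b : X → K) : a - b = a + b := by
  funext x
  exact CharTwo.sub_eq_add _ _

theorem add_eq_zero_fun {X : Type*} {a b : X → K} : a + b = 0 ↔ a = b := by
  rw [← sub_eq_add_fun, sub_eq_zero]

end

/-! ### The chain property -/

theorem le_ker_D (k : ℕ) (J : Submodule K (ZMod (2 ^ k) → K))
    (hJ : ∀ f ∈ J, (fun x => f (x + 1)) ∈ J) : J ≤ LinearMap.ker ((sh k - 1) ^ finrank K J) := by
  have hstab : ∀ f ∈ J, (sh k - 1) f ∈ J := fun f hf => J.sub_mem (hJ f hf) hf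
  let φ : Module.End K J := (sh k - 1).restrict hstab
  have hφ : ∀ (i : ℕ) (f : J), ((φ ^ i) f).1 = ((sh k - 1) ^ i) f.1 := by
    intro i
    induction i with
    | zero => intro f; rfl
    | succ i ih =>
      intro f
      rw [pow_succ', pow_succ', Module.End.mul_apply, Module.End.mul_apply, ← ih]
      rfl
  have hnil : IsNilpotent φ := by
    refine ⟨2 ^ k, ?_⟩
    ext f x
    rw [hφ, D_nil]
    rfl
  have h1 : φ ^ finrank K J = 0 := by
    have h2 := LinearMap.aeval_self_charpoly φ
    rw [hnil.charpoly_eq_X_pow_finrank] at h2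
    simpa using h2
  intro f hf
  rw [LinearMap.mem_ker]
  have h3 := congrArg Subtype.val (LinearMap.congr_fun h1 ⟨f, hf⟩)
  rw [hφ] at h3
  exact h3

/-- A translation-invariant space which contains a function that is not `2^j`-periodic contains
all `2^j`-periodic functions. -/
theorem chain (k j : ℕ) (J : Submodule K (ZMod (2 ^ k) → K))
    (hJ : ∀ f ∈ J, (fun x => f (x + 1)) ∈ J) (a : ZMod (2 ^ k) → K) (ha : a ∈ J)
    (hna : ¬ ∀ x, a (x + (2 ^ j : ℕ)) = a x)
    (f : ZMod (2 ^ k) → K) (hf : ∀ x, f (x + (2 ^ j : ℕ)) = f x) : f ∈ J := by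
  by_cases h : 2 ^ j ≤ finrank K J
  · exact cyclic k j J hJ h f hf
  · exfalso
    apply hna
    rw [← ker_D]
    have h1 := le_ker_D k J hJ ha
    obtain ⟨i, hi⟩ := Nat.exists_eq_add_of_le' (not_le.1 h).le
    rw [hi, pow_add, LinearMap.mem_ker, Module.End.mul_apply, LinearMap.mem_ker.1 h1, map_zero]

variable {k : ℕ}

instance instNeZeroTwoPow : NeZero (2 ^ k) := ⟨by positivity⟩

/-- the annihilator -/
def ann (w : ZMod (2 ^ k) → K) : Submodule K (ZMod (2 ^ k) → K) where
  carrier := {a | cv a w = 0}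
  zero_mem' := cv_zero_left w
  add_mem' := by
    intro a b ha hb
    rw [Set.mem_ofPred_eq] at *
    rw [cv_add_left, ha, hb, add_zero]
  smul_mem' := by
    intro r a ha
    rw [Set.mem_ofPred_eq] at *
    rw [cv_smul_left, ha, smul_zero]

theorem mem_ann {w a : ZMod (2 ^ k) → K} : a ∈ ann w ↔ cv a w = 0 := Iff.rfl

theorem ann_inv (w : ZMod (2 ^ k) → K) : ∀ f ∈ ann w, (fun x => f (x + 1)) ∈ ann w := by
  intro f hf
  rw [mem_ann] at *
  rw [cv_shift, hf]
  rfl

/-- the sum of all values -/
def aug (g : ZMod (2 ^ k) → K) : K := ∑ x, g x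

theorem cv_one (g : ZMod (2 ^ k) → K) : cv (fun _ => 1) g = fun _ => aug g := by
  funext x
  unfold cv aug
  simp only [one_mul]
  refine Finset.sum_bij' (fun y _ => x - y) (fun y _ => x - y) ?_ ?_ ?_ ?_ ?_
  all_goals simp

theorem aug_rf (g : ZMod (2 ^ k) → K) : aug (rf g) = aug g := by
  unfold aug rf
  refine Finset.sum_bij' (fun y _ => -y) (fun y _ => -y) ?_ ?_ ?_ ?_ ?_
  all_goals simp

/-- elements with augmentation one are not zero divisors -/
theorem eq_zero_of_cv {a u : ZMod (2 ^ k) → K} (hu : aug u = 1) (h : cv a u = 0) : a = 0 := by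
  by_contra ha
  have h1 : (fun _ => 1 : ZMod (2 ^ k) → K) ∈ ann u := by
    have h2 : 1 ≤ finrank K (ann u) := by
      rw [Nat.one_le_iff_ne_zero]
      intro h0
      rw [Submodule.finrank_eq_zero] at h0
      have : a ∈ ann u := h
      rw [h0, Submodule.mem_bot] at this
      exact ha this
    exact cyclic k 0 (ann u) (ann_inv u) (by simpa using h2) _ (fun _ => rfl)
  rw [mem_ann, cv_one, hu] at h1
  exact one_ne_zero (congrFun h1 0)

end Run7.h505.TI
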