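import Pool.Agent.Run7.h505.TI.G

/-!
# Counting for dihedral codes
-/

namespace Run7.h505.TI

open Finset Module

/-! ### Hamming balls -/

theorem ball {X : Type*} [Fintype X] [DecidableEq X] (q : ℕ) (hX : Fintype.card X = 128 * q) :
    (univ.filter fun f : X → K => (univ.filter fun x => f x ≠ 0).card ≤ q).card ≤ 2 ^ (9 * q) := by
  classical
  -- pass to subsets
  have h1 : (univ.filter fun f : X → K => (univ.filter fun x => f x ≠ 0).card ≤ q).card ≤
      ((univ : Finset X).powerset.filter fun s => s.card ≤ q).card := by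
    refine Finset.card_le_card_of_injOn (fun f => univ.filter fun x => f x ≠ 0) ?_ ?_
    · intro f hf
      simp only [coe_filter, mem_univ, true_and, Set.mem_ofPred_eq] at hf
      simp only [coe_filter, mem_powerset, subset_univ, true_and, Set.mem_ofPred_eq]
      exact hf
    · intro f _ g _ h
      funext x
      have h2 : f x ≠ 0 ↔ g x ≠ 0 := by
        have := Finset.ext_iff.1 h x
        simpa using this
      by_cases hx : f x = 0
      · by_cases hy : g x = 0
        · rw [hx, hy]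
        · exact absurd hx (h2.2 hy)
      · rw [K_ne hx, K_ne (h2.1 hx)]
  refine h1.trans ?_
  have h3 := Finset.sum_pow_mul_eq_add_pow (1 / 128 : ℝ) 1 (univ : Finset X)
  have h4 : ((((univ : Finset X).powerset.filter fun s => s.card ≤ q).card : ℕ) : ℝ) *
      (1 / 128) ^ q ≤ (1 / 128 + 1) ^ (128 * q) := by
    rw [← hX, ← Finset.card_univ, ← h3, ← nsmul_eq_mul, ← Finset.sum_const]
    refine (Finset.sum_le_sum (f := fun _ => (1 / 128 : ℝ) ^ q)
      (g := fun s : Finset X => (1 / 128 : ℝ) ^ s.card * 1 ^ ((univ : Finset X).card - s.card))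
      ?_).trans ?_
    · intro s hs
      rw [Finset.mem_filter] at hs
      simp only [one_pow, mul_one]
      exact pow_le_pow_of_le_one (by norm_num) (by norm_num) hs.2
    · refine Finset.sum_le_sum_of_subset_of_nonneg (Finset.filter_subset _ _) ?_
      intro s _ _
      positivity
  have h5 : (1 / 128 + 1 : ℝ) ^ 128 ≤ 4 := by
    have h6 : (1 / 128 + 1 : ℝ) ≤ Real.exp (1 / 128) := Real.add_one_le_exp _
    have h7 : (1 / 128 + 1 : ℝ) ^ 128 ≤ Real.exp (1 / 128) ^ 128 :=
      pow_le_pow_left₀ (by norm_num) h6 _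
    have h8 : Real.exp (1 / 128) ^ 128 = Real.exp 1 := by
      rw [← Real.exp_nat_mul]; norm_num
    rw [h8] at h7
    have h9 := Real.exp_one_lt_d9
    linarith
  have h6 : (1 / 128 + 1 : ℝ) ^ (128 * q) ≤ 4 ^ q := by
    rw [pow_mul]
    exact pow_le_pow_left₀ (by positivity) h5 _
  have h7 : ((((univ : Finset X).powerset.filter fun s => s.card ≤ q).card : ℕ) : ℝ) ≤
      4 ^ q * 128 ^ q := by
    have h8 := h4.trans h6
    rw [one_div, inv_pow, ← div_eq_mul_inv, div_le_iff₀ (by positivity)] at h8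
    exact h8
  have h8 : (4 : ℝ) ^ q * 128 ^ q = ((2 ^ (9 * q) : ℕ) : ℝ) := by
    rw [← mul_pow, pow_mul]
    norm_num
  rw [h8] at h7
  exact_mod_cast h7

/-! ### The number of good multipliers for a given word -/

variable {k : ℕ}

theorem sum_per (j : ℕ) (hj : j ≤ k) (v : ZMod (2 ^ k) → K)
    (hv : ∀ f : ZMod (2 ^ k) → K, (∀ x, f (x + (2 ^ j : ℕ)) = f x) → cv f v = 0)
    (i : ZMod (2 ^ j)) :
    ∑ y, (if ZMod.castHom (pow_dvd_pow 2 hj) (ZMod (2 ^ j)) y = i then v y else 0) = 0 := by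
  have h1 := hv (fun y => if ZMod.castHom (pow_dvd_pow 2 hj) (ZMod (2 ^ j)) (-y) = i then 1 else 0)
    (by
      intro x
      have : ZMod.castHom (pow_dvd_pow 2 hj) (ZMod (2 ^ j)) (-(x + (2 ^ j : ℕ))) =
          ZMod.castHom (pow_dvd_pow 2 hj) (ZMod (2 ^ j)) (-x) := by
        rw [neg_add, map_add, map_neg _ ((2 ^ j : ℕ) : ZMod (2 ^ k)), map_natCast,
          ZMod.natCast_self, neg_zero, add_zero]
      simp only [this])
  have h2 := congrFun h1 0
  unfold cv at h2
  rw [Pi.zero_apply] at h2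
  refine Eq.trans ?_ h2
  refine Finset.sum_bij' (fun y _ => -y) (fun y _ => -y) ?_ ?_ ?_ ?_ ?_
  · simp
  · simp
  · simp
  · simp
  · intro y _
    simp

/-- the linear map which counts symmetric classes -/
def Lm (k j : ℕ) (hj : j ≤ k) : (ZMod (2 ^ k) → K) →ₗ[K] (Fin (2 ^ (j - 1) - 1) → K) where
  toFun w := fun i =>
    ∑ y, (if ZMod.castHom (pow_dvd_pow 2 hj) (ZMod (2 ^ j)) y = ((i.val + 1 : ℕ) : ZMod (2 ^ j))
      then (w y + w (-y)) else 0)
  map_add' w w' := by
    funext i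
    rw [Pi.add_apply, ← Finset.sum_add_distrib]
    refine Finset.sum_congr rfl fun y _ => ?_
    split_ifs
    · simp only [Pi.add_apply]; ring
    · simp
  map_smul' r w := by
    funext i
    rw [Pi.smul_apply, Finset.smul_sum]
    refine Finset.sum_congr rfl fun y _ => ?_
    split_ifs
    · simp only [Pi.smul_apply, RingHom.id_apply, smul_add]
    · simp

theorem Lm_surj (j : ℕ) (hj : j ≤ k) (hj1 : 1 ≤ j) : Function.Surjective (Lm k j hj) := by
  intro t
  have hpow : 2 ^ j = 2 ^ (j - 1) + 2 ^ (j - 1) := by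
    obtain ⟨i, rfl⟩ := Nat.exists_eq_add_of_le' hj1
    rw [Nat.add_sub_cancel, pow_succ]; ring
  have hjk : 2 ^ j ≤ 2 ^ k := Nat.pow_le_pow_right (by norm_num) hj
  -- the preimage
  let w : ZMod (2 ^ k) → K := fun x =>
    if h : 1 ≤ x.val ∧ x.val < 2 ^ (j - 1) then t ⟨x.val - 1, by omega⟩ else 0
  have hw : ∀ x, w x ≠ 0 → 1 ≤ x.val ∧ x.val < 2 ^ (j - 1) := by
    intro x hx
    by_contra h
    exact hx (dif_neg h)
  have hcast : ∀ x : ZMod (2 ^ k), ZMod.castHom (pow_dvd_pow 2 hj) (ZMod (2 ^ j)) x =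
      ((x.val : ℕ) : ZMod (2 ^ j)) := by
    intro x
    conv_lhs => rw [← ZMod.natCast_zmod_val x]
    rw [map_natCast]
  refine ⟨w, ?_⟩
  funext i
  have hi := i.2
  have hval : ((i.val + 1 : ℕ) : ZMod (2 ^ k)).val = i.val + 1 := by
    rw [ZMod.val_natCast, Nat.mod_eq_of_lt (by omega)]
  have hwi : w ((i.val + 1 : ℕ) : ZMod (2 ^ k)) = t i := by
    change dite _ _ _ = _
    rw [dif_pos ⟨by omega, by omega⟩]
    congr 1
    apply Fin.ext
    change _ - 1 = _
    rw [hval]; omega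
  change ∑ y, (if ZMod.castHom (pow_dvd_pow 2 hj) (ZMod (2 ^ j)) y =
      ((i.val + 1 : ℕ) : ZMod (2 ^ j)) then (w y + w (-y)) else 0) = t i
  rw [Finset.sum_eq_single (((i.val + 1 : ℕ) : ZMod (2 ^ k)))]
  · rw [if_pos (by rw [map_natCast]), hwi]
    have h0 : w (-((i.val + 1 : ℕ) : ZMod (2 ^ k))) = 0 := by
      by_contra h
      have h1 := hw _ h
      have h2 : ((-((i.val + 1 : ℕ) : ZMod (2 ^ k))).val + (i.val + 1) : ℕ) % 2 ^ k = 0 := by
        have h3 : (((-((i.val + 1 : ℕ) : ZMod (2 ^ k))).val + (i.val + 1) : ℕ) : ZMod (2 ^ k)) = 0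
          := by
          rw [Nat.cast_add, ZMod.natCast_zmod_val, neg_add_cancel]
        rw [ZMod.natCast_eq_zero_iff] at h3
        exact Nat.mod_eq_zero_of_dvd h3
      rw [Nat.mod_eq_of_lt (by omega)] at h2
      omega
    rw [h0, add_zero]
  · intro y _ hy
    split_ifs with h
    · have h1 : w y = 0 := by
        by_contra h2
        have h3 := hw _ h2
        apply hy
        rw [hcast, ZMod.natCast_eq_natCast_iff, Nat.ModEq, Nat.mod_eq_of_lt (by omega),
          Nat.mod_eq_of_lt (by omega)] at h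
        rw [← ZMod.natCast_zmod_val y, h]
      have h1' : w (-y) = 0 := by
        by_contra h2
        have h3 := hw _ h2
        have h4 : ZMod.castHom (pow_dvd_pow 2 hj) (ZMod (2 ^ j)) (-y) =
            -((i.val + 1 : ℕ) : ZMod (2 ^ j)) := by rw [map_neg, h]
        rw [hcast, eq_neg_iff_add_eq_zero, ← Nat.cast_add, ZMod.natCast_eq_zero_iff] at h4
        have h5 := Nat.le_of_dvd (by omega) h4
        omega
      rw [h1, h1', add_zero]
    · rfl
  · intro h
    exact absurd (Finset.mem_univ _) h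

theorem card_ker_Lm (j : ℕ) (hj : j ≤ k) (hj1 : 1 ≤ j) :
    Nat.card (LinearMap.ker (Lm k j hj)) ≤ 2 ^ (2 ^ k - (2 ^ (j - 1) - 1)) := by
  have h1 := LinearMap.finrank_range_add_finrank_ker (Lm k j hj)
  rw [LinearMap.range_eq_top.2 (Lm_surj j hj hj1), finrank_top,
    Module.finrank_fintype_fun_eq_card, Module.finrank_fintype_fun_eq_card, Fintype.card_fin,
    ZMod.card] at h1
  have h2 : finrank K (LinearMap.ker (Lm k j hj)) = 2 ^ k - (2 ^ (j - 1) - 1) := by omega
  rw [Module.natCard_eq_pow_finrank (K := K), h2]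
  simp [K]

/-- Few multipliers `g` are compatible with a given pair `(a, c)`. -/
theorem count (j : ℕ) (hj : j ≤ k) (hj1 : 1 ≤ j) (a c : ZMod (2 ^ k) → K)
    (ha : ¬ ∀ x, a (x + (2 ^ j : ℕ)) = a x) :
    (univ.filter fun g : ZMod (2 ^ k) → K => aug g = 1 ∧ cv a g = cv c (rf g)).card ≤
      2 ^ (2 ^ k - (2 ^ (j - 1) - 1)) := by
  classical
  rcases Finset.eq_empty_or_nonempty
    (univ.filter fun g : ZMod (2 ^ k) → K => aug g = 1 ∧ cv a g = cv c (rf g)) with h0 | ⟨g₀, hg₀⟩
  · rw [h0]; simp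
  rw [Finset.mem_filter] at hg₀
  obtain ⟨-, hg1, hg2⟩ := hg₀
  have hmem : ∀ g : ZMod (2 ^ k) → K, cv a g = cv c (rf g) →
      cv g (rf g₀) ∈ LinearMap.ker (Lm k j hj) := by
    intro g hg
    have h1 : cv a (cv g (rf g₀)) = cv c (cv (rf g) (rf g₀)) := by
      rw [← cv_assoc, hg, cv_assoc]
    have h2 : cv a (rf (cv g (rf g₀))) = cv c (cv (rf g) (rf g₀)) := by
      rw [rf_cv, rf_rf, cv_comm (rf g) g₀, ← cv_assoc, hg2, cv_assoc, cv_comm (rf g₀) (rf g)]
    have h3 : cv a (cv g (rf g₀) + rf (cv g (rf g₀))) = 0 := by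
      rw [cv_add_right, h1, h2]
      exact add_eq_zero_fun.2 rfl
    have h4 : ∀ f : ZMod (2 ^ k) → K, (∀ x, f (x + (2 ^ j : ℕ)) = f x) →
        cv f (cv g (rf g₀) + rf (cv g (rf g₀))) = 0 := by
      intro f hf
      exact chain k j (ann _) (ann_inv _) a h3 ha f hf
    rw [LinearMap.mem_ker]
    funext i
    exact sum_per j hj _ h4 _
  have h5 : (univ.filter fun g : ZMod (2 ^ k) → K => aug g = 1 ∧ cv a g = cv c (rf g)).card ≤
      Nat.card (LinearMap.ker (Lm k j hj)) := by
    have hcc := Nat.card_eq_card_toFinset (LinearMap.ker (Lm k j hj) : Set (ZMod (2 ^ k) → K))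
    refine le_trans ?_ hcc.ge
    refine Finset.card_le_card_of_injOn (fun g => cv g (rf g₀)) ?_ ?_
    · intro g hg
      simp only [coe_filter, mem_univ, true_and, Set.mem_ofPred_eq] at hg
      simp only [Set.coe_toFinset]
      exact hmem g hg.2
    · intro g _ g' _ h
      have h6 : cv (g + g') (rf g₀) = 0 := by
        rw [cv_add_left]
        exact add_eq_zero_fun.2 h
      have h7 := eq_zero_of_cv (by rw [aug_rf, hg1]) h6
      exact add_eq_zero_fun.1 h7
  exact h5.trans (card_ker_Lm j hj hj1)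

end Run7.h505.TI
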