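import Pool.Agent.Run7.h505.TI.H

/-!
# Good dihedral codes of 2-power length
-/

namespace Run7.h505.TI

open Finset Module

/-- the weight -/
def wt {X : Type*} [Fintype X] (f : X → K) : ℕ := (univ.filter fun x => f x ≠ 0).card

theorem wt_pos {X : Type*} [Fintype X] {f : X → K} (h : f ≠ 0) : 1 ≤ wt f := by
  obtain ⟨x, hx⟩ := Function.ne_iff.1 h
  exact Finset.card_pos.2 ⟨x, by simpa using hx⟩

variable {k : ℕ}

/-- the pull-back from `ℤ/2^s` to `ℤ/2^k` -/
def lift (s : ℕ) (hs : s ≤ k) (f : ZMod (2 ^ s) → K) : ZMod (2 ^ k) → K :=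
  fun x => f (ZMod.castHom (pow_dvd_pow 2 hs) (ZMod (2 ^ s)) x)

theorem wt_lift (s : ℕ) (hs : s ≤ k) (f : ZMod (2 ^ s) → K) :
    wt (lift s hs f) = 2 ^ (k - s) * wt f := by
  classical
  let φ : ZMod (2 ^ k) →+ ZMod (2 ^ s) := (ZMod.castHom (pow_dvd_pow 2 hs) (ZMod (2 ^ s)))
  have hφ : Function.Surjective φ := ZMod.castHom_surjective (pow_dvd_pow 2 hs)
  have h1 : ∀ i, (univ.filter fun x => φ x = i).card = (univ.filter fun x => φ x = 0).card :=
    fun i => AddMonoidHom.card_fiber_eq_of_mem_range φ (hφ i) (hφ 0)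
  have h2 : 2 ^ s * (univ.filter fun x => φ x = 0).card = 2 ^ k := by
    have h3 := Finset.card_eq_sum_card_fiberwise (f := φ) (s := (univ : Finset (ZMod (2 ^ k))))
      (t := univ) (by intro x _; simp)
    rw [Finset.sum_congr rfl (fun i _ => h1 i), Finset.sum_const, smul_eq_mul, Finset.card_univ,
      Finset.card_univ, ZMod.card, ZMod.card] at h3
    exact h3.symm
  have h3 : (univ.filter fun x => φ x = 0).card = 2 ^ (k - s) := by
    have h4 : 2 ^ s * 2 ^ (k - s) = 2 ^ k := by rw [← pow_add]; congr 1; omega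
    exact Nat.eq_of_mul_eq_mul_left (by positivity) (h2.trans h4.symm)
  unfold wt
  rw [Finset.card_eq_sum_card_fiberwise (f := φ) (t := univ.filter fun i => f i ≠ 0)]
  · have h5 : ∀ i ∈ univ.filter (fun i => f i ≠ 0),
        ((univ.filter fun x => lift s hs f x ≠ 0).filter fun x => φ x = i).card = 2 ^ (k - s) := by
      intro i hi
      rw [← h3, ← h1 i]
      congr 1
      ext x
      simp only [mem_filter, mem_univ, true_and] at hi ⊢
      constructor
      · exact fun h => h.2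
      · intro h
        refine ⟨?_, h⟩
        change f (φ x) ≠ 0
        rw [h]; exact hi
    rw [Finset.sum_congr rfl h5, Finset.sum_const, smul_eq_mul, mul_comm]
  · intro x hx
    simp only [coe_filter, mem_univ, true_and, Set.mem_ofPred_eq] at hx ⊢
    exact hx

theorem exists_lift (s : ℕ) (hs : s ≤ k) (f : ZMod (2 ^ k) → K)
    (hf : ∀ x, f (x + (2 ^ s : ℕ)) = f x) : ∃ f', f = lift s hs f' := by
  refine ⟨fun i => f ((i.val : ℕ) : ZMod (2 ^ k)), ?_⟩
  have h1 : ∀ (q m : ℕ), f ((m + 2 ^ s * q : ℕ) : ZMod (2 ^ k)) = f (m : ZMod (2 ^ k)) := by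
    intro q
    induction q with
    | zero => intro m; simp
    | succ q ih =>
      intro m
      rw [← ih m, ← hf ((m + 2 ^ s * q : ℕ) : ZMod (2 ^ k))]
      congr 1
      push_cast
      ring
  funext x
  change f x = f (((ZMod.castHom (pow_dvd_pow 2 hs) (ZMod (2 ^ s)) x).val : ℕ) : ZMod (2 ^ k))
  have h2 : (ZMod.castHom (pow_dvd_pow 2 hs) (ZMod (2 ^ s)) x).val = x.val % 2 ^ s := by
    conv_lhs => rw [← ZMod.natCast_zmod_val x]
    rw [map_natCast, ZMod.val_natCast]
  rw [h2, ← h1 (x.val / 2 ^ s) (x.val % 2 ^ s), Nat.mod_add_div, ZMod.natCast_zmod_val]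

theorem per_of_per (s : ℕ) {a c g : ZMod (2 ^ k) → K} (hg : aug g = 1)
    (h : cv a g = cv c (rf g)) (ha : ∀ x, a (x + (2 ^ s : ℕ)) = a x) (x : ZMod (2 ^ k)) :
    c (x + (2 ^ s : ℕ)) = c x := by
  have h1 : cv (fun x => c (x + (2 ^ s : ℕ))) (rf g) = cv c (rf g) := by
    have h2 : (fun x => a (x + (2 ^ s : ℕ))) = a := funext ha
    rw [cv_shift, ← h, ← cv_shift, h2]
  have h3 : cv ((fun x => c (x + (2 ^ s : ℕ))) + c) (rf g) = 0 := by
    rw [cv_add_left, h1]
    exact add_eq_zero_fun.2 rfl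
  have h4 := eq_zero_of_cv (by rw [aug_rf, hg]) h3
  exact congrFun (add_eq_zero_fun.1 h4) x

/-- pairs of low weight at level `s` -/
def W (s : ℕ) : Finset ((ZMod (2 ^ s) → K) × (ZMod (2 ^ s) → K)) :=
  univ.filter fun p => 128 * (wt p.1 + wt p.2) ≤ 2 ^ (s + 1)

theorem card_W (s : ℕ) (hs : 6 ≤ s) : (W s).card ≤ 2 ^ (9 * 2 ^ (s - 6)) := by
  classical
  have hq : 2 ^ (s + 1) = 128 * 2 ^ (s - 6) := by
    obtain ⟨i, rfl⟩ := Nat.exists_eq_add_of_le' hs
    rw [Nat.add_sub_cancel]
    ring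
  have hc : Fintype.card (ZMod (2 ^ s) ⊕ ZMod (2 ^ s)) = 128 * 2 ^ (s - 6) := by
    rw [Fintype.card_sum, ZMod.card, ← hq, pow_succ]; ring
  refine le_trans ?_ (ball (2 ^ (s - 6)) hc)
  refine Finset.card_le_card_of_injOn (fun p => Sum.elim p.1 p.2) ?_ ?_
  · intro p hp
    simp only [W, coe_filter, mem_univ, true_and, Set.mem_ofPred_eq] at hp ⊢
    have h1 : (univ.filter fun x => Sum.elim p.1 p.2 x ≠ 0).card = wt p.1 + wt p.2 := by
      unfold wt
      rw [← Finset.card_map (Function.Embedding.inl : ZMod (2 ^ s) ↪ ZMod (2 ^ s) ⊕ ZMod (2 ^ s)),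
        ← Finset.card_map (Function.Embedding.inr : ZMod (2 ^ s) ↪ ZMod (2 ^ s) ⊕ ZMod (2 ^ s)),
        ← Finset.card_union_of_disjoint]
      · congr 1
        ext x
        cases x <;> simp
      · rw [Finset.disjoint_left]
        intro x hx hx'
        simp only [mem_map, mem_filter, mem_univ, true_and] at hx hx'
        obtain ⟨y, _, rfl⟩ := hx
        obtain ⟨z, _, hz⟩ := hx'
        exact Sum.inr_ne_inl hz
    rw [h1]
    omega
  · intro p _ q _ h
    have h1 : p.1 = q.1 := by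
      funext x; exact congrFun h (Sum.inl x)
    have h2 : p.2 = q.2 := by
      funext x; exact congrFun h (Sum.inr x)
    exact Prod.ext h1 h2

theorem card_aug (k : ℕ) :
    2 ^ (2 ^ k - 1) ≤ (univ.filter fun g : ZMod (2 ^ k) → K => aug g = 1).card := by
  classical
  let L : (ZMod (2 ^ k) → K) →+ K :=
    { toFun := aug
      map_zero' := by simp [aug]
      map_add' := fun a b => by simp [aug, Finset.sum_add_distrib] }
  have hL : Function.Surjective L := by
    intro t
    refine ⟨Pi.single 0 t, ?_⟩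
    change aug _ = t
    unfold aug
    simp [Pi.single_apply]
  have h1 : ∀ i, (univ.filter fun x => L x = i).card = (univ.filter fun x => L x = 1).card :=
    fun i => AddMonoidHom.card_fiber_eq_of_mem_range L (hL i) (hL 1)
  have h3 := Finset.card_eq_sum_card_fiberwise (f := L)
    (s := (univ : Finset (ZMod (2 ^ k) → K))) (t := univ) (by intro x _; simp)
  rw [Finset.sum_congr rfl (fun i _ => h1 i), Finset.sum_const, smul_eq_mul, Finset.card_univ,
    Finset.card_univ, Fintype.card_fun, ZMod.card, ZMod.card] at h3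
  have h4 : (2 : ℕ) ^ 2 ^ k = 2 * 2 ^ (2 ^ k - 1) := by
    rw [← pow_succ']
    congr 1
    have := Nat.one_le_two_pow (n := k)
    omega
  rw [h4] at h3
  change _ ≤ (univ.filter fun x => L x = 1).card
  omega

/-- There is a multiplier `g` such that all pairs `(a, c)` compatible with it have large weight. -/
theorem exists_mult (k : ℕ) : ∃ g : ZMod (2 ^ k) → K, aug g = 1 ∧
    ∀ a c : ZMod (2 ^ k) → K, cv a g = cv c (rf g) → (a ≠ 0 ∨ c ≠ 0) →
      2 ^ (k + 1) < 128 * (wt a + wt c) := by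
  classical
  by_contra hcon
  push Not at hcon
  -- the bad pairs
  have hcover : (univ.filter fun g : ZMod (2 ^ k) → K => aug g = 1) ⊆
      (Finset.range (k - 5)).biUnion fun i => if h : i + 6 ≤ k then
        ((W (i + 6)).filter fun p => ¬ ∀ x, lift (i + 6) h p.1 (x + (2 ^ (i + 5) : ℕ)) =
          lift (i + 6) h p.1 x).biUnion fun p =>
          univ.filter fun g : ZMod (2 ^ k) → K => aug g = 1 ∧
            cv (lift (i + 6) h p.1) g = cv (lift (i + 6) h p.2) (rf g) else ∅ := by
    intro g hg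
    rw [Finset.mem_filter] at hg
    obtain ⟨a, c, hac, hne, hw⟩ := hcon g hg.2
    have ha0 : a ≠ 0 := by
      rintro rfl
      rw [cv_zero_left] at hac
      have hc0 := eq_zero_of_cv (by rw [aug_rf, hg.2]) hac.symm
      rcases hne with h | h
      · exact h rfl
      · exact h hc0
    -- the level of `a`
    have hex : ∃ s, s ≤ k ∧ ∀ x, a (x + (2 ^ s : ℕ)) = a x := by
      refine ⟨k, le_rfl, fun x => ?_⟩
      rw [ZMod.natCast_self, add_zero]
    obtain ⟨s, ⟨hsk, hs⟩, hmin⟩ : ∃ s, (s ≤ k ∧ ∀ x, a (x + (2 ^ s : ℕ)) = a x) ∧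
        ∀ s' < s, ¬ (s' ≤ k ∧ ∀ x, a (x + (2 ^ s' : ℕ)) = a x) :=
      ⟨Nat.find hex, Nat.find_spec hex, fun s' h => Nat.find_min hex h⟩
    have hs' := per_of_per s hg.2 hac hs
    obtain ⟨a', rfl⟩ := exists_lift s hsk a hs
    obtain ⟨c', rfl⟩ := exists_lift s hsk c hs'
    rw [wt_lift, wt_lift, ← mul_add] at hw
    have hks : 2 ^ (k + 1) = 2 ^ (k - s) * 2 ^ (s + 1) := by
      rw [← pow_add]; congr 1; omega
    have hw' : 128 * (wt a' + wt c') ≤ 2 ^ (s + 1) := by
      have h1 : 2 ^ (k - s) * (128 * (wt a' + wt c')) ≤ 2 ^ (k - s) * 2 ^ (s + 1) := by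
        rw [← hks]
        refine le_trans (le_of_eq ?_) hw
        ring
      exact Nat.le_of_mul_le_mul_left h1 (by positivity)
    have ha'0 : a' ≠ 0 := by
      rintro rfl
      exact ha0 rfl
    have h6 : 6 ≤ s := by
      by_contra h
      have h1 := wt_pos ha'0
      have h2 : 2 ^ (s + 1) ≤ 2 ^ 6 := Nat.pow_le_pow_right (by norm_num) (by omega)
      omega
    obtain ⟨i, rfl⟩ := Nat.exists_eq_add_of_le' h6
    rw [Finset.mem_biUnion]
    refine ⟨i, Finset.mem_range.2 (by omega), ?_⟩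
    rw [dif_pos hsk, Finset.mem_biUnion]
    refine ⟨(a', c'), ?_, ?_⟩
    · rw [Finset.mem_filter]
      refine ⟨?_, ?_⟩
      · simp only [W, mem_filter, mem_univ, true_and]
        exact hw'
      · intro h
        exact hmin (i + 5) (by omega) ⟨by omega, h⟩
    · rw [Finset.mem_filter]
      exact ⟨Finset.mem_univ _, hg.2, hac⟩
  have h1 := (card_aug k).trans (Finset.card_le_card hcover)
  have h2 := h1.trans Finset.card_biUnion_le
  have h3 : ∀ i ∈ Finset.range (k - 5), (if h : i + 6 ≤ k then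
        ((W (i + 6)).filter fun p => ¬ ∀ x, lift (i + 6) h p.1 (x + (2 ^ (i + 5) : ℕ)) =
          lift (i + 6) h p.1 x).biUnion fun p =>
          univ.filter fun g : ZMod (2 ^ k) → K => aug g = 1 ∧
            cv (lift (i + 6) h p.1) g = cv (lift (i + 6) h p.2) (rf g) else ∅).card ≤
      2 ^ (2 ^ k - 1 - (i + 1)) := by
    intro i hi
    rw [Finset.mem_range] at hi
    have h : i + 6 ≤ k := by omega
    rw [dif_pos h]
    refine Finset.card_biUnion_le.trans ?_
    refine (Finset.sum_le_card_nsmul _ _ (2 ^ (2 ^ k - (2 ^ (i + 4) - 1))) ?_).trans ?_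
    · intro p hp
      rw [Finset.mem_filter] at hp
      have := count (i + 5) (by omega) (by omega) (lift (i + 6) h p.1) (lift (i + 6) h p.2) hp.2
      simpa using this
    · rw [smul_eq_mul]
      have h4 : ((W (i + 6)).filter fun p => ¬ ∀ x, lift (i + 6) h p.1 (x + (2 ^ (i + 5) : ℕ)) =
          lift (i + 6) h p.1 x).card ≤ 2 ^ (9 * 2 ^ i) := by
        refine (Finset.card_le_card (Finset.filter_subset _ _)).trans ?_
        have := card_W (i + 6) (by omega)
        simpa using this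
      refine (Nat.mul_le_mul_right _ h4).trans ?_
      rw [← pow_add]
      apply Nat.pow_le_pow_right (by norm_num)
      have h5 : i + 1 ≤ 2 ^ i := Nat.lt_two_pow_self
      have h6 : 2 ^ (i + 4) = 16 * 2 ^ i := by rw [pow_add]; ring
      have h7 : 64 * 2 ^ i ≤ 2 ^ k := by
        have : 64 * 2 ^ i = 2 ^ (i + 6) := by rw [pow_add]; ring
        rw [this]
        exact Nat.pow_le_pow_right (by norm_num) h
      omega
  have h4 := h2.trans (Finset.sum_le_sum h3)
  -- the geometric series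
  have h5 : ∀ m M : ℕ, m ≤ M → ∑ i ∈ Finset.range m, 2 ^ (M - (i + 1)) < 2 ^ M := by
    intro m M hm
    have h6 : ∀ m, m ≤ M → ∑ i ∈ Finset.range m, 2 ^ (M - (i + 1)) + 2 ^ (M - m) = 2 ^ M := by
      intro m
      induction m with
      | zero => intro _; simp
      | succ m ih =>
        intro hm
        rw [Finset.sum_range_succ, add_assoc, ← two_mul, ← pow_succ', ← ih (by omega)]
        congr 2
        omega
    have := h6 m hm
    have h7 : 0 < 2 ^ (M - m) := by positivity
    omega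
  have h6 := h5 (k - 5) (2 ^ k - 1) (by
    have : k < 2 ^ k := Nat.lt_two_pow_self
    omega)
  omega

end Run7.h505.TI
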