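import Pool.Agent.Run7.h505.TI.I

/-!
# The dihedral code
-/

namespace Run7.h505.TI

open Finset Module

variable {k : ℕ}

/-- rotations part -/
def pA (c : DihedralGroup (2 ^ k) → K) : ZMod (2 ^ k) → K := fun i => c (DihedralGroup.r i)

/-- reflections part -/
def pB (c : DihedralGroup (2 ^ k) → K) : ZMod (2 ^ k) → K := fun i => c (DihedralGroup.sr i)

/-- the parity check map -/
def Tm (g : ZMod (2 ^ k) → K) : (DihedralGroup (2 ^ k) → K) →ₗ[K] (ZMod (2 ^ k) → K) where
  toFun c := cv (pA c) g + rf (cv (pB c) g)
  map_add' c c' := by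
    have h1 : pA (c + c') = pA c + pA c' := rfl
    have h2 : pB (c + c') = pB c + pB c' := rfl
    rw [h1, h2, cv_add_left, cv_add_left, rf_add]
    abel
  map_smul' r c := by
    have h1 : pA (r • c) = r • pA c := rfl
    have h2 : pB (r • c) = r • pB c := rfl
    rw [h1, h2, cv_smul_left, cv_smul_left, RingHom.id_apply, smul_add]
    rfl

theorem Tm_apply (g : ZMod (2 ^ k) → K) (c : DihedralGroup (2 ^ k) → K) (x : ZMod (2 ^ k)) :
    Tm g c x = cv (pA c) g x + cv (pB c) g (-x) := rfl

theorem Tm_inv (g : ZMod (2 ^ k) → K) (c : DihedralGroup (2 ^ k) → K)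
    (hc : c ∈ LinearMap.ker (Tm g)) (h : DihedralGroup (2 ^ k)) :
    (fun x => c (h * x)) ∈ LinearMap.ker (Tm g) := by
  rw [LinearMap.mem_ker] at *
  have hc' : ∀ x, cv (pA c) g x + cv (pB c) g (-x) = 0 := fun x => congrFun hc x
  cases h with
  | r j =>
    have h1 : pA (fun x => c (DihedralGroup.r j * x)) = fun i => pA c (i + j) := by
      funext i
      simp only [pA, DihedralGroup.r_mul_r]
      rw [add_comm]
    have h2 : pB (fun x => c (DihedralGroup.r j * x)) = fun i => pB c (i + -j) := by
      funext i
      simp only [pB, DihedralGroup.r_mul_sr]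
      rw [sub_eq_add_neg]
    funext x
    rw [Tm_apply, h1, h2, cv_shift, cv_shift]
    have := hc' (x + j)
    rw [neg_add] at this
    exact this
  | sr j =>
    have h1 : pA (fun x => c (DihedralGroup.sr j * x)) = fun i => pB c (i + j) := by
      funext i
      simp only [pA, pB, DihedralGroup.sr_mul_r]
      rw [add_comm]
    have h2 : pB (fun x => c (DihedralGroup.sr j * x)) = fun i => pA c (i + -j) := by
      funext i
      simp only [pA, pB, DihedralGroup.sr_mul_sr]
      rw [sub_eq_add_neg]
    funext x
    rw [Tm_apply, h1, h2, cv_shift, cv_shift]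
    have := hc' (-x + -j)
    rw [neg_add, neg_neg, neg_neg] at this
    rw [add_comm] at this
    exact this

theorem wt_rf (a : ZMod (2 ^ k) → K) : wt (rf a) = wt a := by
  unfold wt
  refine Finset.card_bij' (fun x _ => -x) (fun x _ => -x) ?_ ?_ ?_ ?_
  · intro x hx
    simpa [rf] using hx
  · intro x hx
    simpa [rf] using hx
  · simp
  · simp

theorem wt_dihedral (c : DihedralGroup (2 ^ k) → K) : wt c = wt (pA c) + wt (pB c) := by
  classical
  unfold wt
  have hr : Function.Injective (DihedralGroup.r : ZMod (2 ^ k) → _) := fun a b h => by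
    injection h
  have hs : Function.Injective (DihedralGroup.sr : ZMod (2 ^ k) → _) := fun a b h => by
    injection h
  rw [← Finset.card_image_of_injective (univ.filter fun x => pA c x ≠ 0) hr,
    ← Finset.card_image_of_injective (univ.filter fun x => pB c x ≠ 0) hs,
    ← Finset.card_union_of_disjoint]
  · congr 1
    ext x
    cases x with
    | r i => simp [pA]
    | sr i => simp [pB]
  · rw [Finset.disjoint_left]
    intro x hx hx'
    simp only [mem_image, mem_filter, mem_univ, true_and] at hx hx'
    obtain ⟨y, _, rfl⟩ := hx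
    obtain ⟨z, _, hz⟩ := hx'
    cases hz

/-- Good ideals in the group algebra of the dihedral group of order `2^(k+1)`. -/
theorem dihedral_good (k : ℕ) : ∃ C : Submodule K (DihedralGroup (2 ^ k) → K),
    (∀ c ∈ C, ∀ g : DihedralGroup (2 ^ k), (fun x => c (g * x)) ∈ C) ∧
    2 ^ k ≤ finrank K C ∧ ∀ c ∈ C, c ≠ 0 → 2 ^ (k + 1) < 128 * wt c := by
  classical
  obtain ⟨g, hg, hmain⟩ := exists_mult k
  refine ⟨LinearMap.ker (Tm g), fun c hc h => Tm_inv g c hc h, ?_, ?_⟩
  · have h1 := LinearMap.finrank_range_add_finrank_ker (Tm g)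
    have h2 : finrank K (LinearMap.range (Tm g)) ≤ 2 ^ k := by
      refine (Submodule.finrank_le _).trans ?_
      rw [Module.finrank_fintype_fun_eq_card, ZMod.card]
    rw [Module.finrank_fintype_fun_eq_card, DihedralGroup.card] at h1
    omega
  · intro c hc hne
    rw [wt_dihedral, ← wt_rf (pB c)]
    apply hmain
    · rw [← rf_cv]
      rw [LinearMap.mem_ker] at hc
      exact add_eq_zero_fun.1 hc
    · by_contra h
      push Not at h
      apply hne
      funext x
      cases x with
      | r i => exact congrFun h.1 i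
      | sr i =>
        have := congrFun h.2 (-i)
        simpa [rf, pB] using this

end Run7.h505.TI
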