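import Mathlib

/-!
# Dihedral quotients of 2-groups with a large cyclic subgroup
-/

namespace Run7.h505.TI

/-- Recognition of dihedral groups. -/
theorem dihedral_iso {Q : Type*} [Group Q] (n : ℕ) (a b : Q) (ha : orderOf a = n)
    (hb : b * b = 1) (hab : b * a * b⁻¹ = a⁻¹) (hbn : b ∉ Subgroup.zpowers a)
    (hgen : ∀ g : Q, g ∈ Subgroup.zpowers a ∨ b * g ∈ Subgroup.zpowers a) :
    Nonempty (DihedralGroup n ≃* Q) := by
  have han : (zmultiplesHom (Additive Q) (Additive.ofMul a)) (n : ℤ) = 0 := by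
    apply Additive.toMul.injective
    change a ^ (n : ℤ) = 1
    rw [zpow_natCast, ← ha, pow_orderOf_eq_one]
  let α' : ZMod n →+ Additive Q := ZMod.lift n ⟨zmultiplesHom (Additive Q) (Additive.ofMul a), han⟩
  let α : ZMod n → Q := fun i => (α' i).toMul
  have hadd : ∀ i j, α (i + j) = α i * α j := by
    intro i j
    change (α' (i + j)).toMul = _
    rw [map_add]; rfl
  have hneg : ∀ i, α (-i) = (α i)⁻¹ := by
    intro i
    change (α' (-i)).toMul = _
    rw [map_neg]; rfl
  have hcast : ∀ z : ℤ, α (z : ZMod n) = a ^ z := by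
    intro z
    change (α' z).toMul = _
    change (ZMod.lift n ⟨zmultiplesHom (Additive Q) (Additive.ofMul a), han⟩ (z : ZMod n)).toMul = _
    rw [ZMod.lift_coe]
    rfl
  have hex : ∀ i : ZMod n, ∃ z : ℤ, (z : ZMod n) = i := fun i => ZMod.intCast_surjective i
  have hbi : b⁻¹ = b := inv_eq_of_mul_eq_one_left hb
  have hconj : ∀ i, b * α i = α (-i) * b := by
    intro i
    obtain ⟨z, rfl⟩ := hex i
    have h1 : b * a ^ z * b⁻¹ = (a⁻¹) ^ z := by rw [← hab, conj_zpow]
    rw [hneg, hcast]
    rw [inv_zpow] at h1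
    rw [← h1]
    group
  let Ψ : DihedralGroup n →* Q :=
    { toFun := fun x => match x with
        | DihedralGroup.r i => α i
        | DihedralGroup.sr i => b * α i
      map_one' := by
        change α 0 = 1
        have := hcast 0
        simpa using this
      map_mul' := by
        rintro (i | i) (j | j)
        · change α (i + j) = α i * α j
          exact hadd i j
        · change b * α (j - i) = α i * (b * α j)
          rw [sub_eq_neg_add, hadd, ← mul_assoc, hconj (-i), neg_neg, mul_assoc]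
        · change b * α (i + j) = b * α i * α j
          rw [hadd, mul_assoc]
        · change α (j - i) = b * α i * (b * α j)
          rw [hconj i, mul_assoc, ← mul_assoc b b, hb, one_mul, sub_eq_neg_add, hadd] }
  have hinj : Function.Injective Ψ := by
    rw [injective_iff_map_eq_one]
    rintro (i | i) h
    · change α i = 1 at h
      obtain ⟨z, rfl⟩ := hex i
      rw [hcast] at h
      rw [← orderOf_dvd_iff_zpow_eq_one, ha] at h
      have : (z : ZMod n) = 0 := (ZMod.intCast_zmod_eq_zero_iff_dvd z n).2 h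
      rw [this]; rfl
    · exfalso
      change b * α i = 1 at h
      apply hbn
      obtain ⟨z, rfl⟩ := hex i
      rw [hcast] at h
      rw [eq_inv_of_mul_eq_one_left h]
      exact Subgroup.inv_mem _ (Subgroup.zpow_mem_zpowers a z)
  have hsurj : Function.Surjective Ψ := by
    intro g
    rcases hgen g with h | h
    · obtain ⟨z, hz⟩ := Subgroup.mem_zpowers_iff.1 h
      refine ⟨DihedralGroup.r z, ?_⟩
      change α z = g
      rw [hcast, hz]
    · obtain ⟨z, hz⟩ := Subgroup.mem_zpowers_iff.1 h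
      refine ⟨DihedralGroup.sr z, ?_⟩
      change b * α z = g
      rw [hcast, hz, ← mul_assoc, hb, one_mul]
  exact ⟨MulEquiv.ofBijective Ψ ⟨hinj, hsurj⟩⟩

/-- `r^(2^e) = 1` modulo `2^k` implies `r = 1` or `r = -1` modulo `2^(k-e)`. -/
theorem pm_one (e : ℕ) : ∀ (k : ℕ) (r : ℤ), (2 : ℤ) ^ k ∣ r ^ 2 ^ e - 1 →
    (2 : ℤ) ^ (k - e) ∣ r - 1 ∨ (2 : ℤ) ^ (k - e) ∣ r + 1 := by
  induction e with
  | zero => intro k r h; left; simpa using h
  | succ e ih =>
    intro k r h
    by_cases hk : k - (e + 1) = 0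
    · left; rw [hk]; simp
    have hodd : ¬ (2 : ℤ) ∣ r := by
      intro h2
      have h3 : (2 : ℤ) ∣ r ^ 2 ^ (e + 1) := dvd_pow h2 (by positivity)
      have h4 : (2 : ℤ) ∣ r ^ 2 ^ (e + 1) - 1 := (dvd_pow_self 2 (by omega)).trans h
      generalize r ^ 2 ^ (e + 1) = A at h3 h4
      omega
    have hodd' : r % 2 = 1 := by omega
    rw [pow_succ', pow_mul] at h
    have h1 := ih k (r ^ 2) h
    -- `r^2 + 1` is not divisible by 4
    have h2 : (2 : ℤ) ^ (k - e) ∣ r ^ 2 - 1 := by
      rcases h1 with h1 | h1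
      · exact h1
      · exfalso
        have h3 : (4 : ℤ) ∣ r ^ 2 + 1 := by
          refine Dvd.dvd.trans ?_ h1
          have : (4 : ℤ) = 2 ^ 2 := by norm_num
          rw [this]
          exact pow_dvd_pow 2 (by omega)
        obtain ⟨s, hs⟩ : ∃ s, r = 2 * s + 1 := ⟨r / 2, by omega⟩
        rw [hs] at h3
        have h4 : (2 * s + 1) ^ 2 + 1 = 4 * (s * s + s) + 2 := by ring
        rw [h4] at h3
        omega
    obtain ⟨s, hs⟩ : ∃ s, r = 2 * s + 1 := ⟨r / 2, by omega⟩
    have h3 : r ^ 2 - 1 = 4 * (s * (s + 1)) := by rw [hs]; ring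
    rw [h3] at h2
    have hke : k - e = (k - (e + 1) - 1) + 2 := by omega
    rw [hke, pow_add] at h2
    have h4 : (2 : ℤ) ^ (k - (e + 1) - 1) ∣ s * (s + 1) := by
      obtain ⟨q, hq⟩ := h2
      refine ⟨q, ?_⟩
      have : (4 : ℤ) * (s * (s + 1)) = 4 * (2 ^ (k - (e + 1) - 1) * q) := by rw [hq]; ring
      linarith
    have hs2 : k - (e + 1) = (k - (e + 1) - 1) + 1 := by omega
    by_cases hpar : (2 : ℤ) ∣ s
    · -- `s + 1` is odd
      left
      have hcop : IsCoprime ((2 : ℤ) ^ (k - (e + 1) - 1)) (s + 1) := by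
        apply IsCoprime.pow_left
        rw [isCoprime_comm]
        exact Int.isCoprime_iff_gcd_eq_one.2 (by
          rw [Int.gcd_eq_natAbs]
          have : (s + 1).natAbs % 2 = 1 := by omega
          exact (Nat.coprime_two_right (n := (s + 1).natAbs)).2 (Nat.odd_iff.2 this))
      have h5 := hcop.dvd_of_dvd_mul_right h4
      obtain ⟨q, hq⟩ := h5
      rw [hs, hs2, pow_succ]
      refine ⟨q, ?_⟩
      rw [hq]; ring
    · right
      have hcop : IsCoprime ((2 : ℤ) ^ (k - (e + 1) - 1)) s := by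
        apply IsCoprime.pow_left
        rw [isCoprime_comm]
        exact Int.isCoprime_iff_gcd_eq_one.2 (by
          rw [Int.gcd_eq_natAbs]
          have : s.natAbs % 2 = 1 := by omega
          exact (Nat.coprime_two_right (n := s.natAbs)).2 (Nat.odd_iff.2 this))
      have h5 := hcop.dvd_of_dvd_mul_left h4
      obtain ⟨q, hq⟩ := h5
      rw [hs, hs2, pow_succ]
      refine ⟨q, ?_⟩
      have : 2 * s + 1 + 1 = 2 * (s + 1) := by ring
      rw [this, hq]; ring

end Run7.h505.TI
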