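import Pool.Agent.Run7.h505.TI.L

/-!
# Dihedral quotients of 2-groups with a large cyclic subgroup: the main lemma
-/

namespace Run7.h505.TI

open Subgroup

theorem dihedral_quotient (G : Type*) [Group G] [Finite G] (hG : IsPGroup 2 G) (C : Subgroup G)
    [hCn : C.Normal] (hC : IsCyclic C) :
    (∃ (q : ℕ) (π : G →* DihedralGroup (2 ^ q)), Function.Surjective π ∧
      Nat.card G ≤ C.index ^ 3 * 2 ^ q) ∨
    Nat.card G ≤ C.index ^ 3 * Nat.card (Abelianization G) := by
  classical
  have : Fact (Nat.Prime 2) := ⟨Nat.prime_two⟩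
  obtain ⟨e, he⟩ := hG.index C
  obtain ⟨⟨x, hxC⟩, hx⟩ := hC.exists_generator
  have hCx : C = zpowers x := by
    apply le_antisymm
    · intro g hg
      obtain ⟨i, hi⟩ := mem_zpowers_iff.1 (hx ⟨g, hg⟩)
      rw [mem_zpowers_iff]
      exact ⟨i, by simpa using congrArg Subtype.val hi⟩
    · rw [zpowers_le]; exact hxC
  obtain ⟨k, hk⟩ := (IsPGroup.iff_orderOf.1 hG) x
  have hcard : Nat.card G = 2 ^ k * 2 ^ e := by
    rw [← C.card_mul_index, he, hCx, Nat.card_zpowers, hk]
  set m : ℕ := 2 ^ (2 * e) with hm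
  set x' : G := x ^ 2 ^ e with hx'
  -- all elements act as `±1` on `x'`
  have hact : ∀ g : G, g * x' * g⁻¹ = x' ∨ g * x' * g⁻¹ = x'⁻¹ := by
    intro g
    obtain ⟨r, hr⟩ : ∃ r : ℤ, x ^ r = g * x * g⁻¹ := by
      rw [← mem_zpowers_iff, ← hCx]
      exact hCn.conj_mem x hxC g
    have h1 : ∀ n : ℕ, g ^ n * x * (g ^ n)⁻¹ = x ^ (r ^ n) := by
      intro n
      induction n with
      | zero => simp
      | succ n ih =>
        have h2 : g ^ (n + 1) * x * (g ^ (n + 1))⁻¹ = g * (g ^ n * x * (g ^ n)⁻¹) * g⁻¹ := by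
          rw [pow_succ']; group
        rw [h2, ih, ← conj_zpow, ← hr, ← zpow_mul, pow_succ']
    have h2 : g ^ 2 ^ e ∈ C := by rw [← he]; exact C.pow_index_mem g
    have h3 : x ^ (r ^ 2 ^ e) = x := by
      rw [← h1]
      rw [hCx] at h2
      obtain ⟨i, hi⟩ := mem_zpowers_iff.1 h2
      rw [← hi]
      group
    have h4 : (2 : ℤ) ^ k ∣ r ^ 2 ^ e - 1 := by
      have h5 : x ^ (r ^ 2 ^ e - 1) = 1 := by rw [zpow_sub, h3, zpow_one, mul_inv_cancel]
      have h6 := orderOf_dvd_iff_zpow_eq_one.2 h5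
      rw [hk] at h6
      exact_mod_cast h6
    have h5 : ∀ z : ℤ, (2 : ℤ) ^ (k - e) ∣ z → x' ^ z = 1 := by
      intro z hz
      rw [hx', ← zpow_natCast, ← zpow_mul, ← orderOf_dvd_iff_zpow_eq_one, hk]
      push_cast
      by_cases hke : k ≤ e
      · exact Dvd.dvd.mul_right (pow_dvd_pow 2 hke) z
      · obtain ⟨w, hw⟩ := hz
        refine ⟨w, ?_⟩
        rw [hw, ← mul_assoc, ← pow_add]
        congr 2; omega
    have h6 : g * x' * g⁻¹ = x' ^ r := by
      rw [hx', ← conj_pow, ← hr, ← zpow_natCast, ← zpow_natCast, ← zpow_mul, ← zpow_mul, mul_comm]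
    rcases pm_one e k r h4 with h7 | h7
    · left
      have h8 := h5 _ h7
      rw [h6]
      rw [zpow_sub, zpow_one] at h8
      exact mul_inv_eq_one.1 h8
    · right
      have h8 := h5 _ h7
      rw [h6]
      rw [zpow_add, zpow_one] at h8
      exact eq_inv_of_mul_eq_one_left h8
  set C' : Subgroup G := zpowers x' with hC'
  have hC'n : C'.Normal := by
    constructor
    intro c hc g
    obtain ⟨i, rfl⟩ := mem_zpowers_iff.1 hc
    rw [← conj_zpow]
    rcases hact g with h | h
    · rw [h]; exact zpow_mem_zpowers _ _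
    · rw [h]; exact zpow_mem (inv_mem (mem_zpowers _)) _
  have hC'i : C'.index ∣ m := by
    have h1 : Nat.card C' * C'.index = 2 ^ k * 2 ^ e := by rw [C'.card_mul_index, hcard]
    have h2 : 2 ^ k ∣ 2 ^ e * Nat.card C' := by
      rw [Nat.card_zpowers, ← hk]
      apply orderOf_dvd_of_pow_eq_one
      rw [pow_mul, ← hx', pow_orderOf_eq_one]
    obtain ⟨u, hu⟩ := h2
    have h3 : C'.index * u = 2 ^ e * 2 ^ e := by
      have hpos : 0 < 2 ^ k := by positivity
      apply Nat.eq_of_mul_eq_mul_left hpos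
      calc 2 ^ k * (C'.index * u) = C'.index * (2 ^ k * u) := by ring
        _ = C'.index * (2 ^ e * Nat.card C') := by rw [hu]
        _ = 2 ^ e * (Nat.card C' * C'.index) := by ring
        _ = 2 ^ k * (2 ^ e * 2 ^ e) := by rw [h1]; ring
    refine ⟨u, ?_⟩
    rw [h3, hm, ← pow_add]; congr 1; omega
  have hP2 : ∀ g : G, g ^ m ∈ C' := by
    intro g
    obtain ⟨u, hu⟩ := hC'i
    rw [hu, pow_mul]
    exact pow_mem (C'.pow_index_mem g) u
  -- the centralizer
  let H : Subgroup G :=
    { carrier := {g | g * x' * g⁻¹ = x'}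
      one_mem' := by simp
      mul_mem' := by
        intro a b ha hb
        rw [Set.mem_ofPred_eq] at *
        have : a * b * x' * (a * b)⁻¹ = a * (b * x' * b⁻¹) * a⁻¹ := by group
        rw [this, hb, ha]
      inv_mem' := by
        intro a ha
        rw [Set.mem_ofPred_eq] at *
        nth_rewrite 1 [← ha]
        group }
  have hmem : ∀ g, g ∈ H ↔ g * x' * g⁻¹ = x' := fun g => Iff.rfl
  have hHcomm : ∀ h ∈ H, ∀ c ∈ C', h * c = c * h := by
    intro h hh c hc
    obtain ⟨i, rfl⟩ := mem_zpowers_iff.1 hc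
    have h1 : h * x' ^ i * h⁻¹ = x' ^ i := by rw [← conj_zpow, (hmem h).1 hh]
    rw [← mul_inv_eq_iff_eq_mul]
    exact h1
  have hC'H : C' ≤ H := by
    rw [hC', zpowers_le, hmem]
    group
  have hxH : x ∈ H := by
    rw [hmem, hx']
    group
  have hP1 : ∀ h ∈ H, ∀ h' ∈ H, (h * h') ^ m = h ^ m * h' ^ m := by
    have h1 : (C'.subgroupOf H) ≤ center H := by
      intro c hc
      rw [mem_center_iff]
      intro g
      apply Subtype.ext
      exact hHcomm g.1 g.2 c.1 (mem_subgroupOf.1 hc)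
    have h2 : (center H).index ∣ m := by
      refine (index_dvd_of_le h1).trans (Dvd.dvd.trans ?_ hC'i)
      exact relIndex_dvd_index_of_le hC'H
    obtain ⟨u, hu⟩ := h2
    intro h hh h' hh'
    have h3 : ∀ g : H, g ^ m = (((MonoidHom.transferCenterPow H g) ^ u : center H) : H) := by
      intro g
      rw [hu, pow_mul]
      rw [SubgroupClass.coe_pow, MonoidHom.transferCenterPow_apply]
    have h4 : ((⟨h, hh⟩ : H) * ⟨h', hh'⟩) ^ m = (⟨h, hh⟩ : H) ^ m * (⟨h', hh'⟩ : H) ^ m := by
      have h5 : (MonoidHom.transferCenterPow H ⟨h, hh⟩ *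
          MonoidHom.transferCenterPow H ⟨h', hh'⟩) ^ u =
          MonoidHom.transferCenterPow H ⟨h, hh⟩ ^ u * MonoidHom.transferCenterPow H ⟨h', hh'⟩ ^ u :=
        Commute.mul_pow (by
          apply Subtype.ext
          exact (mem_center_iff.1 (MonoidHom.transferCenterPow H ⟨h', hh'⟩).2 _)) u
      rw [h3, h3, h3, map_mul, h5]
      rfl
    simpa using congrArg Subtype.val h4
  -- the power map
  let ψ : H →* C' :=
    { toFun := fun h => ⟨h.1 ^ m, hP2 h.1⟩
      map_one' := by
        apply Subtype.ext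
        simp
      map_mul' := by
        intro a b
        apply Subtype.ext
        exact hP1 a.1 a.2 b.1 b.2 }
  have hord : Nat.card G ≤ C.index ^ 3 * orderOf (x ^ m) := by
    have h1 : orderOf x ∣ m * orderOf (x ^ m) := by
      apply orderOf_dvd_of_pow_eq_one
      rw [pow_mul, pow_orderOf_eq_one]
    have h2 := Nat.le_of_dvd (Nat.mul_pos (by positivity) (orderOf_pos _)) h1
    rw [hk] at h2
    rw [hcard, he]
    calc 2 ^ k * 2 ^ e ≤ (m * orderOf (x ^ m)) * 2 ^ e := Nat.mul_le_mul_right _ h2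
      _ = (2 ^ e) ^ 3 * orderOf (x ^ m) := by
        rw [hm, pow_mul' 2 2 e]; ring
  by_cases hall : ∀ g : G, g ∈ H
  · -- the central case
    right
    let ψ' : G →* C' :=
      { toFun := fun g => ψ ⟨g, hall g⟩
        map_one' := by
          have : (⟨1, hall 1⟩ : H) = 1 := rfl
          rw [this, map_one]
        map_mul' := by
          intro a b
          rw [← map_mul]
          rfl }
    let _ : CommGroup C' :=
      { (inferInstance : Group C') with
        mul_comm := by
          intro a b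
          apply Subtype.ext
          exact hHcomm _ (hC'H a.2) _ b.2 }
    let f : Abelianization G →* C' := Abelianization.lift ψ'
    refine hord.trans (Nat.mul_le_mul_left _ ?_)
    have h1 : orderOf (f (Abelianization.of x)) ∣ orderOf (Abelianization.of x) :=
      orderOf_map_dvd _ _
    have h2 : f (Abelianization.of x) = ψ' x := Abelianization.lift_apply_of _ _
    have h3 : orderOf (ψ' x) = orderOf (x ^ m) := by
      rw [← Subgroup.orderOf_coe]
      rfl
    rw [h2, h3] at h1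
    exact (Nat.le_of_dvd (orderOf_pos _) h1).trans
      (Nat.le_of_dvd Nat.card_pos (orderOf_dvd_natCard _))
  · left
    push Not at hall
    obtain ⟨y, hyH⟩ := hall
    have hyinv : ∀ g, g ∉ H → g * x' * g⁻¹ = x'⁻¹ := by
      intro g hg
      rcases hact g with h | h
      · exact absurd h hg
      · exact h
    have hyc : ∀ c ∈ C', y * c * y⁻¹ = c⁻¹ := by
      intro c hc
      obtain ⟨i, rfl⟩ := mem_zpowers_iff.1 hc
      rw [← conj_zpow, hyinv y hyH, inv_zpow]
    have hgg : ∀ g, g ∉ H → y * g ∈ H := by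
      intro g hg
      rw [hmem]
      have h1 : y * g * x' * (y * g)⁻¹ = y * (g * x' * g⁻¹) * y⁻¹ := by group
      rw [h1, hyinv g hg, hyc _ (inv_mem (mem_zpowers _)), inv_inv]
    have hHn : H.Normal := by
      constructor
      intro h hh g
      rw [hmem]
      have h1 : g * h * g⁻¹ * x' * (g * h * g⁻¹)⁻¹ = g * (h * (g⁻¹ * x' * g) * h⁻¹) * g⁻¹ := by
        group
      have h2 : g⁻¹ * x' * g ∈ C' := by
        have := hC'n.conj_mem x' (mem_zpowers _) g⁻¹
        simpa using this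
      have h3 : h * (g⁻¹ * x' * g) * h⁻¹ = g⁻¹ * x' * g := by
        rw [hHcomm h hh _ h2]; group
      rw [h1, h3]
      group
    let N : Subgroup G :=
      { carrier := {g | g ∈ H ∧ g ^ m = 1}
        one_mem' := ⟨H.one_mem, one_pow _⟩
        mul_mem' := by
          intro a b ha hb
          rw [Set.mem_ofPred_eq] at *
          exact ⟨H.mul_mem ha.1 hb.1, by rw [hP1 a ha.1 b hb.1, ha.2, hb.2, one_mul]⟩
        inv_mem' := by
          intro a ha
          rw [Set.mem_ofPred_eq] at *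
          exact ⟨H.inv_mem ha.1, by rw [inv_pow, ha.2, inv_one]⟩ }
    have hNmem : ∀ g, g ∈ N ↔ g ∈ H ∧ g ^ m = 1 := fun g => Iff.rfl
    have hNn : N.Normal := by
      constructor
      intro n hn g
      rw [hNmem] at *
      exact ⟨hHn.conj_mem n hn.1 g, by rw [conj_pow, hn.2]; group⟩
    -- a generator of the image of the power map
    have hcyc : IsCyclic ψ.range := inferInstance
    obtain ⟨⟨p, hp⟩, hgenp⟩ := hcyc.exists_generator
    obtain ⟨h₀, rfl⟩ := hp
    have hgen0 : ∀ h : H, ∃ i : ℤ, (h₀.1 ^ i) ^ m = h.1 ^ m := by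
      intro h
      obtain ⟨i, hi⟩ := mem_zpowers_iff.1 (hgenp ⟨ψ h, ⟨h, rfl⟩⟩)
      refine ⟨i, ?_⟩
      have h1 := congrArg Subtype.val (congrArg Subtype.val hi)
      change (h₀.1 ^ m) ^ i = h.1 ^ m at h1
      rw [← h1, ← zpow_natCast, ← zpow_natCast, ← zpow_mul, ← zpow_mul, mul_comm]
    let a : G ⧸ N := QuotientGroup.mk' N h₀.1
    let b : G ⧸ N := QuotientGroup.mk' N y
    have hbb : b * b = 1 := by
      change QuotientGroup.mk' N y * QuotientGroup.mk' N y = 1
      rw [← map_mul, ← MonoidHom.mem_ker, QuotientGroup.ker_mk', hNmem]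
      refine ⟨hgg y hyH, ?_⟩
      have h1 := hyc _ (hP2 y)
      have h2 : y * y ^ m * y⁻¹ = y ^ m := by group
      rw [h2] at h1
      rw [← pow_two, ← pow_mul, mul_comm, pow_mul, pow_two]
      nth_rewrite 1 [h1]
      rw [inv_mul_cancel]
    have hbab : b * a * b⁻¹ = a⁻¹ := by
      rw [eq_inv_iff_mul_eq_one]
      change QuotientGroup.mk' N y * QuotientGroup.mk' N h₀.1 * (QuotientGroup.mk' N y)⁻¹ *
        QuotientGroup.mk' N h₀.1 = 1
      rw [← map_mul, ← map_inv, ← map_mul, ← map_mul, ← MonoidHom.mem_ker,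
        QuotientGroup.ker_mk', hNmem]
      have h1 := hHn.conj_mem _ h₀.2 y
      refine ⟨H.mul_mem h1 h₀.2, ?_⟩
      rw [hP1 _ h1 _ h₀.2, conj_pow, hyc _ (hP2 _), inv_mul_cancel]
    have hbn : b ∉ zpowers a := by
      intro h
      obtain ⟨i, hi⟩ := mem_zpowers_iff.1 h
      change (QuotientGroup.mk' N h₀.1) ^ i = QuotientGroup.mk' N y at hi
      rw [← map_zpow, QuotientGroup.mk'_eq_mk'] at hi
      obtain ⟨n, hn, hny⟩ := hi
      apply hyH
      rw [← hny]
      exact H.mul_mem (H.zpow_mem h₀.2 i) ((hNmem n).1 hn).1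
    have hH0 : ∀ g ∈ H, QuotientGroup.mk' N g ∈ zpowers a := by
      intro g hg
      obtain ⟨i, hi⟩ := hgen0 ⟨g, hg⟩
      rw [mem_zpowers_iff]
      refine ⟨i, ?_⟩
      change (QuotientGroup.mk' N h₀.1) ^ i = QuotientGroup.mk' N g
      rw [← map_zpow, QuotientGroup.mk'_eq_mk']
      refine ⟨(h₀.1 ^ i)⁻¹ * g, ?_, by group⟩
      rw [hNmem]
      have h1 := H.inv_mem (H.zpow_mem h₀.2 i)
      refine ⟨H.mul_mem h1 hg, ?_⟩
      rw [hP1 _ h1 _ hg, inv_pow, hi, inv_mul_cancel]
    have hgen : ∀ g : G ⧸ N, g ∈ zpowers a ∨ b * g ∈ zpowers a := by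
      intro g
      obtain ⟨g, rfl⟩ := QuotientGroup.mk'_surjective N g
      by_cases hg : g ∈ H
      · left; exact hH0 g hg
      · right
        change QuotientGroup.mk' N y * QuotientGroup.mk' N g ∈ _
        rw [← map_mul]
        exact hH0 _ (hgg g hg)
    have hQ : IsPGroup 2 (G ⧸ N) := hG.to_quotient N
    obtain ⟨q, hq⟩ := (IsPGroup.iff_orderOf.1 hQ) a
    obtain ⟨E⟩ := dihedral_iso (2 ^ q) a b hq hbb hbab hbn hgen
    refine ⟨q, E.symm.toMonoidHom.comp (QuotientGroup.mk' N),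
      E.symm.surjective.comp (QuotientGroup.mk'_surjective N), ?_⟩
    refine hord.trans (Nat.mul_le_mul_left _ ?_)
    -- the order of `x^m` divides the order of `a`
    apply Nat.le_of_dvd (by positivity)
    rw [← hq]
    obtain ⟨i, hi⟩ := hgen0 ⟨x, hxH⟩
    change _ = x ^ m at hi
    apply orderOf_dvd_of_pow_eq_one
    rw [← hi]
    have h1 : h₀.1 ^ orderOf a ∈ N := by
      have h2 : a ^ orderOf a = 1 := pow_orderOf_eq_one a
      change (QuotientGroup.mk' N h₀.1) ^ orderOf a = 1 at h2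
      rw [← map_pow, ← MonoidHom.mem_ker, QuotientGroup.ker_mk'] at h2
      exact h2
    have h2 := ((hNmem _).1 h1).2
    calc ((h₀.1 ^ i) ^ m) ^ orderOf a = ((h₀.1 ^ orderOf a) ^ m) ^ i := by
          rw [← zpow_natCast, ← zpow_natCast, ← zpow_natCast (h₀.1 ^ orderOf a),
            ← zpow_natCast h₀.1, ← zpow_mul, ← zpow_mul, ← zpow_mul, ← zpow_mul]
          congr 1
          ring
      _ = 1 := by rw [h2, one_zpow]

end Run7.h505.TI
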