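import Pool.Agent.Run7.h505.TI.M

/-!
# 2-groups with abelianization of order at most four have a cyclic subgroup of index at most two
-/

namespace Run7.h505.TI

open Subgroup

theorem exists_central_involution {G : Type*} [Group G] [Finite G] (hG : IsPGroup 2 G)
    (N : Subgroup G) [hN : N.Normal] (h : N ≠ ⊥) : ∃ z ∈ N, orderOf z = 2 ∧ ∀ g, g * z = z * g := by
  have : Fact (Nat.Prime 2) := ⟨Nat.prime_two⟩
  have h1 : ∃ z ∈ N, z ≠ 1 ∧ ∀ g, g * z = z * g := by
    have hdvd : 2 ∣ Nat.card N := by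
      obtain ⟨t, ht⟩ := IsPGroup.iff_card.1 (hG.to_subgroup N)
      rw [ht]
      apply dvd_pow_self
      rintro rfl
      rw [pow_zero, card_eq_one] at ht
      exact h ht
    have hG' : IsPGroup 2 (ConjAct G) := hG.of_equiv ConjAct.toConjAct
    obtain ⟨b, hb, hb1⟩ := hG'.exists_fixed_point_of_prime_dvd_card_of_fixed_point N hdvd
      (a := 1) (by
        intro g
        apply Subtype.ext
        rw [ConjAct.Subgroup.val_conj_smul, ConjAct.smul_def]
        simp)
    refine ⟨b.1, b.2, fun h => hb1 (Subtype.ext h.symm), ?_⟩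
    intro g
    have h2 := congrArg Subtype.val (hb (ConjAct.toConjAct g))
    rw [ConjAct.Subgroup.val_conj_smul, ConjAct.smul_def, ConjAct.ofConjAct_toConjAct] at h2
    rw [← mul_inv_eq_iff_eq_mul]
    exact h2
  obtain ⟨z, hzN, hz1, hz⟩ := h1
  obtain ⟨t, ht⟩ := (IsPGroup.iff_orderOf.1 hG) z
  have ht0 : t ≠ 0 := by
    rintro rfl
    rw [pow_zero, orderOf_eq_one_iff] at ht
    exact hz1 ht
  obtain ⟨u, rfl⟩ := Nat.exists_eq_succ_of_ne_zero ht0
  refine ⟨z ^ 2 ^ u, N.pow_mem hzN _, ?_, ?_⟩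
  · rw [orderOf_pow' z (by positivity), ht, Nat.succ_eq_add_one, pow_succ,
      Nat.gcd_eq_right (Dvd.intro _ rfl)]
    exact Nat.mul_div_cancel_left 2 (by positivity)
  · intro g
    exact (Commute.pow_right (hz g) _)

theorem index_zpowers {G : Type*} [Group G] [Finite G] (g : G) :
    orderOf g * (zpowers g).index = Nat.card G := by
  rw [← Nat.card_zpowers, card_mul_index]

theorem cyclic_of_ab (n : ℕ) : ∀ (G : Type) [Group G] [Finite G], IsPGroup 2 G → Nat.card G = n →
    Nat.card (Abelianization G) ≤ 4 → ∃ g : G, (zpowers g).index ≤ 2 := by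
  induction n using Nat.strong_induction_on with
  | _ n ih =>
  intro G _ _ hG hn hab
  have : Fact (Nat.Prime 2) := ⟨Nat.prime_two⟩
  have hab' : (commutator G).index ≤ 4 := hab
  by_cases hcomm : commutator G = ⊥
  · rw [hcomm, index_bot] at hab'
    by_cases hne : ∃ g : G, g ≠ 1
    · obtain ⟨g, hg⟩ := hne
      refine ⟨g, ?_⟩
      have h1 := index_zpowers g
      have h2 : 2 ≤ orderOf g := by
        have h3 : orderOf g ≠ 1 := fun h => hg (orderOf_eq_one_iff.1 h)
        have := orderOf_pos g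
        omega
      by_contra h
      push Not at h
      have : 2 * 3 ≤ orderOf g * (zpowers g).index := Nat.mul_le_mul h2 h
      omega
    · push Not at hne
      refine ⟨1, ?_⟩
      have h1 : Nat.card G ≤ 1 := by
        rw [Finite.card_le_one_iff_subsingleton]
        exact ⟨fun a b => by rw [hne a, hne b]⟩
      have h2 := index_zpowers (1 : G)
      rw [orderOf_one, one_mul] at h2
      omega
  -- the non-abelian case
  have hnc : ¬ ∀ a b : G, a * b = b * a := by
    intro h
    apply hcomm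
    rw [eq_bot_iff, commutator_eq_closure, closure_le]
    rintro x ⟨a, b, rfl⟩
    rw [SetLike.mem_coe, mem_bot, commutatorElement_def, h a b]
    group
  obtain ⟨z, hzN, hz2, hz⟩ := exists_central_involution hG (commutator G) hcomm
  have hZn : (zpowers z).Normal := by
    constructor
    intro c hc g
    obtain ⟨i, rfl⟩ := mem_zpowers_iff.1 hc
    have : g * z ^ i * g⁻¹ = z ^ i := by
      rw [← conj_zpow]; congr 1
      rw [hz g]; group
    rw [this]; exact hc
  have hcz : Nat.card (zpowers z) = 2 := by rw [Nat.card_zpowers, hz2]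
  have hcardQ : 2 * Nat.card (G ⧸ zpowers z) = Nat.card G := by
    rw [← hcz]; exact (zpowers z).card_mul_index
  have hposQ : 0 < Nat.card (G ⧸ zpowers z) := Nat.card_pos
  -- the induction hypothesis for the quotient
  have hQab : Nat.card (Abelianization (G ⧸ zpowers z)) ≤ 4 := by
    refine le_trans ?_ hab
    let f : Abelianization G →* Abelianization (G ⧸ zpowers z) :=
      Abelianization.map (QuotientGroup.mk' (zpowers z))
    have hf : Function.Surjective f := by
      intro x
      obtain ⟨x, rfl⟩ := QuotientGroup.mk_surjective x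
      obtain ⟨x, rfl⟩ := QuotientGroup.mk'_surjective (zpowers z) x
      exact ⟨Abelianization.of x, Abelianization.map_of _ _⟩
    exact Nat.card_le_card_of_surjective f hf
  obtain ⟨gb, hgb⟩ := ih (Nat.card (G ⧸ zpowers z)) (by omega) (G ⧸ zpowers z)
    (hG.to_quotient _) rfl hQab
  obtain ⟨g, rfl⟩ := QuotientGroup.mk'_surjective (zpowers z) gb
  -- the abelian subgroup of index two
  let B : Subgroup G := (zpowers (QuotientGroup.mk' (zpowers z) g)).comap
    (QuotientGroup.mk' (zpowers z))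
  have hBmem : ∀ b, b ∈ B → ∃ (i j : ℤ), b = g ^ i * z ^ j := by
    intro b hb
    obtain ⟨i, hi⟩ := mem_zpowers_iff.1 (mem_comap.1 hb)
    rw [← map_zpow, QuotientGroup.mk'_eq_mk'] at hi
    obtain ⟨c, hc, hcb⟩ := hi
    obtain ⟨j, rfl⟩ := mem_zpowers_iff.1 hc
    exact ⟨i, j, hcb.symm⟩
  have hgB : g ∈ B := mem_comap.2 (mem_zpowers _)
  have hzB : z ∈ B := by
    rw [mem_comap]
    have : QuotientGroup.mk' (zpowers z) z = 1 := by
      rw [← MonoidHom.mem_ker, QuotientGroup.ker_mk']; exact mem_zpowers z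
    rw [this]; exact one_mem _
  have hgz : Commute g z := hz g
  have hBcomm : ∀ b ∈ B, ∀ b' ∈ B, b * b' = b' * b := by
    intro b hb b' hb'
    obtain ⟨i, j, rfl⟩ := hBmem b hb
    obtain ⟨i', j', rfl⟩ := hBmem b' hb'
    have h1 : Commute (g ^ i * z ^ j) (g ^ i' * z ^ j') := by
      apply Commute.mul_left
      · apply Commute.mul_right
        · exact (Commute.refl g).zpow_zpow i i'
        · exact hgz.zpow_zpow i j'
      · apply Commute.mul_right
        · exact hgz.symm.zpow_zpow j i'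
        · exact (Commute.refl z).zpow_zpow j j'
    exact h1
  have hBi : B.index ≤ 2 := by
    rw [index_comap_of_surjective _ (QuotientGroup.mk'_surjective _)]
    exact hgb
  have hBtop : B ≠ ⊤ := by
    intro h
    apply hnc
    intro a b
    exact hBcomm a (by rw [h]; trivial) b (by rw [h]; trivial)
  have hBi2 : B.index = 2 := by
    have h1 : B.index ≠ 1 := fun h => hBtop (index_eq_one.1 h)
    have h2 : B.index ≠ 0 := index_ne_zero_of_finite
    omega
  have hBn : B.Normal := normal_of_index_eq_two hBi2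
  by_cases hzg : z ∈ zpowers g
  · refine ⟨g, ?_⟩
    have : B ≤ zpowers g := by
      intro b hb
      obtain ⟨i, j, rfl⟩ := hBmem b hb
      exact mul_mem (zpow_mem_zpowers _ _) (zpow_mem hzg _)
    exact (Nat.le_of_dvd (by omega) (index_dvd_of_le this)).trans hBi
  -- now `B = ⟨g⟩ × ⟨z⟩`
  obtain ⟨y, hy⟩ : ∃ y, y ∉ B := by
    by_contra h
    push Not at h
    exact hBtop (eq_top_iff.2 fun x _ => h x)
  have hordg : orderOf (QuotientGroup.mk' (zpowers z) g) = orderOf g := by
    apply Nat.dvd_antisymm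
    · exact orderOf_map_dvd _ _
    · apply orderOf_dvd_of_pow_eq_one
      have h3 : QuotientGroup.mk' (zpowers z) (g ^ orderOf (QuotientGroup.mk' (zpowers z) g)) = 1 :=
        by rw [map_pow, pow_orderOf_eq_one]
      rw [← MonoidHom.mem_ker, QuotientGroup.ker_mk'] at h3
      obtain ⟨j, hj⟩ := mem_zpowers_iff.1 h3
      by_contra h4
      apply hzg
      have hzz : z ^ (2 : ℤ) = 1 := by
        have := pow_orderOf_eq_one z
        rw [hz2] at this
        exact_mod_cast this
      have h5 : z ^ j = z := by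
        rcases Int.even_or_odd j with ⟨t, ht⟩ | ⟨t, ht⟩
        · exfalso
          apply h4
          rw [← hj, ht, ← two_mul, zpow_mul, hzz, one_zpow]
        · rw [ht, zpow_add, zpow_mul, zpow_one, hzz, one_zpow, one_mul]
      rw [← h5, hj]
      exact pow_mem (mem_zpowers g) _
  have hcardG : Nat.card G = 4 * orderOf g := by
    have h1 := (zpowers (QuotientGroup.mk' (zpowers z) g)).card_mul_index
    have h2 : (zpowers (QuotientGroup.mk' (zpowers z) g)).index = 2 := by
      rw [← hBi2]
      exact (index_comap_of_surjective _ (QuotientGroup.mk'_surjective _)).symm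
    rw [Nat.card_zpowers, hordg, h2] at h1
    omega
  obtain ⟨t, ht⟩ := (IsPGroup.iff_orderOf.1 hG) g
  by_cases ht1 : t ≤ 1
  · -- small groups
    have h8 : Nat.card G ≤ 8 := by
      have : 2 ^ t ≤ 2 ^ 1 := Nat.pow_le_pow_right (by norm_num) ht1
      omega
    obtain ⟨u, hu⟩ : ∃ u : G, u * u ≠ 1 := by
      by_contra h
      push Not at h
      apply hnc
      intro a b
      have h1 := h (a * b)
      have h2 : a⁻¹ = a := inv_eq_of_mul_eq_one_left (h a)
      have h3 : b⁻¹ = b := inv_eq_of_mul_eq_one_left (h b)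
      have h4 : (a * b)⁻¹ = a * b := inv_eq_of_mul_eq_one_left h1
      rw [mul_inv_rev, h2, h3] at h4
      exact h4.symm
    refine ⟨u, ?_⟩
    obtain ⟨t', ht'⟩ := (IsPGroup.iff_orderOf.1 hG) u
    have h2 : 2 ≤ t' := by
      by_contra h
      push Not at h
      apply hu
      have h3 : orderOf u ∣ 2 := by
        rw [ht']
        exact (pow_dvd_pow 2 (by omega : t' ≤ 1))
      rw [← pow_two]
      exact orderOf_dvd_iff_pow_eq_one.1 h3
    have h3 : 4 ≤ orderOf u := by
      rw [ht']
      calc 4 = 2 ^ 2 := by norm_num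
        _ ≤ 2 ^ t' := Nat.pow_le_pow_right (by norm_num) h2
    have h4 := index_zpowers u
    by_contra h
    push Not at h
    have : 4 * 3 ≤ orderOf u * (zpowers u).index := Nat.mul_le_mul h3 h
    omega
  -- large groups: contradiction
  exfalso
  have hzz : ∀ j : ℤ, z ^ (2 * j) = 1 := by
    intro j
    have := pow_orderOf_eq_one z
    rw [hz2] at this
    rw [zpow_mul]
    have h2 : z ^ (2 : ℤ) = 1 := by exact_mod_cast this
    rw [h2, one_zpow]
  obtain ⟨r, s, hrs⟩ := hBmem _ (hBn.conj_mem g hgB y)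
  obtain ⟨t', rfl⟩ : ∃ t', t = t' + 2 := ⟨t - 2, by omega⟩
  have hgp : ∀ i : ℤ, g ^ ((2 ^ (t' + 2) : ℤ) * i) = 1 := by
    intro i
    rw [zpow_mul]
    have : g ^ (2 ^ (t' + 2) : ℤ) = 1 := by
      have h1 := pow_orderOf_eq_one g
      rw [ht] at h1
      exact_mod_cast h1
    rw [this, one_zpow]
  have hodd : ∃ v, r = 2 * v + 1 := by
    rcases Int.even_or_odd r with ⟨v, hv⟩ | ⟨v, hv⟩
    · exfalso
      have h1 : (y * g * y⁻¹) ^ (2 ^ (t' + 1) : ℤ) = 1 := by
        rw [hrs, (hgz.zpow_zpow r s).mul_zpow, ← zpow_mul, ← zpow_mul, hv]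
        have h2 : (v + v) * (2 : ℤ) ^ (t' + 1) = 2 ^ (t' + 2) * v := by ring
        have h3 : s * (2 : ℤ) ^ (t' + 1) = 2 * (s * 2 ^ t') := by ring
        rw [h2, h3, hgp, hzz, one_mul]
      rw [conj_zpow] at h1
      have h2 : g ^ (2 ^ (t' + 1) : ℤ) = 1 := by
        have h3 : g ^ (2 ^ (t' + 1) : ℤ) = y⁻¹ * (y * g ^ (2 ^ (t' + 1) : ℤ) * y⁻¹) * y := by group
        rw [h3, h1]; group
      have h3 : g ^ (2 ^ (t' + 1)) = 1 := by exact_mod_cast h2
      have h4 := orderOf_dvd_of_pow_eq_one h3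
      rw [ht] at h4
      have h5 := Nat.le_of_dvd (by positivity) h4
      have h6 : 2 ^ (t' + 1) < 2 ^ (t' + 2) := Nat.pow_lt_pow_right (by norm_num) (by omega)
      omega
    · exact ⟨v, hv⟩
  obtain ⟨v, rfl⟩ := hodd
  set w : G := y * g * y⁻¹ * g⁻¹ with hw
  have hw' : w = g ^ (2 * v) * z ^ s := by
    rw [hw, hrs, zpow_add, zpow_one]
    have : z ^ s * g⁻¹ = g⁻¹ * z ^ s := (hgz.symm.zpow_left s).inv_right
    rw [mul_assoc, this]
    group
  have hwB : w ∈ B := by
    rw [hw']; exact mul_mem (zpow_mem hgB _) (zpow_mem hzB _)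
  have hwconj : y * w * y⁻¹ ∈ zpowers w := by
    have h1 : y * w * y⁻¹ = (y * g * y⁻¹) ^ (2 * v) * z ^ s := by
      have h2 : y * w * y⁻¹ = (y * g ^ (2 * v) * y⁻¹) * (y * z ^ s * y⁻¹) := by
        rw [hw']; group
      have h3 : y * z ^ s * y⁻¹ = z ^ s := by
        have : Commute y (z ^ s) := Commute.zpow_right (hz y) s
        rw [this.eq]; group
      rw [h2, h3, conj_zpow]
    have h2 : y * g * y⁻¹ = w * g := by rw [hw]; group
    have h3 : Commute w g := hBcomm w hwB g hgB
    rw [h1, h2, h3.mul_zpow, mul_assoc, ← hw']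
    exact mul_mem (zpow_mem_zpowers _ _) (mem_zpowers _)
  have hsplit : ∀ a : G, a ∈ B ∨ ∃ b ∈ B, a = b * y := by
    intro a
    by_cases ha : a ∈ B
    · exact Or.inl ha
    · right
      refine ⟨a * y⁻¹, ?_, by group⟩
      rw [mul_mem_iff_of_index_two hBi2]
      constructor
      · intro h; exact absurd h ha
      · intro h; exact absurd (inv_mem_iff.1 h) hy
  have hWn : (zpowers w).Normal := by
    constructor
    intro c hc a
    obtain ⟨i, rfl⟩ := mem_zpowers_iff.1 hc
    rw [← conj_zpow]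
    apply zpow_mem
    rcases hsplit a with ha | ⟨b, hb, rfl⟩
    · rw [hBcomm a ha w hwB, mul_inv_cancel_right]
      exact mem_zpowers w
    · have h1 : b * y * w * (b * y)⁻¹ = b * (y * w * y⁻¹) * b⁻¹ := by group
      rw [h1, hBcomm b hb _ (hBn.conj_mem w hwB y), mul_inv_cancel_right]
      exact hwconj
  have hyg : Commute (QuotientGroup.mk' (zpowers w) y) (QuotientGroup.mk' (zpowers w) g) := by
    change _ * _ = _ * _
    rw [← map_mul, ← map_mul, QuotientGroup.mk'_eq_mk']
    refine ⟨(y * g)⁻¹ * (g * y), ?_, by group⟩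
    have h1 : (y * g)⁻¹ * (g * y) = (y * g)⁻¹ * w⁻¹ * (y * g)⁻¹⁻¹ := by rw [hw]; group
    rw [h1]
    exact hWn.conj_mem _ (inv_mem (mem_zpowers w)) _
  have hyb : ∀ b ∈ B, Commute (QuotientGroup.mk' (zpowers w) y)
      (QuotientGroup.mk' (zpowers w) b) := by
    intro b hb
    obtain ⟨i, j, rfl⟩ := hBmem b hb
    rw [map_mul, map_zpow, map_zpow]
    apply Commute.mul_right
    · exact hyg.zpow_right i
    · apply Commute.zpow_right
      change _ * _ = _ * _
      rw [← map_mul, ← map_mul, hz y]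
  have hbb : ∀ b ∈ B, ∀ b' ∈ B, Commute (QuotientGroup.mk' (zpowers w) b)
      (QuotientGroup.mk' (zpowers w) b') := by
    intro b hb b' hb'
    change _ * _ = _ * _
    rw [← map_mul, ← map_mul, hBcomm b hb b' hb']
  have hall : ∀ a a' : G, Commute (QuotientGroup.mk' (zpowers w) a)
      (QuotientGroup.mk' (zpowers w) a') := by
    intro a a'
    rcases hsplit a with ha | ⟨b, hb, rfl⟩
    · rcases hsplit a' with ha' | ⟨b', hb', rfl⟩
      · exact hbb a ha a' ha'
      · rw [map_mul]
        exact (hbb a ha b' hb').mul_right (hyb a ha).symm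
    · rcases hsplit a' with ha' | ⟨b', hb', rfl⟩
      · rw [map_mul]
        exact (hbb b hb a' ha').mul_left (hyb a' ha')
      · rw [map_mul, map_mul]
        apply Commute.mul_left
        · exact (hbb b hb b' hb').mul_right (hyb b hb).symm
        · exact (hyb b' hb').mul_right (Commute.refl _)
  have hle : commutator G ≤ zpowers w := by
    rw [commutator_def, commutator_le]
    intro a _ b _
    rw [← QuotientGroup.ker_mk' (zpowers w), MonoidHom.mem_ker, map_commutatorElement,
      commutatorElement_eq_one_iff_mul_comm]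
    exact hall a b
  have hord : orderOf w ∣ 2 ^ (t' + 1) := by
    apply orderOf_dvd_of_pow_eq_one
    have h1 : w ^ (2 ^ (t' + 1) : ℤ) = 1 := by
      rw [hw', (hgz.zpow_zpow _ _).mul_zpow, ← zpow_mul, ← zpow_mul]
      have h2 : (2 * v) * (2 : ℤ) ^ (t' + 1) = 2 ^ (t' + 2) * v := by ring
      have h3 : s * (2 : ℤ) ^ (t' + 1) = 2 * (s * 2 ^ t') := by ring
      rw [h2, h3, hgp, hzz, one_mul]
    exact_mod_cast h1
  have h1 := index_zpowers w
  have h2 := Nat.le_of_dvd (by positivity) hord
  have h3 : (zpowers w).index ≤ 4 :=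
    (Nat.le_of_dvd (Nat.pos_of_ne_zero index_ne_zero_of_finite) (index_dvd_of_le hle)).trans hab'
  have h4 : Nat.card G ≤ 2 ^ (t' + 1) * 4 := by
    rw [← h1]; exact Nat.mul_le_mul h2 h3
  rw [hcardG, ht] at h4
  have h5 : 2 ^ (t' + 2) = 2 * 2 ^ (t' + 1) := by rw [pow_succ']
  have h6 : 0 < 2 ^ (t' + 1) := by positivity
  omega

end Run7.h505.TI
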