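import Pool.Agent.Run7.h505.TI.J
import Pool.Agent.Run7.h505.TI.N

/-!
# Good codes for 2-groups with a large cyclic subgroup and small abelianization
-/

namespace Run7.h505.TI

open Finset Module

theorem wt_comp {G Q : Type*} [Group G] [Fintype G] [Group Q] [Fintype Q] (π : G →* Q)
    (hπ : Function.Surjective π) (f : Q → K) :
    wt (fun x => f (π x)) * Fintype.card Q = Fintype.card G * wt f := by
  classical
  have h1 : ∀ i, (univ.filter fun x => π x = i).card = (univ.filter fun x => π x = 1).card :=
    fun i => MonoidHom.card_fiber_eq_of_mem_range π (hπ i) (hπ 1)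
  have h2 : Fintype.card Q * (univ.filter fun x => π x = 1).card = Fintype.card G := by
    have h3 := Finset.card_eq_sum_card_fiberwise (f := π) (s := (univ : Finset G))
      (t := univ) (by intro x _; simp)
    rw [Finset.sum_congr rfl (fun i _ => h1 i), Finset.sum_const, smul_eq_mul, Finset.card_univ,
      Finset.card_univ] at h3
    exact h3.symm
  have h3 : wt (fun x => f (π x)) = wt f * (univ.filter fun x => π x = 1).card := by
    unfold wt
    rw [Finset.card_eq_sum_card_fiberwise (f := π) (t := univ.filter fun i => f i ≠ 0)]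
    · have h5 : ∀ i ∈ univ.filter (fun i => f i ≠ 0),
          ((univ.filter fun x => f (π x) ≠ 0).filter fun x => π x = i).card =
          (univ.filter fun x => π x = 1).card := by
        intro i hi
        rw [← h1 i]
        congr 1
        ext x
        simp only [mem_filter, mem_univ, true_and] at hi ⊢
        constructor
        · exact fun h => h.2
        · intro h
          refine ⟨?_, h⟩
          rw [h]; exact hi
      rw [Finset.sum_congr rfl h5, Finset.sum_const, smul_eq_mul]
    · intro x hx
      simp only [coe_filter, mem_univ, true_and, Set.mem_ofPred_eq] at hx ⊢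
      exact hx
  rw [h3, ← h2]
  ring

theorem pull {G Q : Type*} [Group G] [Fintype G] [Group Q] [Fintype Q] (π : G →* Q)
    (hπ : Function.Surjective π) (C : Submodule K (Q → K))
    (hC : ∀ c ∈ C, ∀ g : Q, (fun x => c (g * x)) ∈ C)
    (hd : ∀ c ∈ C, c ≠ 0 → Fintype.card Q < 128 * wt c) :
    ∃ C' : Submodule K (G → K), (∀ c ∈ C', ∀ g : G, (fun x => c (g * x)) ∈ C') ∧
      finrank K C' = finrank K C ∧ ∀ c ∈ C', c ≠ 0 → Fintype.card G < 128 * wt c := by
  let L : (Q → K) →ₗ[K] (G → K) := LinearMap.funLeft K K π
  have hL : Function.Injective L := LinearMap.funLeft_injective_of_surjective K K _ hπ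
  refine ⟨C.map L, ?_, (Submodule.equivMapOfInjective L hL C).finrank_eq.symm, ?_⟩
  · rintro _ ⟨c, hc, rfl⟩ g
    refine ⟨_, hC c hc (π g), ?_⟩
    funext x
    change c (π g * π x) = c (π (g * x))
    rw [map_mul]
  · rintro _ ⟨c, hc, rfl⟩ hne
    have hc0 : c ≠ 0 := by
      rintro rfl
      exact hne (map_zero L)
    have h1 := hd c hc hc0
    have h2 := wt_comp π hπ c
    change Fintype.card G < 128 * wt (fun x => c (π x))
    have hQ : 0 < Fintype.card Q := Fintype.card_pos
    have hG : 0 < Fintype.card G := Fintype.card_pos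
    by_contra h3
    push Not at h3
    have h4 : 128 * wt (fun x => c (π x)) * Fintype.card Q ≤ Fintype.card G * Fintype.card Q :=
      Nat.mul_le_mul_right _ h3
    have h5 : Fintype.card G * Fintype.card Q < Fintype.card G * (128 * wt c) :=
      Nat.mul_lt_mul_of_pos_left h1 hG
    nlinarith

/-- the repetition code -/
theorem rep (G : Type*) [Group G] [Fintype G] :
    ∃ C' : Submodule K (G → K), (∀ c ∈ C', ∀ g : G, (fun x => c (g * x)) ∈ C') ∧
      finrank K C' = 1 ∧ ∀ c ∈ C', c ≠ 0 → Fintype.card G < 128 * wt c := by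
  classical
  have h1 : (fun _ => 1 : G → K) ≠ 0 := by
    intro h
    exact one_ne_zero (congrFun h 1)
  refine ⟨Submodule.span K {fun _ => 1}, ?_, finrank_span_singleton h1, ?_⟩
  · intro c hc g
    obtain ⟨r, rfl⟩ := Submodule.mem_span_singleton.1 hc
    rw [Submodule.mem_span_singleton]
    exact ⟨r, rfl⟩
  · intro c hc hne
    obtain ⟨r, rfl⟩ := Submodule.mem_span_singleton.1 hc
    have hr : r ≠ 0 := by
      rintro rfl
      exact hne (zero_smul _ _)
    have h2 : wt (r • (fun _ => 1 : G → K)) = Fintype.card G := by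
      unfold wt
      rw [Finset.filter_true_of_mem, Finset.card_univ]
      intro x _
      simpa using hr
    rw [h2]
    have : 0 < Fintype.card G := Fintype.card_pos
    omega

theorem good_normal (G : Type*) [Group G] [Fintype G] (hG : IsPGroup 2 G) (A : Subgroup G)
    [A.Normal] (hA : IsCyclic A) :
    ∃ C : Submodule K (G → K), (∀ c ∈ C, ∀ g : G, (fun x => c (g * x)) ∈ C) ∧
      Fintype.card G ≤ A.index ^ 3 * Nat.card (Abelianization G) * finrank K C ∧
      ∀ c ∈ C, c ≠ 0 → Fintype.card G < 128 * wt c := by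
  rcases dihedral_quotient G hG A hA with ⟨q, π, hπ, hcard⟩ | hcard
  · obtain ⟨C, hC, hdim, hd⟩ := dihedral_good q
    obtain ⟨C', h1, h2, h3⟩ := pull π hπ C hC (by
      intro c hc hne
      have := hd c hc hne
      rw [DihedralGroup.card, ← pow_succ']
      exact this)
    refine ⟨C', h1, ?_, h3⟩
    rw [h2]
    rw [Nat.card_eq_fintype_card] at hcard
    refine hcard.trans ?_
    refine Nat.mul_le_mul ?_ hdim
    exact Nat.le_mul_of_pos_right _ Nat.card_pos
  · obtain ⟨C', h1, h2, h3⟩ := rep G
    refine ⟨C', h1, ?_, h3⟩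
    rw [h2, mul_one]
    rw [Nat.card_eq_fintype_card] at hcard
    exact hcard

theorem good (m M : ℕ) (G : Type*) [Group G] [Fintype G] (hG : IsPGroup 2 G)
    (A : Subgroup G) (hA : IsCyclic A) (hAm : A.index ≤ m)
    (hM : Nat.card (Abelianization G) ≤ M) :
    ∃ C : Submodule K (G → K), (∀ c ∈ C, ∀ g : G, (fun x => c (g * x)) ∈ C) ∧
      Fintype.card G ≤ m.factorial ^ 3 * M * finrank K C ∧
      ∀ c ∈ C, c ≠ 0 → Fintype.card G < 128 * wt c := by
  have hcyc : IsCyclic A.normalCore := by
    have h1 := Subgroup.inclusion_injective A.normalCore_le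
    exact isCyclic_of_injective _ h1
  obtain ⟨C, h1, h2, h3⟩ := good_normal G hG A.normalCore hcyc
  refine ⟨C, h1, h2.trans ?_, h3⟩
  have h4 : A.normalCore.index ≤ m.factorial := by
    have h5 : A.normalCore.index ∣ A.index.factorial := by
      rw [Subgroup.normalCore_eq_ker, Subgroup.index_ker, Subgroup.index_eq_card, ← Nat.card_perm]
      exact Subgroup.card_subgroup_dvd_card (MulAction.toPermHom G (G ⧸ A)).range
    exact (Nat.le_of_dvd (Nat.factorial_pos _) h5).trans (Nat.factorial_le hAm)
  gcongr

end Run7.h505.TI
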